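import Pool.Agent.W2helper36.RA.Max

set_option autoImplicit false

/-!
The final form of the estimates.
-/

open MeasureTheory Set ENNReal Metric

namespace Pool.Agent.W2helper36.RA

open Pool.Agent.H803R2.KakFTO (Vec Space lineMax)
open Pool.Agent.TH426.Kt (nb W lin Wb LMb VanOff win cb cb_ne_top nb_univ_eq)
open Pool.Agent.W2helper36.LN (vb vb_ne_top vb_ne_zero vol_cb AA AA_pos)

variable {d : ℕ}

/-- The constant `A`. -/
noncomputable def AH (d : ℕ) (H : ℝ) : ℝ := 3 * (H + 1) * AA d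

theorem AH_pos (d : ℕ) {H : ℝ} (hH : 0 ≤ H) : 0 < AH d H := by
  unfold AH
  have := AA_pos d
  positivity

theorem const_le {δ c K H p : ℝ} (hδ : 0 < δ) (hδ1 : δ < 1) (hc : 0 < c) (hK : 0 ≤ K) (hH : 0 ≤ H)
    (hp : 1 ≤ p) :
    cb d ^ p * (ENNReal.ofReal (3 * (1 + Real.log (1 / δ))) ^ (p - 1) *
      ((volume (closedBall (0 : Vec d) (3 * δ)))⁻¹ *
        ENNReal.ofReal (K * (1 + Real.log (1 / δ)) ^ 2 * (3 * δ / c) ^ d *
          (δ ^ (-(max ((d : ℝ) + 1 - p) 0)) * (H + 1) ^ p)))) ≤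
    ENNReal.ofReal (AH d H ^ p * K * (c ^ d)⁻¹ * (1 + Real.log (1 / δ)) ^ (p + 1) *
      δ ^ (-(max ((d : ℝ) + 1 - p) 0))) := by
  have hvb0 := vb_ne_zero d
  have hvbt := vb_ne_top d
  have hvr : 0 < (vb d).toReal := ENNReal.toReal_pos hvb0 hvbt
  have hlog : 0 ≤ Real.log (1 / δ) := Real.log_nonneg (by rw [le_div_iff₀ hδ]; linarith)
  set g := 1 + Real.log (1 / δ) with hg
  have hg0 : 0 < g := by positivity
  set D := δ ^ (-(max ((d : ℝ) + 1 - p) 0)) with hD
  have hD0 : 0 < D := by positivity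
  have hcb : cb d ^ p ≤ ENNReal.ofReal (((cb d).toReal + 1) ^ p) := by
    rw [← ENNReal.ofReal_rpow_of_pos (by positivity)]
    apply ENNReal.rpow_le_rpow _ (by linarith)
    rw [ENNReal.ofReal_add ENNReal.toReal_nonneg zero_le_one, ENNReal.ofReal_toReal (cb_ne_top d)]
    exact le_self_add
  have hV : (volume (closedBall (0 : Vec d) (3 * δ)))⁻¹ =
      ENNReal.ofReal (((3 * δ) ^ d * (vb d).toReal)⁻¹) := by
    rw [vol_cb _ (by positivity), ENNReal.ofReal_inv_of_pos (by positivity),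
      ENNReal.ofReal_mul (by positivity), ENNReal.ofReal_toReal hvbt]
  have hmax : ((vb d).toReal)⁻¹ ≤ (max 1 ((vb d).toReal)⁻¹) ^ p := by
    calc ((vb d).toReal)⁻¹ ≤ max 1 ((vb d).toReal)⁻¹ := le_max_right _ _
      _ = (max 1 ((vb d).toReal)⁻¹) ^ (1 : ℝ) := (Real.rpow_one _).symm
      _ ≤ _ := Real.rpow_le_rpow_of_exponent_le (le_max_left _ _) hp
  have h3 : ENNReal.ofReal (3 * g) ^ (p - 1) = ENNReal.ofReal ((3 * g) ^ (p - 1)) :=
    ENNReal.ofReal_rpow_of_pos (by positivity)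
  rw [hV, h3, ← ENNReal.ofReal_mul (by positivity), ← ENNReal.ofReal_mul (by positivity)]
  refine (mul_le_mul_left hcb _).trans ?_
  rw [← ENNReal.ofReal_mul (by positivity)]
  apply ENNReal.ofReal_le_ofReal
  have e1 : ((3 * δ) ^ d * (vb d).toReal)⁻¹ * (K * g ^ 2 * (3 * δ / c) ^ d * (D * (H + 1) ^ p)) =
      ((vb d).toReal)⁻¹ * (K * g ^ 2 * (c ^ d)⁻¹ * (D * (H + 1) ^ p)) := by
    rw [div_pow, mul_pow]
    field_simp
  have e2 : (3 * g) ^ (p - 1) * g ^ 2 ≤ 3 ^ p * g ^ (p + 1) := by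
    rw [Real.mul_rpow (by norm_num) hg0.le]
    have e3 : g ^ (p + 1) = g ^ (p - 1) * g ^ 2 := by
      rw [← Real.rpow_natCast g 2, ← Real.rpow_add hg0]
      congr 1
      push_cast
      ring
    rw [e3]
    have e4 : (3 : ℝ) ^ (p - 1) ≤ 3 ^ p := Real.rpow_le_rpow_of_exponent_le (by norm_num) (by linarith)
    calc (3 : ℝ) ^ (p - 1) * g ^ (p - 1) * g ^ 2 ≤ 3 ^ p * g ^ (p - 1) * g ^ 2 := by gcongr
      _ = _ := by ring
  have e5 : AH d H ^ p = 3 ^ p * (H + 1) ^ p * (((cb d).toReal + 1) ^ p *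
      (max 1 ((vb d).toReal)⁻¹) ^ p) := by
    unfold AH AA
    rw [Real.mul_rpow (by positivity) (by positivity), Real.mul_rpow (by positivity) (by positivity),
      Real.mul_rpow (by positivity) (by positivity)]
  rw [e1, e5]
  calc ((cb d).toReal + 1) ^ p * ((3 * g) ^ (p - 1) *
        (((vb d).toReal)⁻¹ * (K * g ^ 2 * (c ^ d)⁻¹ * (D * (H + 1) ^ p))))
      = ((cb d).toReal + 1) ^ p * ((vb d).toReal)⁻¹ * ((3 * g) ^ (p - 1) * g ^ 2) *
          (K * (c ^ d)⁻¹ * D * (H + 1) ^ p) := by ring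
    _ ≤ ((cb d).toReal + 1) ^ p * (max 1 ((vb d).toReal)⁻¹) ^ p * (3 ^ p * g ^ (p + 1)) *
          (K * (c ^ d)⁻¹ * D * (H + 1) ^ p) := by gcongr
    _ = _ := by ring

/-- The estimates for a good family. -/
theorem final {b : Vec d → Vec d} (hb : Measurable b) {H c K : ℝ} (hc : 0 < c) (hc1 : c ≤ 1)
    (hH : 0 ≤ H) (hKv : (vb d).toReal * (H + 1) ^ d ≤ K)
    (h : ∀ (r t : ℝ) (y : Vec d), 0 < r → r ≤ 1 → |t| ≤ H →
      volume {v | ‖v‖ ≤ 1 ∧ ‖b v + t • v - y‖ ≤ r} ≤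
        ENNReal.ofReal (K * (1 + Real.log (1 / r)) ^ 2 * (r / (c * max |t| r)) ^ d))
    {δ : ℝ} (hδ : 0 < δ) (hδ1 : δ < 1) {p : ℝ} (hp : 1 ≤ p) :
    LMb δ (Icc (-H) H) 1 p (ENNReal.ofReal (AH d H ^ p * K * (c ^ d)⁻¹ *
      (1 + Real.log (1 / δ)) ^ (p + 1) * δ ^ (-(max ((d : ℝ) + 1 - p) 0)))) (closedBall 0 1) b := by
  have hvr : 0 < (vb d).toReal := ENNReal.toReal_pos (vb_ne_zero d) (vb_ne_top d)
  have hK : 0 ≤ K := le_trans (by positivity) hKv
  have hlog : 0 ≤ Real.log (1 / δ) := Real.log_nonneg (by rw [le_div_iff₀ hδ]; linarith)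
  have key := lmb_of_overlap hb (H := H) hδ hδ1 hp
    (Λ := fun t => ENNReal.ofReal (K * (1 + Real.log (1 / δ)) ^ 2 * (3 * δ / (c * wt δ t)) ^ d))
    (K := ENNReal.ofReal (K * (1 + Real.log (1 / δ)) ^ 2 * (3 * δ / c) ^ d *
          (δ ^ (-(max ((d : ℝ) + 1 - p) 0)) * (H + 1) ^ p))) (by
      intro t ht x
      have hw := wt_pos hδ t
      by_cases h3 : 3 * δ ≤ 1
      · refine (h (3 * δ) t x (by positivity) h3 ht).trans (ENNReal.ofReal_le_ofReal ?_)
        have h1 : wt δ t ≤ max |t| (3 * δ) := max_le_max le_rfl (by linarith)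
        have h2 : 0 ≤ Real.log (1 / (3 * δ)) :=
          Real.log_nonneg (by rw [le_div_iff₀ (by positivity)]; linarith)
        have h4 : Real.log (1 / (3 * δ)) ≤ Real.log (1 / δ) := by
          apply Real.log_le_log (by positivity)
          apply one_div_le_one_div_of_le hδ
          linarith
        gcongr
      · rw [not_le] at h3
        have h5 : volume {v : Vec d | ‖v‖ ≤ 1 ∧ ‖b v + t • v - x‖ ≤ 3 * δ} ≤ vb d := by
          apply measure_mono
          intro v hv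
          simpa using hv.1
        refine h5.trans ?_
        rw [← ENNReal.ofReal_toReal (vb_ne_top d)]
        apply ENNReal.ofReal_le_ofReal
        have hw1 : wt δ t ≤ H + 1 := by
          unfold wt
          apply max_le <;> linarith
        have h6 : 1 ≤ (H + 1) ^ d * (3 * δ / (c * wt δ t)) ^ d := by
          rw [← mul_pow]
          apply one_le_pow₀
          rw [← mul_div_assoc, le_div_iff₀ (by positivity), one_mul]
          have h7 : c * wt δ t ≤ 1 * (H + 1) := by gcongr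
          nlinarith
        have h8 : 1 ≤ (1 + Real.log (1 / δ)) ^ 2 := by nlinarith
        have h9 : 0 ≤ (3 * δ / (c * wt δ t)) ^ d := by positivity
        calc (vb d).toReal ≤ (vb d).toReal * ((H + 1) ^ d * (3 * δ / (c * wt δ t)) ^ d) := by
              nlinarith
          _ = ((vb d).toReal * (H + 1) ^ d) * 1 * (3 * δ / (c * wt δ t)) ^ d := by ring
          _ ≤ _ := by gcongr)
    (by
      intro t ht
      have hw := wt_pos hδ t
      have hwδ : δ ≤ wt δ t := le_max_right _ _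
      have hw1 : wt δ t ≤ H + 1 := by
        unfold wt
        apply max_le <;> linarith
      rw [← ENNReal.ofReal_mul (by positivity)]
      apply ENNReal.ofReal_le_ofReal
      have e1 : (3 * δ / (c * wt δ t)) ^ d = (3 * δ / c) ^ d * (wt δ t) ^ (-(d : ℝ)) := by
        rw [Real.rpow_neg hw.le, Real.rpow_natCast, ← div_div, div_pow]
        rfl
      have e2 : wt δ t ^ (p - 1) * wt δ t ^ (-(d : ℝ)) ≤
          δ ^ (-(max ((d : ℝ) + 1 - p) 0)) * (H + 1) ^ p := by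
        rw [← Real.rpow_add hw]
        rcases le_total ((d : ℝ) + 1 - p) 0 with h1 | h1
        · rw [max_eq_right h1, neg_zero, Real.rpow_zero, one_mul]
          have hd : (0 : ℝ) ≤ d := by positivity
          calc wt δ t ^ (p - 1 + -(d : ℝ)) ≤ (H + 1) ^ (p - 1 + -(d : ℝ)) :=
                Real.rpow_le_rpow hw.le hw1 (by linarith)
            _ ≤ (H + 1) ^ p := Real.rpow_le_rpow_of_exponent_le (by linarith) (by linarith)
        · rw [max_eq_left h1]
          have h2 : p - 1 + -(d : ℝ) = -((d : ℝ) + 1 - p) := by ring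
          rw [h2]
          have h3 : 1 ≤ (H + 1) ^ p := Real.one_le_rpow (by linarith) (by linarith)
          have h4 : wt δ t ^ (-((d : ℝ) + 1 - p)) ≤ δ ^ (-((d : ℝ) + 1 - p)) :=
            Real.rpow_le_rpow_of_nonpos hδ hwδ (by linarith)
          have h5 : 0 ≤ δ ^ (-((d : ℝ) + 1 - p)) := by positivity
          nlinarith
      rw [e1]
      calc wt δ t ^ (p - 1) * (K * (1 + Real.log (1 / δ)) ^ 2 * ((3 * δ / c) ^ d *
            wt δ t ^ (-(d : ℝ))))
          = K * (1 + Real.log (1 / δ)) ^ 2 * (3 * δ / c) ^ d *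
              (wt δ t ^ (p - 1) * wt δ t ^ (-(d : ℝ))) := by ring
        _ ≤ _ := by gcongr)
  intro f hf hfT
  refine (key f hf hfT).trans ?_
  gcongr
  exact const_le hδ hδ1 hc hK hH hp

/-- The constant `C`. -/
noncomputable def CC (D : Set (Vec d)) (M H : ℝ) : ℝ := C1 D M H + (vb d).toReal * (H + 1) ^ d + 1

theorem CC_pos (D : Set (Vec d)) {M H : ℝ} (hM : 1 ≤ M) (hH : 0 ≤ H) : 0 < CC D M H := by
  have h0 := C0_nonneg D hM hH
  have h1 : 0 ≤ C1 D M H := by unfold C1; positivity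
  have h2 : 0 ≤ (vb d).toReal := ENNReal.toReal_nonneg
  unfold CC
  positivity

theorem main_overlap {Ω : Type*} [MeasurableSpace Ω] {D : Set (Vec d)} (hD : MeasurableSet D)
    (hDt : volume D ≠ ∞) {Φ : Ω → ℝ → Vec d → Vec d}
    (hΦ : Measurable (fun z : Ω × ℝ × Vec d => Φ z.1 z.2.1 z.2.2)) {M : ℝ}
    (hM : 1 ≤ M) (hΦL : ∀ ω t t' v, v ∈ D → ‖Φ ω t v - Φ ω t' v‖ ≤ M * |t - t'|) {c H : ℝ}
    (hc : 0 < c) (hc1 : c ≤ 1) (hH : 0 ≤ H) {u : ℝ} (hu : 1 ≤ u) {ω : Ω}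
    (hω : ω ∈ good D Φ M c H u) (r t : ℝ) (y : Vec d) (hr : 0 < r) (hr1 : r ≤ 1) (ht : |t| ≤ H) :
    volume {v | v ∈ D ∧ ‖Φ ω t v - y‖ ≤ r} ≤
      ENNReal.ofReal (CC D M H * u * (1 + Real.log (1 / r)) ^ 2 * (r / (c * max |t| r)) ^ d) := by
  rw [← U_eq hD hΦ]
  refine (overlap hDt hM hΦL hc hc1 hH hu hω ht y hr hr1).trans (ENNReal.ofReal_le_ofReal ?_)
  have h2 : 0 ≤ (vb d).toReal := ENNReal.toReal_nonneg
  have h3 : C1 D M H ≤ CC D M H := by
    unfold CC
    have : 0 ≤ (vb d).toReal * (H + 1) ^ d := by positivity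
    linarith
  have hlog : 0 ≤ Real.log (1 / r) := Real.log_nonneg (by rw [le_div_iff₀ hr]; linarith)
  have hmx : 0 < max |t| r := lt_max_of_lt_right hr
  gcongr

end Pool.Agent.W2helper36.RA
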