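import Pool.Agent.W2helper36.RA.Tree

set_option autoImplicit false

/-!
The random isometry.
-/

open MeasureTheory Set ENNReal Metric Filter Topology ProbabilityTheory

namespace Pool.Agent.W2helper36.RA

open Pool.Agent.H803R2.KakFTO (Vec)

variable {d : ℕ}

/-- Indices: generation and position. -/
abbrev Ix (d : ℕ) : Type := ℕ × (Fin d → ℤ)

/-- The probability space: one random subset of the coordinates for every dyadic cube. -/
abbrev Om (d : ℕ) : Type := Ix d → (Fin d → Bool)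

/-- Independent fair coins. -/
noncomputable def PP (d : ℕ) : Measure (Om d) :=
  Measure.infinitePi fun _ : Ix d => uniformOn (Set.univ : Set (Fin d → Bool))

instance (d : ℕ) : IsProbabilityMeasure (PP d) := by
  unfold PP
  infer_instance

/-- The new last digit. -/
def nd (e : Bool) (k : ℤ) : ℤ := if e then 1 - k % 2 else k % 2

theorem nd_range (e : Bool) (k : ℤ) : 0 ≤ nd e k ∧ nd e k ≤ 1 := by
  unfold nd
  split_ifs <;> omega

theorem nd_nd (e : Bool) (a k : ℤ) : nd e (2 * a + nd e k) = k % 2 := by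
  unfold nd
  cases e <;> simp <;> omega

/-- One more generation. -/
def step (g : (Fin d → ℤ) ≃ (Fin d → ℤ)) (e : (Fin d → ℤ) → Fin d → Bool) :
    (Fin d → ℤ) ≃ (Fin d → ℤ) where
  toFun k := fun i => 2 * g (par k) i + nd (e (par k) i) (k i)
  invFun m := fun i => 2 * g.symm (par m) i + nd (e (g.symm (par m)) i) (m i)
  left_inv k := by
    have h1 : par (fun i => 2 * g (par k) i + nd (e (par k) i) (k i)) = g (par k) := by
      funext i
      have := nd_range (e (par k) i) (k i)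
      show (2 * g (par k) i + nd (e (par k) i) (k i)) / 2 = g (par k) i
      omega
    funext i
    simp only [h1, Equiv.symm_apply_apply, nd_nd]
    unfold par
    omega
  right_inv m := by
    have h1 : par (fun i => 2 * g.symm (par m) i + nd (e (g.symm (par m)) i) (m i)) =
        g.symm (par m) := by
      funext i
      have := nd_range (e (g.symm (par m)) i) (m i)
      show (2 * g.symm (par m) i + nd (e (g.symm (par m)) i) (m i)) / 2 = g.symm (par m) i
      omega
    funext i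
    simp only [h1, Equiv.apply_symm_apply, nd_nd]
    unfold par
    omega

theorem par_step (g : (Fin d → ℤ) ≃ (Fin d → ℤ)) (e : (Fin d → ℤ) → Fin d → Bool) (k : Fin d → ℤ) :
    par (step g e k) = g (par k) := by
  funext i
  have := nd_range (e (par k) i) (k i)
  have h2 : step g e k i = 2 * g (par k) i + nd (e (par k) i) (k i) := rfl
  show step g e k i / 2 = _
  rw [h2]
  omega

/-- The coins of generation `j`; none before the generation `N`. -/
def flips (N : ℕ) (ω : Om d) (j : ℕ) (k : Fin d → ℤ) : Fin d → Bool :=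
  if N ≤ j then ω (j, k) else fun _ => false

/-- The random permutations of the cubes. -/
def rA (N : ℕ) (ω : Om d) : ℕ → (Fin d → ℤ) ≃ (Fin d → ℤ)
  | 0 => Equiv.refl _
  | j + 1 => step (rA N ω j) (flips N ω j)

/-- The random isometry. -/
def rT (N : ℕ) (ω : Om d) : TA d where
  f := rA N ω
  f0 _ := rfl
  comp _ _ := par_step _ _ _

/-- The displacement of a point at one generation. -/
noncomputable def ddF (j : ℕ) (k : Fin d → ℤ) (e : Fin d → Bool) : Vec d :=
  WithLp.toLp 2 (fun i => (1 / 2 : ℝ) ^ j * (((nd (e i) (k i) : ℤ) : ℝ) - ((k i % 2 : ℤ) : ℝ)))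

theorem dd_rT (N : ℕ) (ω : Om d) (j : ℕ) (v : Vec d) :
    dd (rT N ω) j v = ddF j (q (j + 1) v) (flips N ω j (q j v)) := by
  ext i
  unfold dd ddF
  simp only
  congr 3
  have h1 : (rT N ω).f (j + 1) (q (j + 1) v) i =
      2 * rA N ω j (par (q (j + 1) v)) i + nd (flips N ω j (par (q (j + 1) v)) i) (q (j + 1) v i) :=
    rfl
  rw [h1, par_q]
  have := nd_range (flips N ω j (q j v) i) (q (j + 1) v i)
  omega

theorem ddF_false (j : ℕ) (k : Fin d → ℤ) : ddF j k (fun _ => false) = 0 := by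
  ext i
  unfold ddF nd
  simp

theorem meas_ddF (j : ℕ) : Measurable (fun p : (Fin d → ℤ) × (Fin d → Bool) => ddF j p.1 p.2) :=
  measurable_of_countable _

theorem meas_flips (N : ℕ) (j : ℕ) (k : Fin d → ℤ) :
    Measurable (fun ω : Om d => flips N ω j k) := by
  unfold flips
  split_ifs
  · exact measurable_pi_apply _
  · exact measurable_const

theorem meas_dd (N : ℕ) (j : ℕ) :
    Measurable (fun z : Om d × Vec d => dd (rT N z.1) j z.2) := by
  simp only [dd_rT]
  have h1 : Measurable (fun p : Om d × (Fin d → ℤ) => flips N p.1 j p.2) :=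
    measurable_from_prod_countable_left fun k => meas_flips N j k
  have h2 : Measurable (fun z : Om d × Vec d => (z.1, q j z.2)) :=
    measurable_fst.prodMk ((measurable_q j).comp measurable_snd)
  have h3 : Measurable (fun z : Om d × Vec d => flips N z.1 j (q j z.2)) := by
    have h0 := h1.comp h2
    exact h0
  have h4 : Measurable (fun z : Om d × Vec d => (q (j + 1) z.2, flips N z.1 j (q j z.2))) :=
    ((measurable_q (j + 1)).comp measurable_snd).prodMk h3
  have h5 := (meas_ddF (d := d) j).comp h4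
  exact h5

/-- The random map. -/
noncomputable def sg (N : ℕ) (ω : Om d) (v : Vec d) : Vec d := lift (rT N ω) v

theorem meas_sg (N : ℕ) : Measurable (fun z : Om d × Vec d => sg N z.1 z.2) := by
  unfold sg lift
  apply Measurable.add measurable_snd
  apply Pool.Agent.W2helper36.LN.tsum_gen
  · exact fun j => meas_dd N j
  · exact fun z => summable_dd _ _

theorem sg_near (N : ℕ) (ω : Om d) (v : Vec d) : ‖sg N ω v - v‖ ≤ d * (2 * (1 / 2) ^ N) := by
  have h := lift_near (rT N ω) N v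
  have h0 : disp (rT N ω) N v = 0 := by
    rw [disp_sum]
    apply Finset.sum_eq_zero
    intro l hl
    rw [Finset.mem_range] at hl
    rw [dd_rT]
    unfold flips
    rw [if_neg (by omega)]
    exact ddF_false _ _
  rw [h0, add_zero] at h
  exact h

/-- The digits read from the generation `j` on, as an integer. -/
noncomputable def cc (j : ℕ) (v : Vec d) (ω : Om d) : ℕ → Fin d → ℤ
  | 0 => fun _ => 0
  | m + 1 => fun i => 2 * cc j v ω m i +
      (nd (ω (j + m, q (j + m) v) i) (q (j + m + 1) v i) - q (j + m + 1) v i % 2)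

theorem cc_sum {N j : ℕ} (hN : N ≤ j) (v : Vec d) (ω : Om d) (m : ℕ) (i : Fin d) :
    (∑ l ∈ Finset.range m, dd (rT N ω) (l + j) v) i = 2 * (1 / 2 : ℝ) ^ (j + m) * (cc j v ω m i : ℝ) := by
  induction m with
  | zero => simp [cc]
  | succ m ih =>
    rw [Finset.sum_range_succ, PiLp.add_apply, ih, dd_rT]
    unfold flips
    rw [if_pos (by omega)]
    unfold ddF
    simp only [cc]
    have e1 : m + j = j + m := by ring
    have e2 : m + j + 1 = j + m + 1 := by ring
    rw [e1]
    push_cast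
    have e3 : (1 / 2 : ℝ) ^ (j + (m + 1)) = (1 / 2) ^ (j + m) * (1 / 2) := by
      rw [← add_assoc, pow_succ]
    rw [e3]
    ring

theorem cc_inj {j : ℕ} {v : Vec d} {ω ω' : Om d} (m : ℕ) (h : cc j v ω m = cc j v ω' m) :
    ∀ l < m, ω (j + l, q (j + l) v) = ω' (j + l, q (j + l) v) := by
  induction m with
  | zero => intro l hl; omega
  | succ m ih =>
    have h1 : ∀ i, ω (j + m, q (j + m) v) i = ω' (j + m, q (j + m) v) i ∧
        cc j v ω m i = cc j v ω' m i := by
      intro i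
      have h2 := congrFun h i
      simp only [cc, nd] at h2
      generalize ω (j + m, q (j + m) v) i = e at h2 ⊢
      generalize ω' (j + m, q (j + m) v) i = e' at h2 ⊢
      cases e <;> cases e' <;> simp at h2 ⊢ <;> omega
    intro l hl
    rcases Nat.lt_succ_iff_lt_or_eq.1 hl with h3 | h3
    · exact ih (funext fun i => (h1 i).2) l h3
    · rw [h3]
      exact funext fun i => (h1 i).1

theorem P_cc (j : ℕ) (v : Vec d) (m : ℕ) (n : Fin d → ℤ) :
    PP d {ω | cc j v ω m = n} ≤ ENNReal.ofReal (((2 : ℝ) ^ d)⁻¹ ^ m) := by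
  classical
  by_cases hne : ∃ ω₀, cc j v ω₀ m = n
  swap
  · have : {ω : Om d | cc j v ω m = n} = ∅ := by
      ext ω
      simp only [mem_setOf_eq, mem_empty_iff_false, iff_false]
      exact fun h => hne ⟨ω, h⟩
    rw [this, measure_empty]
    exact zero_le
  obtain ⟨ω₀, hω₀⟩ := hne
  set S : Finset (Ix d) := (Finset.range m).image fun l => (j + l, q (j + l) v) with hS
  have hsub : {ω : Om d | cc j v ω m = n} ⊆ Set.pi (S : Set (Ix d)) fun s => {ω₀ s} := by
    intro ω hω s hs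
    rw [hS, Finset.mem_coe, Finset.mem_image] at hs
    obtain ⟨l, hl, rfl⟩ := hs
    rw [Finset.mem_range] at hl
    have h1 : cc j v ω m = cc j v ω₀ m := by
      rw [hω₀]; exact hω
    exact cc_inj m h1 l hl
  refine (measure_mono hsub).trans ?_
  unfold PP
  rw [Measure.infinitePi_pi _ (fun i _ => measurableSet_singleton _)]
  have h1 : ∀ s ∈ S, uniformOn (Set.univ : Set (Fin d → Bool)) {ω₀ s} =
      ENNReal.ofReal (((2 : ℝ) ^ d)⁻¹) := by
    intro s _
    rw [uniformOn_univ, Measure.count_singleton]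
    rw [ENNReal.ofReal_inv_of_pos (by positivity), ENNReal.ofReal_pow (by norm_num)]
    simp
  rw [Finset.prod_congr rfl h1, Finset.prod_const]
  have h2 : S.card = m := by
    rw [hS, Finset.card_image_of_injOn]
    · simp
    · intro a _ b _ hab
      simp only [Prod.mk.injEq] at hab
      omega
  rw [h2, ENNReal.ofReal_pow (by positivity)]

theorem card_box (y h : ℝ) (hh : 0 ≤ h) :
    ((Finset.Icc ⌈y - h⌉ ⌊y + h⌋).card : ℝ) ≤ 2 * h + 1 := by
  rw [Int.card_Icc]
  have h1 : (⌊y + h⌋ : ℝ) ≤ y + h := Int.floor_le _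
  have h2 : y - h ≤ (⌈y - h⌉ : ℝ) := Int.le_ceil _
  by_cases h3 : 0 ≤ ⌊y + h⌋ + 1 - ⌈y - h⌉
  · have h4 : (((⌊y + h⌋ + 1 - ⌈y - h⌉).toNat : ℤ) : ℝ) = ((⌊y + h⌋ + 1 - ⌈y - h⌉ : ℤ) : ℝ) := by
      rw [Int.toNat_of_nonneg h3]
    have h5 : (((⌊y + h⌋ + 1 - ⌈y - h⌉).toNat : ℕ) : ℝ) = ((⌊y + h⌋ + 1 - ⌈y - h⌉ : ℤ) : ℝ) := by
      rw [← h4]
      norm_cast
    rw [h5]
    push_cast
    linarith
  · rw [Int.toNat_of_nonpos (by omega)]
    push_cast
    linarith

theorem conc_step {N j : ℕ} (hN : N ≤ j) (v : Vec d) {τ R : ℝ} (hτ : τ ≠ 0) (hR : 0 ≤ R) (x : Vec d)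
    (m : ℕ) :
    PP d {ω | ‖τ • (∑' l, dd (rT N ω) (l + j) v) - x‖ ≤ R} ≤
      ENNReal.ofReal ((R / |τ| * 2 ^ j + 3 * (1 / 2) ^ m) ^ d) := by
  classical
  have hτ0 : 0 < |τ| := abs_pos.2 hτ
  set h : ℝ := R / |τ| * 2 ^ (j + m) / 2 + 1 with hh
  have hh0 : 0 ≤ h := by positivity
  set y : Fin d → ℝ := fun i => x i / τ * 2 ^ (j + m) / 2 with hy
  set box : Finset (Fin d → ℤ) := Fintype.piFinset fun i => Finset.Icc ⌈y i - h⌉ ⌊y i + h⌋ with hbox
  have hsub : {ω : Om d | ‖τ • (∑' l, dd (rT N ω) (l + j) v) - x‖ ≤ R} ⊆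
      ⋃ n ∈ box, {ω | cc j v ω m = n} := by
    intro ω hω
    rw [mem_setOf_eq] at hω
    simp only [mem_iUnion, mem_setOf_eq]
    refine ⟨cc j v ω m, ?_, rfl⟩
    rw [hbox, Fintype.mem_piFinset]
    intro i
    set V : Vec d := ∑' l, dd (rT N ω) (l + j) v with hV
    have h1 : |τ * V i - x i| ≤ R := by
      have := PiLp.norm_apply_le (τ • V - x) i
      rw [Real.norm_eq_abs] at this
      exact this.trans hω
    have h2 : |V i - x i / τ| ≤ R / |τ| := by
      rw [le_div_iff₀ hτ0, ← abs_mul]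
      have e : (V i - x i / τ) * τ = τ * V i - x i := by field_simp
      rw [e]
      exact h1
    have hs : Summable fun l => dd (rT N ω) (l + j) v :=
      (summable_nat_add_iff j).2 (summable_dd (rT N ω) v)
    have h3 : V = ∑ l ∈ Finset.range m, dd (rT N ω) (l + j) v +
        ∑' l, dd (rT N ω) (l + (j + m)) v := by
      rw [hV, ← hs.sum_add_tsum_nat_add m]
      congr 1
      apply tsum_congr
      intro l
      congr 1
      ring
    have h4 : V i = 2 * (1 / 2 : ℝ) ^ (j + m) * (cc j v ω m i : ℝ) +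
        (∑' l, dd (rT N ω) (l + (j + m)) v) i := by
      have := congrArg (fun w : Vec d => w i) h3
      simp only [PiLp.add_apply] at this
      rw [this, cc_sum hN]
    have h5 := tail_coord (rT N ω) (j + m) v i
    have h6 : |2 * (1 / 2 : ℝ) ^ (j + m) * (cc j v ω m i : ℝ) - x i / τ| ≤
        R / |τ| + 2 * (1 / 2) ^ (j + m) := by
      rw [abs_le] at h2 h5 ⊢
      constructor <;> linarith [h2.1, h2.2, h5.1, h5.2]
    have hp2 : (2 : ℝ) ^ (j + m) * (1 / 2) ^ (j + m) = 1 := by rw [← mul_pow]; norm_num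
    have h7 : |(cc j v ω m i : ℝ) - y i| ≤ h := by
      have e : (cc j v ω m i : ℝ) - y i =
          (2 : ℝ) ^ (j + m) / 2 * (2 * (1 / 2 : ℝ) ^ (j + m) * (cc j v ω m i : ℝ) - x i / τ) := by
        rw [hy]
        calc (cc j v ω m i : ℝ) - x i / τ * 2 ^ (j + m) / 2
            = ((2 : ℝ) ^ (j + m) * (1 / 2) ^ (j + m)) * (cc j v ω m i : ℝ) -
                x i / τ * 2 ^ (j + m) / 2 := by rw [hp2, one_mul]
          _ = _ := by ring
      rw [e, abs_mul, abs_of_pos (by positivity : (0 : ℝ) < 2 ^ (j + m) / 2)]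
      calc (2 : ℝ) ^ (j + m) / 2 * |2 * (1 / 2 : ℝ) ^ (j + m) * (cc j v ω m i : ℝ) - x i / τ|
          ≤ (2 : ℝ) ^ (j + m) / 2 * (R / |τ| + 2 * (1 / 2) ^ (j + m)) := by gcongr
        _ = R / |τ| * 2 ^ (j + m) / 2 + (2 : ℝ) ^ (j + m) * (1 / 2) ^ (j + m) := by ring
        _ = h := by rw [hp2]
    rw [abs_le] at h7
    rw [Finset.mem_Icc]
    constructor
    · rw [Int.ceil_le]; linarith [h7.1]
    · rw [Int.le_floor]; linarith [h7.2]
  have hcard : (box.card : ℝ) ≤ (2 * h + 1) ^ d := by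
    rw [hbox, Fintype.card_piFinset]
    push_cast
    calc ∏ i : Fin d, ((Finset.Icc ⌈y i - h⌉ ⌊y i + h⌋).card : ℝ) ≤ ∏ _i : Fin d, (2 * h + 1) := by
          apply Finset.prod_le_prod
          · intro i _; positivity
          · intro i _; exact card_box _ _ hh0
      _ = _ := by simp
  calc PP d {ω | ‖τ • (∑' l, dd (rT N ω) (l + j) v) - x‖ ≤ R}
      ≤ PP d (⋃ n ∈ box, {ω | cc j v ω m = n}) := measure_mono hsub
    _ ≤ ∑ n ∈ box, PP d {ω | cc j v ω m = n} := measure_biUnion_finset_le _ _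
    _ ≤ ∑ _n ∈ box, ENNReal.ofReal (((2 : ℝ) ^ d)⁻¹ ^ m) := Finset.sum_le_sum fun n _ => P_cc j v m n
    _ = ENNReal.ofReal ((box.card : ℝ) * ((2 : ℝ) ^ d)⁻¹ ^ m) := by
        rw [Finset.sum_const, nsmul_eq_mul, ENNReal.ofReal_mul (by positivity), ENNReal.ofReal_natCast]
    _ ≤ _ := by
        apply ENNReal.ofReal_le_ofReal
        have e : (2 * h + 1) ^ d * ((2 : ℝ) ^ d)⁻¹ ^ m = (R / |τ| * 2 ^ j + 3 * (1 / 2) ^ m) ^ d := by
          have e1 : ((2 : ℝ) ^ d)⁻¹ ^ m = ((1 / 2 : ℝ) ^ m) ^ d := by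
            rw [inv_pow, ← pow_mul, ← pow_mul, one_div, inv_pow, mul_comm]
          rw [e1, ← mul_pow]
          congr 1
          have hp2 : (2 : ℝ) ^ m * (1 / 2) ^ m = 1 := by rw [← mul_pow]; norm_num
          rw [hh, pow_add]
          calc (2 * (R / |τ| * (2 ^ j * 2 ^ m) / 2 + 1) + 1) * (1 / 2 : ℝ) ^ m
              = R / |τ| * 2 ^ j * ((2 : ℝ) ^ m * (1 / 2) ^ m) + 3 * (1 / 2) ^ m := by ring
            _ = _ := by rw [hp2, mul_one]
        rw [← e]
        gcongr

/-- **Concentration of the random isometry.** -/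
theorem conc_V {N j : ℕ} (hN : N ≤ j) (v : Vec d) {τ R : ℝ} (hτ : τ ≠ 0) (hR : 0 ≤ R) (x : Vec d) :
    PP d {ω | ‖τ • (∑' l, dd (rT N ω) (l + j) v) - x‖ ≤ R} ≤
      ENNReal.ofReal ((R / |τ| * 2 ^ j) ^ d) := by
  have h1 : Tendsto (fun m : ℕ => ENNReal.ofReal ((R / |τ| * 2 ^ j + 3 * (1 / 2) ^ m) ^ d)) atTop
      (𝓝 (ENNReal.ofReal ((R / |τ| * 2 ^ j) ^ d))) := by
    apply ENNReal.tendsto_ofReal
    have h2 : Tendsto (fun m : ℕ => (1 / 2 : ℝ) ^ m) atTop (𝓝 0) :=
      tendsto_pow_atTop_nhds_zero_of_lt_one (by norm_num) (by norm_num)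
    have h3 := ((h2.const_mul 3).const_add (R / |τ| * 2 ^ j)).pow d
    rw [mul_zero, add_zero] at h3
    exact h3
  exact ge_of_tendsto' h1 fun m => conc_step hN v hτ hR x m

end Pool.Agent.W2helper36.RA
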