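import Pool.Agent.W2helper36.LN.Final

set_option autoImplicit false

/-!
Random families of lines whose base points are rearranged: the moments of the multiplicity.
-/

open MeasureTheory Set ENNReal Metric

namespace Pool.Agent.W2helper36.RA

open Pool.Agent.H803R2.KakFTO (Vec)
open Pool.Agent.W2helper36.LN (Z mom kk kk_le kk_le_one measurable_kk vb vb_ne_top vb_ne_zero vol_cb
  shells)

variable {Ω : Type*} [MeasurableSpace Ω] {d : ℕ}

/-- Conditional concentration at the radius `R`, for points of `D`. -/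
def LR (P : Measure Ω) (D : Set (Vec d)) (R κ : ℝ) (b : Ω → Vec d → Vec d) : Prop :=
  ∀ (m : ℕ) (w : Fin m → Vec d) (v : Vec d) (ρ : ℝ), 0 < ρ → ρ ≤ 1 → v ∈ D → (∀ i, w i ∈ D) →
    (∀ i, ρ ≤ ‖w i - v‖) → ∀ A : Set (Fin m → Vec d), MeasurableSet A → ∀ (x : Vec d),
      P {ω | (fun i => b ω (w i)) ∈ A ∧ ‖b ω v - x‖ ≤ R} ≤
        ENNReal.ofReal ((R / (κ * ρ)) ^ (d : ℝ)) * P {ω | (fun i => b ω (w i)) ∈ A}

/-- The occupation indicator. -/
noncomputable def ab (D : Set (Vec d)) (Φ : Ω → ℝ → Vec d → Vec d) (R τ : ℝ) (y v : Vec d) (ω : Ω) :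
    ℝ≥0∞ :=
  open scoped Classical in
  if v ∈ D ∧ ‖Φ ω τ v - y‖ ≤ R then 1 else 0

theorem ab_le_one (D : Set (Vec d)) (Φ : Ω → ℝ → Vec d → Vec d) (R τ : ℝ) (y v : Vec d) (ω : Ω) :
    ab D Φ R τ y v ω ≤ 1 := by
  unfold ab
  split_ifs <;> simp

theorem measurable_ab3 {D : Set (Vec d)} (hD : MeasurableSet D) {Φ : Ω → ℝ → Vec d → Vec d}
    (hΦ : Measurable (fun z : Ω × ℝ × Vec d => Φ z.1 z.2.1 z.2.2)) (R : ℝ) :
    Measurable (fun q : (Vec d × ℝ) × (Vec d × Ω) => ab D Φ R q.1.2 q.1.1 q.2.1 q.2.2) := by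
  classical
  unfold ab
  have h2 : Measurable (fun q : (Vec d × ℝ) × (Vec d × Ω) => ‖Φ q.2.2 q.1.2 q.2.1 - q.1.1‖) := by
    apply Measurable.norm
    apply Measurable.sub _ (measurable_fst.comp measurable_fst)
    have hg : Measurable (fun q : (Vec d × ℝ) × (Vec d × Ω) =>
        ((q.2.2, q.1.2, q.2.1) : Ω × ℝ × Vec d)) :=
      (measurable_snd.comp measurable_snd).prodMk
        ((measurable_snd.comp measurable_fst).prodMk (measurable_fst.comp measurable_snd))
    have h0 := hΦ.comp hg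
    exact h0
  apply Measurable.ite _ measurable_const measurable_const
  have h1 : MeasurableSet {q : (Vec d × ℝ) × (Vec d × Ω) | q.2.1 ∈ D} :=
    (measurable_fst.comp measurable_snd) hD
  exact h1.inter (measurableSet_le h2 measurable_const)

theorem measurable_ab {D : Set (Vec d)} (hD : MeasurableSet D) {Φ : Ω → ℝ → Vec d → Vec d}
    (hΦ : Measurable (fun z : Ω × ℝ × Vec d => Φ z.1 z.2.1 z.2.2)) (R τ : ℝ) (y : Vec d) :
    Measurable (Function.uncurry (ab D Φ R τ y)) := by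
  have h : Measurable (fun p : Vec d × Ω => (((y, τ), p) : (Vec d × ℝ) × (Vec d × Ω))) :=
    measurable_const.prodMk measurable_id
  have h2 := (measurable_ab3 hD hΦ R).comp h
  have e : Function.uncurry (ab D Φ R τ y) =
      (fun q : (Vec d × ℝ) × (Vec d × Ω) => ab D Φ R q.1.2 q.1.1 q.2.1 q.2.2) ∘
        (fun p : Vec d × Ω => (((y, τ), p) : (Vec d × ℝ) × (Vec d × Ω))) := by
    funext p
    obtain ⟨v, ω⟩ := p
    rfl
  rw [e]
  exact h2

theorem prod_ab (D : Set (Vec d)) (Φ : Ω → ℝ → Vec d → Vec d) (R τ : ℝ) (y : Vec d) {k : ℕ}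
    (u : Fin k → Vec d) (ω : Ω) :
    ∏ i, ab D Φ R τ y (u i) ω = {ω | ∀ i, u i ∈ D ∧ ‖Φ ω τ (u i) - y‖ ≤ R}.indicator
      (fun _ => 1) ω := by
  classical
  unfold ab
  rw [Finset.prod_ite_zero]
  simp only [Finset.mem_univ, forall_true_left, Finset.prod_const_one, indicator, mem_setOf_eq]

theorem meas_Φ {Φ : Ω → ℝ → Vec d → Vec d}
    (hΦ : Measurable (fun z : Ω × ℝ × Vec d => Φ z.1 z.2.1 z.2.2)) (τ : ℝ) (v : Vec d) :
    Measurable (fun ω => Φ ω τ v) := by
  have hg : Measurable (fun ω : Ω => ((ω, τ, v) : Ω × ℝ × Vec d)) :=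
    measurable_id.prodMk measurable_const
  have h0 := hΦ.comp hg
  exact h0

theorem seq_pt {P : Measure Ω} {D : Set (Vec d)} {Φ : Ω → ℝ → Vec d → Vec d}
    (hΦ : Measurable (fun z : Ω × ℝ × Vec d => Φ z.1 z.2.1 z.2.2)) {κ R τ : ℝ}
    (hL : LR P D R κ (fun ω => Φ ω τ)) (y : Vec d) (k : ℕ) (u : Fin (k + 1) → Vec d)
    (v : Vec d) :
    ∫⁻ ω, ab D Φ R τ y v ω * ∏ i, ab D Φ R τ y (u i) ω ∂P ≤
      D.indicator (fun v => ∑ i, kk R κ d ‖v - u i‖) v *
        ∫⁻ ω, ∏ i, ab D Φ R τ y (u i) ω ∂P := by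
  classical
  by_cases hv : v ∈ D
  swap
  · have : ∀ ω, ab D Φ R τ y v ω = 0 := by
      intro ω
      unfold ab
      rw [if_neg (fun h => hv h.1)]
    simp [this]
  rw [indicator_of_mem hv]
  by_cases hu : ∀ i, u i ∈ D
  swap
  · have : ∀ ω, ∏ i, ab D Φ R τ y (u i) ω = 0 := by
      intro ω
      rw [prod_ab, indicator_of_notMem]
      intro h
      exact hu fun i => (h i).1
    simp [this]
  have hE : MeasurableSet {ω | ∀ i, u i ∈ D ∧ ‖Φ ω τ (u i) - y‖ ≤ R} := by
    simp only [setOf_forall]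
    apply MeasurableSet.iInter
    intro i
    have h1 : MeasurableSet {ω : Ω | ‖Φ ω τ (u i) - y‖ ≤ R} :=
      measurableSet_le ((meas_Φ hΦ τ (u i)).sub_const _).norm measurable_const
    exact (MeasurableSet.const _).inter h1
  have hI : ∫⁻ ω, ∏ i, ab D Φ R τ y (u i) ω ∂P =
      P {ω | ∀ i, u i ∈ D ∧ ‖Φ ω τ (u i) - y‖ ≤ R} := by
    simp only [prod_ab]
    exact lintegral_indicator_one hE
  obtain ⟨i0, _, hi0⟩ := Finset.exists_min_image Finset.univ (fun i => ‖v - u i‖)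
    ⟨0, Finset.mem_univ _⟩
  have hsum : kk R κ d ‖v - u i0‖ ≤ ∑ i, kk R κ d ‖v - u i‖ :=
    Finset.single_le_sum (f := fun i => kk R κ d ‖v - u i‖) (fun _ _ => zero_le) (Finset.mem_univ i0)
  refine le_trans ?_ (mul_le_mul_left hsum _)
  have htriv : ∫⁻ ω, ab D Φ R τ y v ω * ∏ i, ab D Φ R τ y (u i) ω ∂P ≤
      1 * ∫⁻ ω, ∏ i, ab D Φ R τ y (u i) ω ∂P := by
    rw [one_mul]
    apply lintegral_mono
    intro ω
    calc _ ≤ 1 * ∏ i, ab D Φ R τ y (u i) ω := mul_le_mul_left (ab_le_one _ _ _ _ _ _ _) _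
      _ = _ := one_mul _
  unfold kk
  split_ifs with h0
  · exact htriv
  · have hpos : 0 < ‖v - u i0‖ := lt_of_le_of_ne (norm_nonneg _) (Ne.symm h0)
    rw [min_def]
    split_ifs with h1
    · exact htriv
    · set A : Set (Fin (k + 1) → Vec d) := {z | ∀ i, ‖z i - y‖ ≤ R} with hA
      have hAm : MeasurableSet A := by
        rw [hA]
        simp only [setOf_forall]
        apply MeasurableSet.iInter
        intro i
        apply measurableSet_le _ measurable_const
        exact ((measurable_pi_apply i).sub_const _).norm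
      have hl := hL (k + 1) u v (min 1 ‖v - u i0‖) (lt_min one_pos hpos) (min_le_left _ _) hv hu
        (fun i => by
          rw [norm_sub_rev (u i) v]
          exact (min_le_right _ _).trans (hi0 i (Finset.mem_univ i))) A hAm y
      have e1 : {ω | (fun i => Φ ω τ (u i)) ∈ A} =
          {ω | ∀ i, u i ∈ D ∧ ‖Φ ω τ (u i) - y‖ ≤ R} := by
        ext ω
        simp only [hA, mem_setOf_eq]
        exact ⟨fun h i => ⟨hu i, h i⟩, fun h i => (h i).2⟩
      rw [hI]
      rw [e1] at hl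
      refine le_trans (le_of_eq ?_) hl
      have hvm : MeasurableSet {ω | ‖Φ ω τ v - y‖ ≤ R} :=
        measurableSet_le ((meas_Φ hΦ τ v).sub_const _).norm measurable_const
      have e2 : {ω | (fun i => Φ ω τ (u i)) ∈ A ∧ ‖Φ ω τ v - y‖ ≤ R} =
          {ω | ‖Φ ω τ v - y‖ ≤ R} ∩
            {ω | ∀ i, u i ∈ D ∧ ‖Φ ω τ (u i) - y‖ ≤ R} := by
        rw [← e1]
        ext ω
        simp only [mem_setOf_eq, mem_inter_iff]
        exact and_comm
      rw [e2, ← lintegral_indicator_one (hvm.inter hE)]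
      apply lintegral_congr
      intro ω
      rw [prod_ab, inter_indicator_one]
      simp only [Pi.mul_apply]
      congr 1
      unfold ab
      by_cases h : ‖Φ ω τ v - y‖ ≤ R
      · rw [if_pos ⟨hv, h⟩, indicator_of_mem (by exact h)]
        rfl
      · rw [if_neg (fun h' => h h'.2), indicator_of_notMem (by exact h)]

/-- The bound in the sequential estimate. -/
noncomputable def SD (D : Set (Vec d)) (κ : ℝ) (k : ℕ) : ℝ≥0∞ :=
  ((k : ℝ≥0∞) + 2) * (ENNReal.ofReal ((6 * (1 / 2) ^ k / κ) ^ d) * (vb d + volume D))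

theorem int_kk {D : Set (Vec d)} (hD : MeasurableSet D) (u : Vec d) {κ : ℝ} (hκ : 0 < κ)
    (hκ1 : κ ≤ 1) (k : ℕ) :
    ∫⁻ v in D, kk (3 * (1 / 2) ^ k) κ d ‖v - u‖ ≤ SD D κ k := by
  set R : ℝ := 3 * (1 / 2) ^ k with hRdef
  have hp : (0 : ℝ) < (1 / 2) ^ k := by positivity
  have hp1 : (1 / 2 : ℝ) ^ k ≤ 1 := pow_le_one₀ (by norm_num) (by norm_num)
  have hR : 0 ≤ R := by positivity
  have hα : (0 : ℝ) ≤ d := by positivity
  have h6 : (2 * R / κ) ^ (d : ℝ) = (6 * (1 / 2) ^ k / κ) ^ d := by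
    rw [Real.rpow_natCast, hRdef]; ring
  have hs : D ⊆ (D \ closedBall u 1) ∪ closedBall u 1 := by
    intro v hv
    by_cases h : v ∈ closedBall u 1
    · exact Or.inr h
    · exact Or.inl ⟨hv, h⟩
  have h1 : ∫⁻ v in D \ closedBall u 1, kk R κ d ‖v - u‖ ≤
      ENNReal.ofReal ((6 * (1 / 2) ^ k / κ) ^ d) * volume D := by
    calc ∫⁻ v in D \ closedBall u 1, kk R κ d ‖v - u‖
        ≤ ∫⁻ v in D \ closedBall u 1, ENNReal.ofReal ((R / (κ * 1)) ^ (d : ℝ)) := by
          apply setLIntegral_mono' (hD.diff measurableSet_closedBall)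
          intro v hv
          apply kk_le hR hκ hα one_pos _ le_rfl
          have := hv.2
          rw [mem_closedBall, dist_eq_norm, not_le] at this
          exact this.le
      _ = ENNReal.ofReal ((R / (κ * 1)) ^ (d : ℝ)) * volume (D \ closedBall u 1) := by
          rw [setLIntegral_const]
      _ ≤ _ := by
          have hr : (R / (κ * 1)) ^ (d : ℝ) ≤ (6 * (1 / 2) ^ k / κ) ^ d := by
            rw [mul_one, hRdef, Real.rpow_natCast]
            apply pow_le_pow_left₀ (by positivity)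
            gcongr
            norm_num
          exact mul_le_mul' (ENNReal.ofReal_le_ofReal hr) (measure_mono diff_subset)
  have h2 : ∫⁻ v in closedBall u ((1 / 2) ^ k), kk R κ d ‖v - u‖ ≤
      ENNReal.ofReal ((6 * (1 / 2) ^ k / κ) ^ d) * vb d := by
    calc ∫⁻ v in closedBall u ((1 / 2) ^ k), kk R κ d ‖v - u‖
        ≤ ∫⁻ v in closedBall u ((1 / 2) ^ k), 1 := lintegral_mono fun v => kk_le_one _ _ _ _
      _ = ENNReal.ofReal (((1 / 2 : ℝ) ^ k) ^ d) * vb d := by
          rw [setLIntegral_one, vol_cb u hp.le]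
      _ ≤ _ := by
          gcongr
          rw [le_div_iff₀ hκ]
          nlinarith
  refine (lintegral_mono_set hs).trans ((lintegral_union_le _ _ _).trans ?_)
  have h3 := shells u hκ hα le_rfl hR k (d := d)
  rw [h6] at h3
  calc _ ≤ ENNReal.ofReal ((6 * (1 / 2) ^ k / κ) ^ d) * volume D +
        ((k : ℝ≥0∞) * (ENNReal.ofReal ((6 * (1 / 2) ^ k / κ) ^ d) * vb d) +
          ENNReal.ofReal ((6 * (1 / 2) ^ k / κ) ^ d) * vb d) := by
        gcongr
        exact h3.trans (add_le_add_right h2 _)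
    _ ≤ _ := by
        unfold SD
        set a := ENNReal.ofReal ((6 * (1 / 2) ^ k / κ) ^ d)
        have e : ((k : ℝ≥0∞) + 2) * (a * (vb d + volume D)) =
          (a * volume D + ((k : ℝ≥0∞) * (a * vb d) + a * vb d)) +
            (a * vb d + ((k : ℝ≥0∞) + 1) * (a * volume D)) := by ring
        rw [e]
        exact le_self_add

/-- The measure of the set of the lines that pass within `R` of the point `y` of height `τ`. -/
noncomputable def U (D : Set (Vec d)) (Φ : Ω → ℝ → Vec d → Vec d) (R τ : ℝ) (y : Vec d) (ω : Ω) :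
    ℝ≥0∞ :=
  Z volume (ab D Φ R τ y) ω

/-- **Moments of the multiplicity function.** -/
theorem moments {P : Measure Ω} [SFinite P] {D : Set (Vec d)} (hD : MeasurableSet D)
    {Φ : Ω → ℝ → Vec d → Vec d}
    (hΦ : Measurable (fun z : Ω × ℝ × Vec d => Φ z.1 z.2.1 z.2.2)) {κ : ℝ} (hκ : 0 < κ)
    (hκ1 : κ ≤ 1) (k : ℕ) (τ : ℝ) (hL : LR P D (3 * (1 / 2) ^ k) κ (fun ω => Φ ω τ))
    (y : Vec d) (m : ℕ) :
    ∫⁻ ω, U D Φ (3 * (1 / 2) ^ k) τ y ω ^ (m + 1) ∂P ≤
      SD D κ k ^ m * (m.factorial : ℝ≥0∞) * ∫⁻ ω, U D Φ (3 * (1 / 2) ^ k) τ y ω ∂P := by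
  have hkm : ∀ u : Vec d, Measurable (fun v : Vec d => kk (3 * (1 / 2) ^ k) κ d ‖v - u‖) := by
    intro u
    exact (measurable_kk _ _ _).comp (measurable_id.sub_const _).norm
  apply mom P volume (measurable_ab hD hΦ _ τ y)
  intro l u
  calc _ ≤ ∫⁻ v, D.indicator (fun v => ∑ i, kk (3 * (1 / 2) ^ k) κ d ‖v - u i‖) v *
          ∫⁻ ω, ∏ i, ab D Φ (3 * (1 / 2) ^ k) τ y (u i) ω ∂P := by
        apply lintegral_mono
        intro v
        exact seq_pt hΦ hL y l u v
    _ = (∫⁻ v in D, ∑ i, kk (3 * (1 / 2) ^ k) κ d ‖v - u i‖) *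
          ∫⁻ ω, ∏ i, ab D Φ (3 * (1 / 2) ^ k) τ y (u i) ω ∂P := by
        rw [lintegral_mul_const, lintegral_indicator hD]
        apply Measurable.indicator _ hD
        apply Finset.measurable_fun_sum
        intro i _
        exact hkm _
    _ ≤ _ := by
        gcongr
        rw [lintegral_finsetSum]
        · calc _ ≤ ∑ i : Fin (l + 1), SD D κ k := by
                apply Finset.sum_le_sum
                intro i _
                exact int_kk hD (u i) hκ hκ1 k
            _ = _ := by simp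
        · intro i _
          exact hkm _

end Pool.Agent.W2helper36.RA
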