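import Pool.Agent.W2helper36.RA.Flip

set_option autoImplicit false

/-!
The rearranged family satisfies the concentration estimate.
-/

open MeasureTheory Set ENNReal Metric Filter Topology ProbabilityTheory

namespace Pool.Agent.W2helper36.RA

open Pool.Agent.H803R2.KakFTO (Vec)

variable {d : ℕ}

/-- The σ-algebra of the coins in `S`. -/
def FS (S : Set (Ix d)) : MeasurableSpace (Om d) :=
  ⨆ t ∈ S, MeasurableSpace.comap (fun ω : Om d => ω t) inferInstance

theorem FS_le (S : Set (Ix d)) : FS S ≤ (inferInstance : MeasurableSpace (Om d)) := by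
  unfold FS
  exact iSup₂_le fun t _ => (measurable_pi_apply t).comap_le

theorem meas_FS {S : Set (Ix d)} {t : Ix d} (ht : t ∈ S) :
    Measurable[FS S] (fun ω : Om d => ω t) := by
  have h1 : MeasurableSpace.comap (fun ω : Om d => ω t) inferInstance ≤ FS S := by
    unfold FS
    exact le_iSup₂_of_le t ht le_rfl
  exact (comap_measurable (fun ω : Om d => ω t)).mono h1 le_rfl

theorem indep_FS (S : Set (Ix d)) : Indep (FS Sᶜ) (FS S) (PP d) := by
  have h : iIndepFun (fun (s : Ix d) (ω : Om d) => ω s) (PP d) := by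
    have h0 := iIndepFun_infinitePi (P := fun _ : Ix d => uniformOn (Set.univ : Set (Fin d → Bool)))
      (X := fun (s : Ix d) (z : Fin d → Bool) => z) (fun s => measurable_id)
    exact h0
  exact indep_iSup_of_disjoint (fun t => (measurable_pi_apply t).comap_le) h.iIndep
    (disjoint_compl_left)

theorem dd_FS {S : Set (Ix d)} {N j : ℕ} {v : Vec d} (h : N ≤ j → (j, q j v) ∈ S) :
    Measurable[FS S] (fun ω : Om d => dd (rT N ω) j v) := by
  simp only [dd_rT]
  have h1 : Measurable[FS S] (fun ω : Om d => flips N ω j (q j v)) := by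
    unfold flips
    split_ifs with hN
    · exact meas_FS (h hN)
    · exact measurable_const
  have h2 : Measurable (fun e : Fin d → Bool => ddF j (q (j + 1) v) e) := measurable_of_countable _
  exact h2.comp h1

theorem tsum_FS {S : Set (Ix d)} {f : ℕ → Om d → Vec d} (hf : ∀ t, Measurable[FS S] (f t))
    (hs : ∀ ω, Summable fun t => f t ω) : Measurable[FS S] (fun ω => ∑' t, f t ω) :=
  Pool.Agent.W2helper36.LN.tsum_gen (FS S) hf hs

/-- The field. -/
noncomputable def Ph (N : ℕ) (b : Vec d → Vec d) (ω : Om d) (τ : ℝ) (v : Vec d) : Vec d :=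
  b v + τ • sg N ω v

theorem meas_Ph (N : ℕ) {b : Vec d → Vec d} (hb : Measurable b) :
    Measurable (fun z : Om d × ℝ × Vec d => Ph N b z.1 z.2.1 z.2.2) := by
  unfold Ph
  apply Measurable.add
  · exact hb.comp (measurable_snd.comp measurable_snd)
  · apply Pool.Agent.W2helper36.LN.msm2
    · exact measurable_fst.comp measurable_snd
    · have hg : Measurable (fun z : Om d × ℝ × Vec d => (z.1, z.2.2)) :=
        measurable_fst.prodMk (measurable_snd.comp measurable_snd)
      have h0 := (meas_sg (d := d) N).comp hg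
      exact h0

/-- The domain. -/
def Dm (d : ℕ) : Set (Vec d) := closedBall 0 (2 * d + 1)

theorem Ph_lip (N : ℕ) (b : Vec d → Vec d) (ω : Om d) (t t' : ℝ) (v : Vec d) (hv : v ∈ Dm d) :
    ‖Ph N b ω t v - Ph N b ω t' v‖ ≤ (4 * d + 1) * |t - t'| := by
  unfold Ph
  have e : b v + t • sg N ω v - (b v + t' • sg N ω v) = (t - t') • sg N ω v := by
    rw [sub_smul]; abel
  rw [e, norm_smul, Real.norm_eq_abs, mul_comm]
  gcongr
  have h1 : ‖sg N ω v - v‖ ≤ 2 * d := lift_id _ _
  have h2 : ‖v‖ ≤ 2 * d + 1 := by simpa [Dm] using hv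
  have e2 : sg N ω v = (sg N ω v - v) + v := by abel
  calc ‖sg N ω v‖ = ‖(sg N ω v - v) + v‖ := by rw [← e2]
    _ ≤ ‖sg N ω v - v‖ + ‖v‖ := norm_add_le _ _
    _ ≤ _ := by linarith

theorem q_ne {j l : ℕ} (hjl : j ≤ l) {v w : Vec d} (h : (d : ℝ) * (2 * (1 / 2) ^ j) < ‖w - v‖) :
    q l w ≠ q l v := by
  intro heq
  have h1 : ∀ i, |(w - v) i| ≤ 2 * (1 / 2) ^ l := by
    intro i
    have h2 := congrFun heq i
    unfold q at h2
    set n : ℤ := ⌊(2 : ℝ) ^ l * ((v i + 1) / 2)⌋ with hn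
    have a1 : (n : ℝ) ≤ (2 : ℝ) ^ l * ((v i + 1) / 2) := Int.floor_le _
    have a2 : (2 : ℝ) ^ l * ((v i + 1) / 2) < (n : ℝ) + 1 := Int.lt_floor_add_one _
    have a3 : (n : ℝ) ≤ (2 : ℝ) ^ l * ((w i + 1) / 2) := by rw [← h2]; exact Int.floor_le _
    have a4 : (2 : ℝ) ^ l * ((w i + 1) / 2) < (n : ℝ) + 1 := by
      rw [← h2]; exact Int.lt_floor_add_one _
    have a5 : |(2 : ℝ) ^ l * ((w i - v i) / 2)| ≤ 1 := by
      rw [abs_le]
      constructor <;> linarith
    rw [abs_mul, abs_of_pos (by positivity : (0 : ℝ) < 2 ^ l), abs_div,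
      abs_of_pos (by norm_num : (0 : ℝ) < 2)] at a5
    have hp2 : (2 : ℝ) ^ l * (1 / 2) ^ l = 1 := by rw [← mul_pow]; norm_num
    calc |(w - v) i| = |w i - v i| := rfl
      _ = 2 * (1 / 2) ^ l * (2 ^ l * (|w i - v i| / 2)) := by
          calc |w i - v i| = ((2 : ℝ) ^ l * (1 / 2) ^ l) * |w i - v i| := by rw [hp2, one_mul]
            _ = _ := by ring
      _ ≤ 2 * (1 / 2) ^ l * 1 := by gcongr
      _ = _ := by ring
  have h3 := norm_le_of h1
  have h4 : (1 / 2 : ℝ) ^ l ≤ (1 / 2) ^ j := pow_le_pow_of_le_one (by norm_num) (by norm_num) hjl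
  have h5 : (d : ℝ) * (2 * (1 / 2) ^ l) ≤ d * (2 * (1 / 2) ^ j) := by gcongr
  linarith

/-- The constant `c`. -/
noncomputable def cN (d N : ℕ) : ℝ := (4 * d * 2 ^ N)⁻¹

theorem cN_pos (hd : 1 ≤ d) (N : ℕ) : 0 < cN d N := by
  unfold cN
  have : (0 : ℝ) < d := by exact_mod_cast hd
  positivity

theorem cN_le (hd : 1 ≤ d) (N : ℕ) : cN d N ≤ 1 := by
  unfold cN
  apply inv_le_one_of_one_le₀
  have h1 : (1 : ℝ) ≤ d := by exact_mod_cast hd
  have h2 : (1 : ℝ) ≤ 2 ^ N := one_le_pow₀ (by norm_num)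
  nlinarith

theorem LR_Ph (hd : 1 ≤ d) (N : ℕ) (b : Vec d → Vec d) {H : ℝ} (hH : 0 ≤ H) (k : ℕ) (τ : ℝ) :
    LR (PP d) (Dm d) (3 * (1 / 2) ^ k) (kap (cN d N) H k τ) (fun ω => Ph N b ω τ) := by
  intro m w v ρ hρ hρ1 _ _ hwv A hA x
  have hdR : (1 : ℝ) ≤ d := by exact_mod_cast hd
  have hc := cN_pos hd N
  have hc1 := cN_le hd N
  have hκ := kap_pos hc hH k τ
  have hp : (0 : ℝ) < (1 / 2) ^ k := by positivity
  rw [Real.rpow_natCast]
  by_cases hτk : |τ| < (1 / 2) ^ k
  · -- trivial bound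
    have h1 : kap (cN d N) H k τ ≤ (1 / 2) ^ k := by
      unfold kap
      rw [max_eq_right hτk.le, div_le_iff₀ (by linarith)]
      nlinarith
    have h2 : 1 ≤ (3 * (1 / 2) ^ k / (kap (cN d N) H k τ * ρ)) ^ d := by
      apply one_le_pow₀
      rw [le_div_iff₀ (by positivity), one_mul]
      nlinarith
    calc PP d {ω | (fun i => Ph N b ω τ (w i)) ∈ A ∧ ‖Ph N b ω τ v - x‖ ≤ 3 * (1 / 2) ^ k}
        ≤ PP d {ω | (fun i => Ph N b ω τ (w i)) ∈ A} := measure_mono fun ω hω => hω.1
      _ = 1 * PP d {ω | (fun i => Ph N b ω τ (w i)) ∈ A} := (one_mul _).symm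
      _ ≤ _ := by
          gcongr
          rw [← ENNReal.ofReal_one]
          exact ENNReal.ofReal_le_ofReal h2
  rw [not_lt] at hτk
  have hτ0 : 0 < |τ| := lt_of_lt_of_le hp hτk
  have hτ : τ ≠ 0 := abs_pos.1 hτ0
  have hx0 : 0 < ρ / (2 * d) := by positivity
  have hx1 : ρ / (2 * d) ≤ 1 := by
    rw [div_le_one (by positivity)]
    nlinarith
  obtain ⟨n, hn1, hn2⟩ := exists_nat_pow_near_of_lt_one hx0 hx1 (by norm_num : (0 : ℝ) < 1 / 2)
    (by norm_num)
  set j := n + 1 with hj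
  have hjlow : ρ / (4 * d) ≤ (1 / 2 : ℝ) ^ j := by
    rw [hj, pow_succ]
    have : ρ / (2 * d) = 2 * (ρ / (4 * d)) := by ring
    rw [this] at hn2
    linarith
  have hjup : (d : ℝ) * (2 * (1 / 2 : ℝ) ^ j) < ρ := by
    rw [lt_div_iff₀ (by positivity)] at hn1
    calc (d : ℝ) * (2 * (1 / 2 : ℝ) ^ j) = (1 / 2) ^ (n + 1) * (2 * d) := by rw [hj]; ring
      _ < ρ := hn1
  set j' := max j N with hj'
  have hNj : N ≤ j' := le_max_right _ _
  have hjj : j ≤ j' := le_max_left _ _
  set S : Set (Ix d) := {s | ∃ l, j' ≤ l ∧ s = (l, q l v)} with hS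
  -- measurability
  have hw : ∀ i, Measurable[FS Sᶜ] (fun ω => Ph N b ω τ (w i)) := by
    intro i
    have h1 : Measurable[FS Sᶜ] (fun ω : Om d => sg N ω (w i)) := by
      unfold sg lift
      apply Measurable.const_add
      apply tsum_FS
      · intro l
        apply dd_FS
        intro _ hmem
        rw [hS] at hmem
        obtain ⟨l', hl', h2⟩ := hmem
        simp only [Prod.mk.injEq] at h2
        obtain ⟨h3, h4⟩ := h2
        subst h3
        exact q_ne (hjj.trans hl') (hjup.trans_le (hwv i)) h4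
      · exact fun ω => summable_dd _ _
    unfold Ph
    have h2 : Measurable (fun z : Vec d => b (w i) + τ • z) := by
      have h3 : Measurable (fun z : Vec d => τ • z) := measurable_const_smul τ
      exact h3.const_add _
    exact h2.comp h1
  set V0 : Om d → Vec d := fun ω => v + ∑ l ∈ Finset.range j', dd (rT N ω) l v with hV0
  set V1 : Om d → Vec d := fun ω => ∑' l, dd (rT N ω) (l + j') v with hV1
  have hsg : ∀ ω, sg N ω v = V0 ω + V1 ω := by
    intro ω
    rw [hV0, hV1]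
    simp only
    unfold sg lift
    rw [← (summable_dd (rT N ω) v).sum_add_tsum_nat_add j']
    abel
  have hV0m : Measurable[FS Sᶜ] V0 := by
    rw [hV0]
    apply Measurable.const_add
    apply Finset.measurable_fun_sum
    intro l hl
    rw [Finset.mem_range] at hl
    apply dd_FS
    intro _ hmem
    rw [hS] at hmem
    obtain ⟨l', hl', h2⟩ := hmem
    simp only [Prod.mk.injEq] at h2
    omega
  have hV1m : Measurable[FS S] V1 := by
    rw [hV1]
    apply tsum_FS
    · intro l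
      apply dd_FS
      intro _
      rw [hS]
      exact ⟨l + j', by omega, rfl⟩
    · intro ω
      exact (summable_nat_add_iff j').2 (summable_dd (rT N ω) v)
  set Y1 : Om d → Fin m → Vec d := fun ω i => Ph N b ω τ (w i) with hY1
  set Y2 : Om d → Vec d := fun ω => x - (b v + τ • V0 ω) with hY2
  have hY1m : Measurable[FS Sᶜ] Y1 := by
    apply Pool.Agent.W2helper36.LN.pi_gen (FS Sᶜ)
    intro i
    exact hw i
  have hY2m : Measurable[FS Sᶜ] Y2 := by
    have h2 : Measurable (fun z : Vec d => x - (b v + τ • z)) := by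
      have h3 : Measurable (fun z : Vec d => τ • z) := measurable_const_smul τ
      exact (h3.const_add _).const_sub _
    exact h2.comp hV0m
  have hYm : Measurable[FS Sᶜ] (fun ω => (Y1 ω, Y2 ω)) := hY1m.prodMk hY2m
  have hYX : IndepFun (fun ω => (Y1 ω, Y2 ω)) V1 (PP d) := by
    rw [IndepFun_iff_Indep]
    exact indep_of_indep_of_le_left (indep_of_indep_of_le_right (indep_FS S) hV1m.comap_le)
      hYm.comap_le
  have key := Pool.Agent.W2helper36.LN.conc (hYm.mono (FS_le _) le_rfl) (hV1m.mono (FS_le _) le_rfl)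
    hYX (c := τ) (r := 3 * (1 / 2) ^ k)
    (fun x => conc_V hNj v hτ (by positivity) x) hA
  refine (le_trans (le_of_eq ?_) key).trans ?_
  · congr 1
    ext ω
    simp only [mem_setOf_eq]
    have e : Ph N b ω τ v - x = τ • V1 ω - Y2 ω := by
      unfold Ph
      rw [hsg, smul_add, hY2]
      simp only
      abel
    rw [e]
  · gcongr
    -- compare the constants
    have hκτ : kap (cN d N) H k τ * ρ * 2 ^ j' ≤ |τ| := by
      unfold kap
      rw [max_eq_left hτk]
      have h1 : cN d N * |τ| / (H + 1) ≤ cN d N * |τ| := by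
        apply div_le_self (by positivity)
        linarith
      have h2 : (2 : ℝ) ^ j' ≤ 2 ^ j * 2 ^ N := by
        rcases le_total j N with h | h
        · rw [hj', max_eq_right h]
          have : (1 : ℝ) ≤ 2 ^ j := one_le_pow₀ (by norm_num)
          have h0 : (0 : ℝ) < 2 ^ N := by positivity
          nlinarith
        · rw [hj', max_eq_left h]
          have : (1 : ℝ) ≤ 2 ^ N := one_le_pow₀ (by norm_num)
          have h0 : (0 : ℝ) < 2 ^ j := by positivity
          nlinarith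
      have h3 : ρ * 2 ^ j ≤ 4 * d := by
        have hp2 : (2 : ℝ) ^ j * (1 / 2) ^ j = 1 := by rw [← mul_pow]; norm_num
        have h4 : ρ ≤ (1 / 2 : ℝ) ^ j * (4 * d) := by
          rw [div_le_iff₀ (by positivity)] at hjlow
          exact hjlow
        calc ρ * 2 ^ j ≤ (1 / 2 : ℝ) ^ j * (4 * d) * 2 ^ j := by gcongr
          _ = ((2 : ℝ) ^ j * (1 / 2) ^ j) * (4 * d) := by ring
          _ = 4 * d := by rw [hp2, one_mul]
      calc cN d N * |τ| / (H + 1) * ρ * 2 ^ j' ≤ cN d N * |τ| * ρ * (2 ^ j * 2 ^ N) := by gcongr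
        _ = (ρ * 2 ^ j) * (cN d N * 2 ^ N) * |τ| := by ring
        _ ≤ (4 * d) * (cN d N * 2 ^ N) * |τ| := by gcongr
        _ = |τ| := by
            unfold cN
            have : (d : ℝ) ≠ 0 := by positivity
            field_simp
    have e1 : 3 * (1 / 2 : ℝ) ^ k / |τ| * 2 ^ j' = 3 * (1 / 2) ^ k * 2 ^ j' / |τ| := by ring
    rw [e1, div_le_div_iff₀ hτ0 (by positivity)]
    calc 3 * (1 / 2 : ℝ) ^ k * 2 ^ j' * (kap (cN d N) H k τ * ρ)
        = 3 * (1 / 2) ^ k * (kap (cN d N) H k τ * ρ * 2 ^ j') := by ring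
      _ ≤ 3 * (1 / 2) ^ k * |τ| := by gcongr

end Pool.Agent.W2helper36.RA
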