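import Pool.Agent.W2helper36.RA.Lnd

set_option autoImplicit false

/-!
Assembly.
-/

open MeasureTheory Set ENNReal Metric Filter Topology ProbabilityTheory

namespace Pool.Agent.W2helper36.RA

open Pool.Agent.H803R2.KakFTO (Vec Space lineMax)
open Pool.Agent.TH426.Kt (nb W lin Wb LMb VanOff win cb cb_ne_top nb_univ_eq)
open Pool.Agent.W2helper36.LN (vb vb_ne_top vb_ne_zero vol_cb AA AA_pos)

variable {d : ℕ}

/-- The multiplicity of the rearranged family. -/
theorem mult (hd : 1 ≤ d) {N : ℕ} {b : Vec d → Vec d} (hb : Measurable b) {H : ℝ} (hH : 0 ≤ H)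
    {u : ℝ} (hu : 1 ≤ u) {ω : Om d}
    (hω : ω ∈ good (Dm d) (Ph N b) (4 * d + 1) (cN d N) H u)
    {b' : Vec d → Vec d} (hb' : Measurable b') (hbb : ∀ᵐ v : Vec d, b' (sg N ω v) = b v)
    (r t : ℝ) (y : Vec d) (hr : 0 < r) (hr1 : r ≤ 1) (ht : |t| ≤ H) :
    volume {v | ‖v‖ ≤ 1 ∧ ‖b' v + t • v - y‖ ≤ r} ≤
      ENNReal.ofReal (CC (Dm d) (4 * d + 1) H * u * (1 + Real.log (1 / r)) ^ 2 *
        (r / (cN d N * max |t| r)) ^ d) := by
  have hdR : (0 : ℝ) ≤ d := by positivity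
  have hDm : MeasurableSet (Dm d) := measurableSet_closedBall
  have hDt : volume (Dm d) ≠ ∞ := measure_closedBall_lt_top.ne
  have key := main_overlap hDm hDt (meas_Ph N hb) (M := 4 * d + 1) (by linarith)
    (fun ω t t' v hv => Ph_lip N b ω t t' v hv) (cN_pos hd N) (cN_le hd N) hH hu hω r t y hr hr1 ht
  refine le_trans ?_ key
  have hmp := mp_lift (rT N ω)
  have hE : MeasurableSet {v : Vec d | ‖v‖ ≤ 1 ∧ ‖b' v + t • v - y‖ ≤ r} := by
    have h1 : MeasurableSet {v : Vec d | ‖v‖ ≤ 1} := measurableSet_le measurable_norm measurable_const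
    have hsm : Measurable (fun v : Vec d => t • v) := measurable_const_smul t
    exact h1.inter (measurableSet_le ((hb'.add hsm).sub_const y).norm measurable_const)
  rw [← hmp.measure_preimage hE.nullMeasurableSet]
  apply measure_mono_ae
  filter_upwards [hbb] with v hv hmem
  have h1 : ‖lift (rT N ω) v‖ ≤ 1 := hmem.1
  have h2 : ‖b' (lift (rT N ω) v) + t • lift (rT N ω) v - y‖ ≤ r := hmem.2
  have hv' : b' (lift (rT N ω) v) = b v := hv
  rw [hv'] at h2
  refine ⟨?_, h2⟩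
  have h3 := lift_id (rT N ω) v
  unfold Dm
  rw [mem_closedBall, dist_zero_right]
  have e : v = lift (rT N ω) v - (lift (rT N ω) v - v) := by abel
  calc ‖v‖ = ‖lift (rT N ω) v - (lift (rT N ω) v - v)‖ := by rw [← e]
    _ ≤ ‖lift (rT N ω) v‖ + ‖lift (rT N ω) v - v‖ := norm_sub_le _ _
    _ ≤ 2 * d + 1 := by linarith

/-- The constant. -/
noncomputable def KK (d : ℕ) (H : ℝ) : ℝ := CC (Dm d) (4 * d + 1) H * (4 * d) ^ d

theorem KK_pos (hd : 1 ≤ d) {H : ℝ} (hH : 0 ≤ H) : 0 < KK d H := by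
  have hdR : (0 : ℝ) < d := by exact_mod_cast hd
  have h := CC_pos (Dm d) (M := 4 * d + 1) (by linarith) hH
  unfold KK
  positivity

theorem cN_pow (hd : 1 ≤ d) (N : ℕ) : ((cN d N) ^ d)⁻¹ = (4 * d) ^ d * 2 ^ (N * d) := by
  unfold cN
  rw [inv_pow, _root_.inv_inv, mul_pow, ← pow_mul]

theorem mult' (hd : 1 ≤ d) {N : ℕ} {b : Vec d → Vec d} (hb : Measurable b) {H : ℝ} (hH : 0 ≤ H)
    {u : ℝ} (hu : 1 ≤ u) {ω : Om d}
    (hω : ω ∈ good (Dm d) (Ph N b) (4 * d + 1) (cN d N) H u)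
    {b' : Vec d → Vec d} (hb' : Measurable b') (hbb : ∀ᵐ v : Vec d, b' (sg N ω v) = b v)
    (r t : ℝ) (y : Vec d) (hr : 0 < r) (hr1 : r ≤ 1) (ht : |t| ≤ H) :
    volume {v | ‖v‖ ≤ 1 ∧ ‖b' v + t • v - y‖ ≤ r} ≤
      ENNReal.ofReal (KK d H * u * 2 ^ (N * d) * (1 + Real.log (1 / r)) ^ 2 * (r / max |t| r) ^ d) := by
  refine (mult hd hb hH hu hω hb' hbb r t y hr hr1 ht).trans (le_of_eq ?_)
  congr 1
  have e : (r / (cN d N * max |t| r)) ^ d = ((cN d N) ^ d)⁻¹ * (r / max |t| r) ^ d := by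
    rw [div_pow, mul_pow, div_pow]
    have hc := cN_pos hd N
    have hm : 0 < max |t| r := lt_max_of_lt_right hr
    field_simp
  rw [e, cN_pow hd]
  unfold KK
  ring

/-- The maximal estimate on a set of heights where the multiplicity is bounded. -/
theorem lmb_T {b : Vec d → Vec d} (hb : Measurable b) {T : Set ℝ} (hT : MeasurableSet T) {δ : ℝ}
    (hδ : 0 < δ) (hδ1 : δ < 1) {p : ℝ} (hp : 1 ≤ p) {Λ : ℝ≥0∞}
    (h : ∀ t ∈ T, ∀ x, volume {v | ‖v‖ ≤ 1 ∧ ‖b v + t • v - x‖ ≤ 3 * δ} ≤ Λ) :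
    LMb δ T 1 p (cb d ^ p * ((volume (closedBall (0 : Vec d) (3 * δ)))⁻¹ * Λ))
      (closedBall 0 1) b := by
  have key := Pool.Agent.TH426.Kt.LMb_of_Wb hδ hδ1 hT (l := 1) (p := p) le_rfl (by linarith)
    (C := (volume (closedBall (0 : Vec d) (3 * δ)))⁻¹ * Λ) (B := closedBall (0 : Vec d) 1)
    measurableSet_closedBall subset_rfl hb (b' := b) (fun v _ => by simpa using hδ.le)
    (fun k => Pool.Agent.W2helper36.LN.wb_of_overlap hb
      (Pool.Agent.TH426.Kt.measurableSet_win hT k) (Pool.Agent.W2helper36.LN.vol_win _ k) hp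
      (fun t ht x => by
        refine le_trans (le_of_eq ?_) (h t ht.2 x)
        congr 1
        ext v
        simp only [mem_inter_iff, mem_setOf_eq, mem_closedBall, dist_zero_right, lin]
        exact and_comm))
  rw [one_mul] at key
  exact key

/-- Away from the height zero there is no power of `δ`. -/
theorem away {b : Vec d → Vec d} (hb : Measurable b) {H K : ℝ} (hH : 0 ≤ H)
    (hKv : (vb d).toReal * (H + 1) ^ d ≤ K)
    (h : ∀ (r t : ℝ) (y : Vec d), 0 < r → r ≤ 1 → |t| ≤ H →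
      volume {v | ‖v‖ ≤ 1 ∧ ‖b v + t • v - y‖ ≤ r} ≤
        ENNReal.ofReal (K * (1 + Real.log (1 / r)) ^ 2 * (r / max |t| r) ^ d))
    {η : ℝ} (hη : 0 < η) (hη1 : η ≤ 1)
    {δ : ℝ} (hδ : 0 < δ) (hδ1 : δ < 1) {p : ℝ} (hp : 1 ≤ p) :
    LMb δ {t | η ≤ |t| ∧ |t| ≤ H} 1 p (ENNReal.ofReal (AA d ^ p * K * η⁻¹ ^ d *
      (1 + Real.log (1 / δ)) ^ 2)) (closedBall 0 1) b := by
  have hvr : 0 < (vb d).toReal := ENNReal.toReal_pos (vb_ne_zero d) (vb_ne_top d)
  have hK : 0 ≤ K := le_trans (by positivity) hKv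
  have hlog : 0 ≤ Real.log (1 / δ) := Real.log_nonneg (by rw [le_div_iff₀ hδ]; linarith)
  have hT : MeasurableSet {t : ℝ | η ≤ |t| ∧ |t| ≤ H} :=
    (measurableSet_le measurable_const measurable_id.abs).inter
      (measurableSet_le measurable_id.abs measurable_const)
  have key := lmb_T hb hT hδ hδ1 hp
    (Λ := ENNReal.ofReal (K * (1 + Real.log (1 / δ)) ^ 2 * (3 * δ / η) ^ d)) (by
      rintro t ⟨ht1, ht2⟩ x
      by_cases h3 : 3 * δ ≤ 1
      · refine (h (3 * δ) t x (by positivity) h3 ht2).trans (ENNReal.ofReal_le_ofReal ?_)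
        have h1 : η ≤ max |t| (3 * δ) := le_max_of_le_left ht1
        have h2 : 0 ≤ Real.log (1 / (3 * δ)) :=
          Real.log_nonneg (by rw [le_div_iff₀ (by positivity)]; linarith)
        have h4 : Real.log (1 / (3 * δ)) ≤ Real.log (1 / δ) := by
          apply Real.log_le_log (by positivity)
          apply one_div_le_one_div_of_le hδ
          linarith
        gcongr
      · rw [not_le] at h3
        have h5 : volume {v : Vec d | ‖v‖ ≤ 1 ∧ ‖b v + t • v - x‖ ≤ 3 * δ} ≤ vb d := by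
          apply measure_mono
          intro v hv
          simpa using hv.1
        refine h5.trans ?_
        rw [← ENNReal.ofReal_toReal (vb_ne_top d)]
        apply ENNReal.ofReal_le_ofReal
        have h6 : 1 ≤ (3 * δ / η) ^ d := by
          apply one_le_pow₀
          rw [le_div_iff₀ hη]
          linarith
        have h8 : 1 ≤ (1 + Real.log (1 / δ)) ^ 2 := by nlinarith
        have h9 : (vb d).toReal ≤ K := by
          have : 1 ≤ (H + 1) ^ d := one_le_pow₀ (by linarith)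
          nlinarith
        calc (vb d).toReal ≤ K * 1 * 1 := by linarith
          _ ≤ _ := by gcongr)
  intro f hf hfT
  refine (key f hf hfT).trans ?_
  gcongr
  have hcb : cb d ^ p ≤ ENNReal.ofReal (((cb d).toReal + 1) ^ p) := by
    rw [← ENNReal.ofReal_rpow_of_pos (by positivity)]
    apply ENNReal.rpow_le_rpow _ (by linarith)
    rw [ENNReal.ofReal_add ENNReal.toReal_nonneg zero_le_one, ENNReal.ofReal_toReal (cb_ne_top d)]
    exact le_self_add
  have hV : (volume (closedBall (0 : Vec d) (3 * δ)))⁻¹ =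
      ENNReal.ofReal (((3 * δ) ^ d * (vb d).toReal)⁻¹) := by
    rw [vol_cb _ (by positivity), ENNReal.ofReal_inv_of_pos (by positivity),
      ENNReal.ofReal_mul (by positivity), ENNReal.ofReal_toReal (vb_ne_top d)]
  have hmax : ((vb d).toReal)⁻¹ ≤ (max 1 ((vb d).toReal)⁻¹) ^ p := by
    calc ((vb d).toReal)⁻¹ ≤ max 1 ((vb d).toReal)⁻¹ := le_max_right _ _
      _ = (max 1 ((vb d).toReal)⁻¹) ^ (1 : ℝ) := (Real.rpow_one _).symm
      _ ≤ _ := Real.rpow_le_rpow_of_exponent_le (le_max_left _ _) hp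
  rw [hV, ← ENNReal.ofReal_mul (by positivity)]
  refine (mul_le_mul_left hcb _).trans ?_
  rw [← ENNReal.ofReal_mul (by positivity)]
  apply ENNReal.ofReal_le_ofReal
  have e1 : ((3 * δ) ^ d * (vb d).toReal)⁻¹ * (K * (1 + Real.log (1 / δ)) ^ 2 * (3 * δ / η) ^ d) =
      ((vb d).toReal)⁻¹ * (K * (1 + Real.log (1 / δ)) ^ 2 * η⁻¹ ^ d) := by
    rw [div_pow, mul_pow, inv_pow]
    field_simp
  rw [e1]
  unfold AA
  rw [Real.mul_rpow (by positivity) (by positivity)]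
  calc ((cb d).toReal + 1) ^ p * (((vb d).toReal)⁻¹ * (K * (1 + Real.log (1 / δ)) ^ 2 * η⁻¹ ^ d))
      ≤ ((cb d).toReal + 1) ^ p * ((max 1 ((vb d).toReal)⁻¹) ^ p *
        (K * (1 + Real.log (1 / δ)) ^ 2 * η⁻¹ ^ d)) := by gcongr
    _ = _ := by ring

theorem KK_vb (hd : 1 ≤ d) {H : ℝ} (hH : 0 ≤ H) {u : ℝ} (hu : 1 ≤ u) (N : ℕ) :
    (vb d).toReal * (H + 1) ^ d ≤ KK d H * u * 2 ^ (N * d) := by
  have hdR : (1 : ℝ) ≤ d := by exact_mod_cast hd
  have hM : (1 : ℝ) ≤ 4 * d + 1 := by linarith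
  have h0 := C0_nonneg (Dm d) hM hH
  have h1 : 0 ≤ C1 (Dm d) (4 * d + 1) H := by unfold C1; positivity
  have h2 : (vb d).toReal * (H + 1) ^ d ≤ CC (Dm d) (4 * d + 1) H := by
    unfold CC
    linarith
  have h3 : (1 : ℝ) ≤ (4 * d) ^ d := one_le_pow₀ (by linarith)
  have h4 : (1 : ℝ) ≤ 2 ^ (N * d) := one_le_pow₀ (by norm_num)
  have h5 := CC_pos (Dm d) hM hH
  calc (vb d).toReal * (H + 1) ^ d ≤ CC (Dm d) (4 * d + 1) H * 1 * 1 * 1 := by linarith
    _ ≤ CC (Dm d) (4 * d + 1) H * (4 * d) ^ d * u * 2 ^ (N * d) := by gcongr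
    _ = _ := by unfold KK; ring

/-- The three estimates. -/
def Est (A K H : ℝ) (b : Vec d → Vec d) : Prop :=
  (∀ (r t : ℝ) (y : Vec d), 0 < r → r ≤ 1 → |t| ≤ H →
    volume {v | ‖v‖ ≤ 1 ∧ ‖b v + t • v - y‖ ≤ r} ≤
      ENNReal.ofReal (K * (1 + Real.log (1 / r)) ^ 2 * (r / max |t| r) ^ d)) ∧
  (∀ (p δ : ℝ), 1 ≤ p → 0 < δ → δ < 1 →
    LMb δ (Icc (-H) H) 1 p (ENNReal.ofReal (A ^ p * K * (1 + Real.log (1 / δ)) ^ (p + 1) *
      δ ^ (-(max ((d : ℝ) + 1 - p) 0)))) (closedBall 0 1) b) ∧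
  (∀ (p δ η : ℝ), 1 ≤ p → 0 < δ → δ < 1 → 0 < η → η ≤ 1 →
    LMb δ {t | η ≤ |t| ∧ |t| ≤ H} 1 p (ENNReal.ofReal (A ^ p * K * η⁻¹ ^ d *
      (1 + Real.log (1 / δ)) ^ 2)) (closedBall 0 1) b)

theorem est_of {b : Vec d → Vec d} (hb : Measurable b) {H K : ℝ} (hH : 0 ≤ H)
    (hKv : (vb d).toReal * (H + 1) ^ d ≤ K)
    (h : ∀ (r t : ℝ) (y : Vec d), 0 < r → r ≤ 1 → |t| ≤ H →
      volume {v | ‖v‖ ≤ 1 ∧ ‖b v + t • v - y‖ ≤ r} ≤
        ENNReal.ofReal (K * (1 + Real.log (1 / r)) ^ 2 * (r / max |t| r) ^ d)) :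
    Est (AH d H) K H b := by
  refine ⟨h, ?_, ?_⟩
  · intro p δ hp hδ hδ1
    have key := final hb (c := 1) one_pos le_rfl hH hKv (fun r t y hr hr1 ht => by
      rw [one_mul]; exact h r t y hr hr1 ht) hδ hδ1 hp
    simp only [one_pow, inv_one, mul_one] at key
    exact key
  · intro p δ η hp hδ hδ1 hη hη1
    have key := away hb hH hKv h hη hη1 hδ hδ1 hp
    intro f hf hfT
    refine (key f hf hfT).trans ?_
    have hvr : 0 < (vb d).toReal := ENNReal.toReal_pos (vb_ne_zero d) (vb_ne_top d)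
    have hK : 0 ≤ K := le_trans (by positivity) hKv
    have hA := AA_pos d
    gcongr
    unfold AH
    nlinarith

theorem est_rand (hd : 1 ≤ d) {N : ℕ} {b : Vec d → Vec d} (hb : Measurable b) {H : ℝ} (hH : 0 ≤ H)
    {u : ℝ} (hu : 1 ≤ u) {ω : Om d}
    (hω : ω ∈ good (Dm d) (Ph N b) (4 * d + 1) (cN d N) H u)
    {b' : Vec d → Vec d} (hb' : Measurable b') (hbb : ∀ᵐ v : Vec d, b' (sg N ω v) = b v) :
    Est (AH d H) (KK d H * u * 2 ^ (N * d)) H b' :=
  est_of hb' hH (KK_vb hd hH hu N) fun r t y hr hr1 ht => mult' hd hb hH hu hω hb' hbb r t y hr hr1 ht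

theorem P_rand (hd : 1 ≤ d) (N : ℕ) {b : Vec d → Vec d} (hb : Measurable b) {H : ℝ} (hH : 0 ≤ H)
    (u : ℝ) :
    PP d (good (Dm d) (Ph N b) (4 * d + 1) (cN d N) H u)ᶜ ≤ ENNReal.ofReal (Real.exp (-u)) := by
  have hdR : (0 : ℝ) ≤ d := by positivity
  exact P_good measurableSet_closedBall measure_closedBall_lt_top.ne (meas_Ph N hb) (by linarith)
    (cN_pos hd N) (cN_le hd N) hH (fun k τ _ => LR_Ph hd N b hH k τ) u

theorem rA_id (N : ℕ) (ω : Om d) : ∀ l ≤ N, ∀ k, rA N ω l k = k := by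
  intro l
  induction l with
  | zero => intro _ k; rfl
  | succ l ih =>
    intro hl k
    funext i
    have h1 : rA N ω (l + 1) k i = 2 * rA N ω l (par k) i + nd (flips N ω l (par k) i) (k i) := rfl
    have h2 : flips N ω l (par k) = fun _ => false := by
      unfold flips
      rw [if_neg (by omega)]
    rw [h1, ih (by omega), h2]
    unfold par nd
    simp only [Bool.false_eq_true, if_false]
    omega

theorem inv_near (N : ℕ) (ω : Om d) (v : Vec d) :
    ‖lift (rT N ω).inv v - v‖ ≤ d * (2 * (1 / 2) ^ N) := by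
  have h := lift_near (rT N ω).inv N v
  have h0 : disp (rT N ω).inv N v = 0 := by
    have h1 : (rT N ω).inv.f N (q N v) = q N v := by
      have h2 : (rT N ω).inv.f N = ((rT N ω).f N).symm := rfl
      rw [h2, Equiv.symm_apply_eq]
      exact (rA_id N ω N le_rfl _).symm
    ext i
    unfold disp
    rw [h1]
    simp
  rw [h0, add_zero] at h
  exact h

theorem Est.mono {A K H H' : ℝ} {b : Vec d → Vec d} (h : Est A K H' b) (hH : H ≤ H') :
    Est A K H b := by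
  refine ⟨fun r t y hr hr1 ht => h.1 r t y hr hr1 (ht.trans hH), ?_, ?_⟩
  · intro p δ hp hδ hδ1 f hf hfT
    refine h.2.1 p δ hp hδ hδ1 f hf ?_
    intro y t ht
    apply hfT
    intro hmem
    apply ht
    rw [mem_Icc] at hmem ⊢
    constructor <;> linarith [hmem.1, hmem.2]
  · intro p δ η hp hδ hδ1 hη hη1 f hf hfT
    refine h.2.2 p δ η hp hδ hδ1 hη hη1 f hf ?_
    intro y t ht
    apply hfT
    intro hmem
    exact ht ⟨hmem.1, hmem.2.trans hH⟩

theorem Est.monoK {A A' K K' H : ℝ} {b : Vec d → Vec d} (h : Est A K H b) (hA : 0 ≤ A)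
    (hAA : A ≤ A') (hK : 0 ≤ K) (hKK : K ≤ K') : Est A' K' H b := by
  refine ⟨fun r t y hr hr1 ht => (h.1 r t y hr hr1 ht).trans (ENNReal.ofReal_le_ofReal ?_), ?_, ?_⟩
  · have : 0 < max |t| r := lt_max_of_lt_right hr
    gcongr
  · intro p δ hp hδ hδ1 f hf hfT
    refine (h.2.1 p δ hp hδ hδ1 f hf hfT).trans ?_
    have hA'p : 0 ≤ A' ^ p := Real.rpow_nonneg (hA.trans hAA) p
    have hlog : 0 ≤ Real.log (1 / δ) := Real.log_nonneg (by rw [le_div_iff₀ hδ]; linarith)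
    gcongr
  · intro p δ η hp hδ hδ1 hη hη1 f hf hfT
    refine (h.2.2 p δ η hp hδ hδ1 hη hη1 f hf hfT).trans ?_
    have hA'p : 0 ≤ A' ^ p := Real.rpow_nonneg (hA.trans hAA) p
    have hlog : 0 ≤ Real.log (1 / δ) := Real.log_nonneg (by rw [le_div_iff₀ hδ]; linarith)
    gcongr

/-- The event for all heights. -/
theorem exists_all (hd : 1 ≤ d) (N : ℕ) {b : Vec d → Vec d} (hb : Measurable b) :
    ∃ ω : Om d, ∀ m : ℕ, ω ∈ good (Dm d) (Ph N b) (4 * d + 1) (cN d N) m (m + 2) := by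
  have h3 : PP d (⋃ m : ℕ, (good (Dm d) (Ph N b) (4 * d + 1) (cN d N) m (m + 2))ᶜ) < 1 := by
    calc PP d (⋃ m : ℕ, (good (Dm d) (Ph N b) (4 * d + 1) (cN d N) m (m + 2))ᶜ)
        ≤ ∑' m : ℕ, PP d (good (Dm d) (Ph N b) (4 * d + 1) (cN d N) m (m + 2))ᶜ :=
          measure_iUnion_le _
      _ ≤ ∑' m : ℕ, ENNReal.ofReal (1 / 2) * (1 / 2 : ℝ≥0∞) ^ (m + 1) := by
          apply ENNReal.tsum_le_tsum
          intro m
          refine (P_rand hd N hb (Nat.cast_nonneg m) _).trans ?_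
          have e1 : ENNReal.ofReal (1 / 2) * (1 / 2 : ℝ≥0∞) ^ (m + 1) =
              ENNReal.ofReal (1 / 2 * (1 / 2) ^ (m + 1)) := by
            rw [ENNReal.ofReal_mul (by norm_num), ENNReal.ofReal_pow (by norm_num)]
            congr 2
            rw [ENNReal.ofReal_div_of_pos (by norm_num)]
            simp
          rw [e1]
          apply ENNReal.ofReal_le_ofReal
          have e2 : Real.exp (-((m : ℝ) + 2)) = (Real.exp (-1)) ^ (m + 2) := by
            rw [← Real.exp_nat_mul]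
            push_cast
            ring_nf
          rw [e2]
          calc (Real.exp (-1)) ^ (m + 2) ≤ (1 / 2) ^ (m + 2) := by
                apply pow_le_pow_left₀ (Real.exp_pos _).le
                rw [Real.exp_neg, one_div]
                apply inv_anti₀ (by norm_num)
                have := Real.add_one_le_exp 1
                linarith
            _ = _ := by ring
      _ = ENNReal.ofReal (1 / 2) := by
          rw [ENNReal.tsum_mul_left]
          have : ∑' k : ℕ, (1 / 2 : ℝ≥0∞) ^ (k + 1) = 1 := by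
            have := ENNReal.tsum_geometric_add_one (1 / 2)
            rw [this]
            simp
            rw [ENNReal.inv_mul_cancel (by norm_num) (by norm_num)]
          rw [this, mul_one]
      _ < 1 := by
          rw [ENNReal.ofReal_lt_one]
          norm_num
  obtain ⟨ω, hω⟩ : ∃ ω, ω ∉ ⋃ m : ℕ, (good (Dm d) (Ph N b) (4 * d + 1) (cN d N) m (m + 2))ᶜ := by
    by_contra hcon
    push Not at hcon
    have h4 : (⋃ m : ℕ, (good (Dm d) (Ph N b) (4 * d + 1) (cN d N) m (m + 2))ᶜ) = univ :=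
      eq_univ_of_forall hcon
    rw [h4, measure_univ] at h3
    exact lt_irrefl _ h3
  refine ⟨ω, fun m => ?_⟩
  by_contra hcon
  exact hω (mem_iUnion.2 ⟨m, hcon⟩)

theorem ae_all (hd : 1 ≤ d) (N : ℕ) {b : Vec d → Vec d} (hb : Measurable b) :
    ∀ᵐ ω ∂(PP d), ∀ m : ℕ, ∃ n : ℕ,
      ω ∈ good (Dm d) (Ph N b) (4 * d + 1) (cN d N) m ((n : ℝ) + 1) := by
  rw [ae_all_iff]
  intro m
  rw [ae_iff]
  refine le_antisymm ?_ zero_le
  have h3 : ∀ n : ℕ, PP d {ω | ¬ ∃ n : ℕ,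
      ω ∈ good (Dm d) (Ph N b) (4 * d + 1) (cN d N) m ((n : ℝ) + 1)} ≤
      ENNReal.ofReal (Real.exp (-((n : ℝ) + 1))) := by
    intro n
    refine (measure_mono ?_).trans (P_rand hd N hb (Nat.cast_nonneg m) ((n : ℝ) + 1))
    intro ω hω hωE
    exact hω ⟨n, hωE⟩
  have h4 : Filter.Tendsto (fun n : ℕ => ENNReal.ofReal (Real.exp (-((n : ℝ) + 1))))
      Filter.atTop (nhds 0) := by
    have h5 : Filter.Tendsto (fun n : ℕ => Real.exp (-((n : ℝ) + 1))) Filter.atTop (nhds 0) := by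
      apply Real.tendsto_exp_neg_atTop_nhds_zero.comp
      exact Filter.tendsto_atTop_add_const_right _ _ tendsto_natCast_atTop_atTop
    have h6 := ENNReal.tendsto_ofReal h5
    rwa [ENNReal.ofReal_zero] at h6
  exact ge_of_tendsto' h4 h3

end Pool.Agent.W2helper36.RA
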