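import Pool.Agent.W2helper36.RA.Scales

set_option autoImplicit false

/-!
From the multiplicity to the maximal function, for a multiplicity with a pole at the height zero.
-/

open MeasureTheory Set ENNReal Metric

namespace Pool.Agent.W2helper36.RA

open Pool.Agent.H803R2.KakFTO (Vec Space lineMax)
open Pool.Agent.TH426.Kt (nb W lin Wb LMb VanOff win cb cb_ne_top jensen lintegral_nb nb_univ measurable_lin)
open Pool.Agent.W2helper36.LN (vb vb_ne_top vb_ne_zero vol_cb slice)

variable {d : ℕ}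

/-- The logarithmic weight. -/
noncomputable def wt (δ t : ℝ) : ℝ := max |t| δ

theorem wt_pos {δ : ℝ} (hδ : 0 < δ) (t : ℝ) : 0 < wt δ t := lt_max_of_lt_right hδ

theorem measurable_wt (δ : ℝ) : Measurable (wt δ) := by
  unfold wt
  exact (measurable_id.abs).max measurable_const

theorem int_pos {δ : ℝ} (hδ : 0 < δ) (hδ1 : δ < 1) :
    ∫⁻ t in Icc δ 1, ENNReal.ofReal t⁻¹ = ENNReal.ofReal (Real.log (1 / δ)) := by
  have hcont : ContinuousOn (fun t : ℝ => t⁻¹) (Icc δ 1) := by
    apply ContinuousOn.inv₀ continuousOn_id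
    intro t ht
    exact (lt_of_lt_of_le hδ ht.1).ne'
  have hint : IntegrableOn (fun t : ℝ => t⁻¹) (Icc δ 1) := hcont.integrableOn_Icc
  rw [← ofReal_integral_eq_lintegral_ofReal hint]
  · congr 1
    rw [integral_Icc_eq_integral_Ioc, ← intervalIntegral.integral_of_le hδ1.le,
      integral_inv_of_pos hδ one_pos]
  · rw [Filter.EventuallyLE, ae_restrict_iff' measurableSet_Icc]
    filter_upwards with t ht
    have : 0 < t := lt_of_lt_of_le hδ ht.1
    simp only [Pi.zero_apply]
    positivity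

theorem int_neg {δ : ℝ} (hδ : 0 < δ) (hδ1 : δ < 1) :
    ∫⁻ t in Icc (-1) (-δ), ENNReal.ofReal (-t)⁻¹ = ENNReal.ofReal (Real.log (1 / δ)) := by
  rw [← int_pos hδ hδ1]
  have h := (Measure.measurePreserving_neg (volume : Measure ℝ)).setLIntegral_comp_preimage_emb
    (MeasurableEquiv.neg ℝ).measurableEmbedding (fun t => ENNReal.ofReal t⁻¹) (Icc δ 1)
  rw [← h]
  congr 2
  ext t
  simp only [mem_preimage, mem_Icc]
  constructor
  · rintro ⟨h1, h2⟩; constructor <;> linarith
  · rintro ⟨h1, h2⟩; constructor <;> linarith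

theorem int_wt {δ : ℝ} (hδ : 0 < δ) (hδ1 : δ < 1) {J : Set ℝ} (hJ : volume J ≤ 1) :
    ∫⁻ t in J, ENNReal.ofReal (wt δ t)⁻¹ ≤ ENNReal.ofReal (3 * (1 + Real.log (1 / δ))) := by
  have hlog : 0 ≤ Real.log (1 / δ) := Real.log_nonneg (by rw [le_div_iff₀ hδ]; linarith)
  have hsub : J ⊆ (J \ Icc (-1) 1) ∪ (Icc (-1) (-δ) ∪ (Icc (-δ) δ ∪ Icc δ 1)) := by
    intro t ht
    by_cases h : t ∈ Icc (-1 : ℝ) 1
    · right
      rw [mem_Icc] at h
      by_cases h1 : t ≤ -δ
      · exact Or.inl ⟨h.1, h1⟩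
      · right
        by_cases h2 : t ≤ δ
        · exact Or.inl ⟨(not_le.1 h1).le, h2⟩
        · exact Or.inr ⟨(not_le.1 h2).le, h.2⟩
    · exact Or.inl ⟨ht, h⟩
  have h1 : ∫⁻ t in J \ Icc (-1) 1, ENNReal.ofReal (wt δ t)⁻¹ ≤ 1 := by
    calc ∫⁻ t in J \ Icc (-1) 1, ENNReal.ofReal (wt δ t)⁻¹ ≤ ∫⁻ _t in J \ Icc (-1) 1, 1 := by
          apply setLIntegral_mono measurable_const
          intro t ht
          rw [ENNReal.ofReal_le_one]
          apply inv_le_one_of_one_le₀
          unfold wt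
          apply le_max_of_le_left
          by_contra hcon
          exact ht.2 (mem_Icc.2 (abs_le.1 (not_le.1 hcon).le))
      _ ≤ 1 := by
          rw [setLIntegral_one]
          exact (measure_mono diff_subset).trans hJ
  have h2 : ∫⁻ t in Icc (-1) (-δ), ENNReal.ofReal (wt δ t)⁻¹ ≤ ENNReal.ofReal (Real.log (1 / δ)) := by
    rw [← int_neg hδ hδ1]
    apply setLIntegral_mono' measurableSet_Icc
    intro t ht
    apply ENNReal.ofReal_le_ofReal
    rw [mem_Icc] at ht
    apply inv_anti₀ (by linarith [ht.2])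
    unfold wt
    exact le_max_of_le_left (neg_le_abs t)
  have h3 : ∫⁻ t in Icc (-δ) δ, ENNReal.ofReal (wt δ t)⁻¹ ≤ 2 := by
    calc ∫⁻ t in Icc (-δ) δ, ENNReal.ofReal (wt δ t)⁻¹ ≤ ∫⁻ _t in Icc (-δ) δ, ENNReal.ofReal δ⁻¹ := by
          apply setLIntegral_mono measurable_const
          intro t _
          apply ENNReal.ofReal_le_ofReal
          apply inv_anti₀ hδ
          exact le_max_right _ _
      _ ≤ 2 := by
          rw [setLIntegral_const, Real.volume_Icc, ← ENNReal.ofReal_mul (by positivity)]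
          have : δ⁻¹ * (δ - -δ) = 2 := by field_simp; ring
          rw [this]
          simp
  have h4 : ∫⁻ t in Icc δ 1, ENNReal.ofReal (wt δ t)⁻¹ ≤ ENNReal.ofReal (Real.log (1 / δ)) := by
    rw [← int_pos hδ hδ1]
    apply setLIntegral_mono' measurableSet_Icc
    intro t ht
    apply ENNReal.ofReal_le_ofReal
    rw [mem_Icc] at ht
    apply inv_anti₀ (by linarith [ht.1])
    unfold wt
    exact le_max_of_le_left (le_abs_self t)
  calc ∫⁻ t in J, ENNReal.ofReal (wt δ t)⁻¹
      ≤ 1 + (ENNReal.ofReal (Real.log (1 / δ)) + (2 + ENNReal.ofReal (Real.log (1 / δ)))) := by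
        refine (lintegral_mono_set hsub).trans ((lintegral_union_le _ _ _).trans ?_)
        gcongr
        refine (lintegral_union_le _ _ _).trans ?_
        gcongr
        refine (lintegral_union_le _ _ _).trans ?_
        gcongr
    _ = ENNReal.ofReal (1 + (Real.log (1 / δ) + (2 + Real.log (1 / δ)))) := by
        rw [ENNReal.ofReal_add one_pos.le (by positivity), ENNReal.ofReal_add hlog (by positivity),
          ENNReal.ofReal_add (by norm_num) hlog]
        simp
    _ ≤ _ := by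
        apply ENNReal.ofReal_le_ofReal
        linarith

/-- The power of the weight in the Hölder inequality. -/
theorem hoelder {δ : ℝ} (hδ : 0 < δ) (hδ1 : δ < 1) {J : Set ℝ} (hJm : MeasurableSet J)
    (hJ : volume J ≤ 1) {p : ℝ} (hp : 1 ≤ p) {G : ℝ → ℝ≥0∞} (hG : Measurable G) :
    (∫⁻ t in J, G t) ^ p ≤ ENNReal.ofReal (3 * (1 + Real.log (1 / δ))) ^ (p - 1) *
      ∫⁻ t in J, ENNReal.ofReal (wt δ t ^ (p - 1)) * G t ^ p := by
  have hlog : 0 ≤ Real.log (1 / δ) := Real.log_nonneg (by rw [le_div_iff₀ hδ]; linarith)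
  set L : ℝ := 3 * (1 + Real.log (1 / δ)) with hL
  have hL0 : 0 < L := by positivity
  have hLe0 : ENNReal.ofReal L ≠ 0 := by rw [ne_eq, ENNReal.ofReal_eq_zero, not_le]; exact hL0
  have hLet : ENNReal.ofReal L ≠ ∞ := ENNReal.ofReal_ne_top
  set ρ : ℝ → ℝ≥0∞ := fun t => (ENNReal.ofReal L)⁻¹ * ENNReal.ofReal (wt δ t)⁻¹ with hρ
  have hρm : Measurable ρ := ((measurable_wt δ).inv.ennreal_ofReal).const_mul _
  set ν : Measure ℝ := (volume.restrict J).withDensity ρ with hν
  have hν1 : ν univ ≤ 1 := by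
    rw [hν, withDensity_apply _ MeasurableSet.univ, Measure.restrict_univ]
    rw [hρ]
    simp only
    have hwi : Measurable (fun t => ENNReal.ofReal (wt δ t)⁻¹) :=
      (measurable_wt δ).inv.ennreal_ofReal
    rw [lintegral_const_mul _ hwi]
    calc (ENNReal.ofReal L)⁻¹ * ∫⁻ t in J, ENNReal.ofReal (wt δ t)⁻¹
        ≤ (ENNReal.ofReal L)⁻¹ * ENNReal.ofReal L := by
          gcongr
          exact int_wt hδ hδ1 hJ
      _ = 1 := ENNReal.inv_mul_cancel hLe0 hLet
  have hGm : Measurable (fun t => ENNReal.ofReal L * ENNReal.ofReal (wt δ t) * G t) :=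
    ((measurable_wt δ).ennreal_ofReal.const_mul _).mul hG
  have hj := jensen ν hν1 hp hGm.aemeasurable
  have hone : ∀ t, ρ t * (ENNReal.ofReal L * ENNReal.ofReal (wt δ t)) = 1 := by
    intro t
    have hw := wt_pos hδ t
    have hw0 : ENNReal.ofReal (wt δ t) ≠ 0 := by rw [ne_eq, ENNReal.ofReal_eq_zero, not_le]; exact hw
    rw [hρ]
    simp only
    rw [ENNReal.ofReal_inv_of_pos hw]
    calc (ENNReal.ofReal L)⁻¹ * (ENNReal.ofReal (wt δ t))⁻¹ * (ENNReal.ofReal L * ENNReal.ofReal (wt δ t))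
        = ((ENNReal.ofReal L)⁻¹ * ENNReal.ofReal L) *
            ((ENNReal.ofReal (wt δ t))⁻¹ * ENNReal.ofReal (wt δ t)) := by ring
      _ = 1 := by
          rw [ENNReal.inv_mul_cancel hLe0 hLet, ENNReal.inv_mul_cancel hw0 ENNReal.ofReal_ne_top,
            one_mul]
  have e1 : ∫⁻ t, ENNReal.ofReal L * ENNReal.ofReal (wt δ t) * G t ∂ν = ∫⁻ t in J, G t := by
    rw [hν, lintegral_withDensity_eq_lintegral_mul _ hρm hGm]
    apply lintegral_congr
    intro t
    simp only [Pi.mul_apply]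
    rw [← mul_assoc, hone t, one_mul]
  have e2 : ∫⁻ t, (ENNReal.ofReal L * ENNReal.ofReal (wt δ t) * G t) ^ p ∂ν =
      ENNReal.ofReal L ^ (p - 1) * ∫⁻ t in J, ENNReal.ofReal (wt δ t ^ (p - 1)) * G t ^ p := by
    rw [hν, lintegral_withDensity_eq_lintegral_mul _ hρm (hGm.pow_const p),
      ← lintegral_const_mul]
    swap
    · exact (((measurable_wt δ).pow_const _).ennreal_ofReal).mul (hG.pow_const p)
    apply lintegral_congr
    intro t
    simp only [Pi.mul_apply]
    have hw := wt_pos hδ t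
    have hw0 : ENNReal.ofReal (wt δ t) ≠ 0 := by rw [ne_eq, ENNReal.ofReal_eq_zero, not_le]; exact hw
    have hp1 : 0 ≤ p := by linarith
    have hX : (ENNReal.ofReal L * ENNReal.ofReal (wt δ t)) ^ p =
        (ENNReal.ofReal L * ENNReal.ofReal (wt δ t)) *
          (ENNReal.ofReal L ^ (p - 1) * ENNReal.ofReal (wt δ t ^ (p - 1))) := by
      have h0 : ENNReal.ofReal L * ENNReal.ofReal (wt δ t) ≠ 0 := mul_ne_zero hLe0 hw0
      have ht : ENNReal.ofReal L * ENNReal.ofReal (wt δ t) ≠ ∞ :=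
        ENNReal.mul_ne_top hLet ENNReal.ofReal_ne_top
      rw [← ENNReal.ofReal_rpow_of_pos hw, ← ENNReal.mul_rpow_of_nonneg _ _ (by linarith)]
      have e3 : p = 1 + (p - 1) := by ring
      conv_lhs => rw [e3]
      rw [ENNReal.rpow_add _ _ h0 ht, ENNReal.rpow_one]
    rw [ENNReal.mul_rpow_of_nonneg _ _ hp1, hX]
    calc ρ t * (ENNReal.ofReal L * ENNReal.ofReal (wt δ t) *
          (ENNReal.ofReal L ^ (p - 1) * ENNReal.ofReal (wt δ t ^ (p - 1))) * G t ^ p)
        = (ρ t * (ENNReal.ofReal L * ENNReal.ofReal (wt δ t))) *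
            (ENNReal.ofReal L ^ (p - 1) * (ENNReal.ofReal (wt δ t ^ (p - 1)) * G t ^ p)) := by ring
      _ = _ := by rw [hone t, one_mul]
  rw [e1, e2] at hj
  exact hj

theorem wb_of_overlap {b : Vec d → Vec d} (hb : Measurable b) {B : Set (Vec d)} {r : ℝ} {J : Set ℝ}
    (hJm : MeasurableSet J) (hJ1 : volume J ≤ 1) {δ : ℝ} (hδ : 0 < δ) (hδ1 : δ < 1) {p : ℝ}
    (hp : 1 ≤ p) {Λ : ℝ → ℝ≥0∞} {K : ℝ≥0∞}
    (h : ∀ t ∈ J, ∀ x, volume ({v | ‖lin b v t - x‖ ≤ r} ∩ B) ≤ Λ t)
    (hK : ∀ t ∈ J, ENNReal.ofReal (wt δ t ^ (p - 1)) * Λ t ≤ K) :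
    Wb r J 1 p (ENNReal.ofReal (3 * (1 + Real.log (1 / δ))) ^ (p - 1) *
      ((volume (closedBall (0 : Vec d) r))⁻¹ * K)) B b := by
  intro g hg
  have hlin := measurable_lin hb
  rw [one_mul]
  have hgp : Measurable (fun z : Vec d × ℝ => g z ^ p) := hg.pow_const p
  have hw : Measurable (fun t => ENNReal.ofReal (wt δ t ^ (p - 1))) :=
    ((measurable_wt δ).pow_const _).ennreal_ofReal
  have hm3 : Measurable (fun q : (Vec d × ℝ) × Vec d => g (lin b q.1.1 q.1.2 + q.2, q.1.2) ^ p) := by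
    have h1 : Measurable (fun q : (Vec d × ℝ) × Vec d =>
        ((lin b q.1.1 q.1.2 + q.2, q.1.2) : Vec d × ℝ)) := by
      have h2 : Measurable (fun q : (Vec d × ℝ) × Vec d => lin b q.1.1 q.1.2) := by
        have h3 : Measurable (fun q : (Vec d × ℝ) × Vec d => q.1) := measurable_fst
        have h0 := hlin.comp h3
        exact h0
      exact (h2.add measurable_snd).prodMk (measurable_snd.comp measurable_fst)
    have h0 := hgp.comp h1
    exact h0
  have hm2 : Measurable (fun q : Vec d × ℝ => ∫⁻ w, g (lin b q.1 q.2 + w, q.2) ^ p ∂(nb d r)) :=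
    hm3.lintegral_prod_right'
  have hm2' : Measurable (fun q : Vec d × ℝ => ENNReal.ofReal (wt δ q.2 ^ (p - 1)) *
      ∫⁻ w, g (lin b q.1 q.2 + w, q.2) ^ p ∂(nb d r)) := by
    apply Measurable.mul _ hm2
    have h0 := hw.comp (measurable_snd : Measurable (fun q : Vec d × ℝ => q.2))
    exact h0
  have hlv : ∀ v, Measurable (fun t => lin b v t) := fun v => hlin.comp measurable_prodMk_left
  have hpt : ∀ v, W r J (lin b) g v ^ p ≤ ENNReal.ofReal (3 * (1 + Real.log (1 / δ))) ^ (p - 1) *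
      ∫⁻ t in J, ENNReal.ofReal (wt δ t ^ (p - 1)) *
        ∫⁻ w, g (lin b v t + w, t) ^ p ∂(nb d r) := by
    intro v
    unfold W
    have hav : Measurable (fun t => ∫⁻ w, g (lin b v t + w, t) ∂(nb d r)) :=
      Pool.Agent.TH426.Kt.measurable_avg (hlv v) hg
    refine (hoelder hδ hδ1 hJm hJ1 hp hav).trans ?_
    gcongr with t
    apply jensen _ (nb_univ d r) hp
    apply Measurable.aemeasurable
    have h1 : Measurable (fun w : Vec d => ((lin b v t + w, t) : Vec d × ℝ)) :=
      (measurable_const.add measurable_id).prodMk measurable_const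
    have h0 := hg.comp h1
    exact h0
  have hmi : Measurable (fun v : Vec d => ∫⁻ t in J, ENNReal.ofReal (wt δ t ^ (p - 1)) *
        ∫⁻ w, g (lin b v t + w, t) ^ p ∂(nb d r)) := hm2'.lintegral_prod_right'
  calc ∫⁻ v in B, W r J (lin b) g v ^ p
      ≤ ∫⁻ v in B, ENNReal.ofReal (3 * (1 + Real.log (1 / δ))) ^ (p - 1) *
          ∫⁻ t in J, ENNReal.ofReal (wt δ t ^ (p - 1)) *
            ∫⁻ w, g (lin b v t + w, t) ^ p ∂(nb d r) := lintegral_mono hpt
    _ = ENNReal.ofReal (3 * (1 + Real.log (1 / δ))) ^ (p - 1) *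
          ∫⁻ v in B, ∫⁻ t in J, ENNReal.ofReal (wt δ t ^ (p - 1)) *
            ∫⁻ w, g (lin b v t + w, t) ^ p ∂(nb d r) := lintegral_const_mul _ hmi
    _ = ENNReal.ofReal (3 * (1 + Real.log (1 / δ))) ^ (p - 1) *
          ∫⁻ t in J, ∫⁻ v in B, ENNReal.ofReal (wt δ t ^ (p - 1)) *
            ∫⁻ w, g (lin b v t + w, t) ^ p ∂(nb d r) := by
        rw [lintegral_lintegral_swap hm2'.aemeasurable]
    _ ≤ ENNReal.ofReal (3 * (1 + Real.log (1 / δ))) ^ (p - 1) *
          ∫⁻ t in J, (volume (closedBall (0 : Vec d) r))⁻¹ * K * ∫⁻ x, g (x, t) ^ p := by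
        refine mul_le_mul_right ?_ _
        apply setLIntegral_mono' hJm
        intro t ht
        have hLm : Measurable (fun v => lin b v t) := by
          have h1 : Measurable (fun v : Vec d => ((v, t) : Vec d × ℝ)) :=
            measurable_id.prodMk measurable_const
          have h0 := hlin.comp h1
          exact h0
        have hGm : Measurable (fun x : Vec d => g (x, t) ^ p) := by
          have h1 : Measurable (fun v : Vec d => ((v, t) : Vec d × ℝ)) :=
            measurable_id.prodMk measurable_const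
          have h0 := hgp.comp h1
          exact h0
        have hI : Measurable (fun v : Vec d => ∫⁻ w, g (lin b v t + w, t) ^ p ∂(nb d r)) := by
          have h1 : Measurable (fun v : Vec d => ((v, t) : Vec d × ℝ)) :=
            measurable_id.prodMk measurable_const
          have h0 := hm2.comp h1
          exact h0
        rw [lintegral_const_mul _ hI]
        calc ENNReal.ofReal (wt δ t ^ (p - 1)) *
              ∫⁻ v in B, ∫⁻ w, g (lin b v t + w, t) ^ p ∂(nb d r)
            ≤ ENNReal.ofReal (wt δ t ^ (p - 1)) *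
                ((volume (closedBall (0 : Vec d) r))⁻¹ * Λ t * ∫⁻ x, g (x, t) ^ p) := by
              gcongr
              exact slice hLm hGm (h t ht)
          _ = (volume (closedBall (0 : Vec d) r))⁻¹ * (ENNReal.ofReal (wt δ t ^ (p - 1)) * Λ t) *
                ∫⁻ x, g (x, t) ^ p := by ring
          _ ≤ _ := by
              gcongr
              exact hK t ht
    _ = _ := by
        rw [ENNReal.rpow_one, lintegral_const_mul]
        · ring
        have hm4 : Measurable (fun q : ℝ × Vec d => g (q.2, q.1) ^ p) := by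
          have h1 : Measurable (fun q : ℝ × Vec d => ((q.2, q.1) : Vec d × ℝ)) :=
            measurable_snd.prodMk measurable_fst
          have h0 := hgp.comp h1
          exact h0
        exact hm4.lintegral_prod_right'

/-- **Maximal estimate from the multiplicity.** -/
theorem lmb_of_overlap {b : Vec d → Vec d} (hb : Measurable b) {H δ : ℝ} (hδ : 0 < δ) (hδ1 : δ < 1)
    {p : ℝ} (hp : 1 ≤ p) {Λ : ℝ → ℝ≥0∞} {K : ℝ≥0∞}
    (h : ∀ t : ℝ, |t| ≤ H → ∀ x, volume {v | ‖v‖ ≤ 1 ∧ ‖b v + t • v - x‖ ≤ 3 * δ} ≤ Λ t)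
    (hK : ∀ t : ℝ, |t| ≤ H → ENNReal.ofReal (wt δ t ^ (p - 1)) * Λ t ≤ K) :
    LMb δ (Icc (-H) H) 1 p (cb d ^ p * (ENNReal.ofReal (3 * (1 + Real.log (1 / δ))) ^ (p - 1) *
      ((volume (closedBall (0 : Vec d) (3 * δ)))⁻¹ * K))) (closedBall 0 1) b := by
  have hT : MeasurableSet (Icc (-H) H) := measurableSet_Icc
  have key := Pool.Agent.TH426.Kt.LMb_of_Wb hδ hδ1 hT (l := 1) (p := p) le_rfl (by linarith)
    (C := ENNReal.ofReal (3 * (1 + Real.log (1 / δ))) ^ (p - 1) *
      ((volume (closedBall (0 : Vec d) (3 * δ)))⁻¹ * K)) (B := closedBall (0 : Vec d) 1)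
    measurableSet_closedBall subset_rfl hb (b' := b) (fun v _ => by simpa using hδ.le)
    (fun k => wb_of_overlap hb (Pool.Agent.TH426.Kt.measurableSet_win hT k)
      (Pool.Agent.W2helper36.LN.vol_win _ k) hδ hδ1 hp
      (fun t ht x => by
        have ht' : |t| ≤ H := abs_le.2 (mem_Icc.1 ht.2)
        refine le_trans (le_of_eq ?_) (h t ht' x)
        congr 1
        ext v
        simp only [mem_inter_iff, mem_setOf_eq, mem_closedBall, dist_zero_right, lin]
        exact and_comm) (fun t ht => hK t (abs_le.2 (mem_Icc.1 ht.2))))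
  rw [one_mul] at key
  exact key

end Pool.Agent.W2helper36.RA
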