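import Pool.Agent.W2helper36.RA.Sup

set_option autoImplicit false

/-!
All scales simultaneously.
-/

open MeasureTheory Set ENNReal Metric

namespace Pool.Agent.W2helper36.RA

open Pool.Agent.H803R2.KakFTO (Vec)
open Pool.Agent.W2helper36.LN (Z vb vb_ne_top vb_ne_zero vol_cb)

variable {d : ℕ} {Ω : Type*} [MeasurableSpace Ω]

/-- The size of the constants. -/
noncomputable def L0 (D : Set (Vec d)) (M H : ℝ) : ℝ :=
  (H + 1) * M * 3 ^ d * ((volume D).toReal / (vb d).toReal + 1)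

theorem one_le_L0 (D : Set (Vec d)) {M H : ℝ} (hM : 1 ≤ M) (hH : 0 ≤ H) : 1 ≤ L0 D M H := by
  unfold L0
  have h1 : (1 : ℝ) ≤ 3 ^ d := one_le_pow₀ (by norm_num)
  have h2 : 0 ≤ (volume D).toReal / (vb d).toReal := by positivity
  have h3 : 1 ≤ (H + 1) * M := by nlinarith
  have h4 : 1 ≤ (H + 1) * M * 3 ^ d := by nlinarith
  nlinarith

/-- Number of moments at the scale `k`. -/
noncomputable def mk (D : Set (Vec d)) (M H u : ℝ) (k : ℕ) : ℕ :=
  ⌈u + (d + 2) * (k + 1) + Real.log (L0 D M H)⌉₊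

/-- The good event. -/
def good (D : Set (Vec d)) (Φ : Ω → ℝ → Vec d → Vec d) (M c H u : ℝ) : Set Ω :=
  ⋂ k, (bad D Φ M c H k (mk D M H u k))ᶜ

theorem measurableSet_good {D : Set (Vec d)} (hD : MeasurableSet D) {Φ : Ω → ℝ → Vec d → Vec d}
    (hΦ : Measurable (fun z : Ω × ℝ × Vec d => Φ z.1 z.2.1 z.2.2)) (M c H u : ℝ) :
    MeasurableSet (good D Φ M c H u) :=
  MeasurableSet.iInter fun _ => (measurableSet_bad hD hΦ _ _ _ _ _).compl

theorem P_good {P : Measure Ω} [IsProbabilityMeasure P] {D : Set (Vec d)} (hD : MeasurableSet D)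
    (hDt : volume D ≠ ∞) {Φ : Ω → ℝ → Vec d → Vec d}
    (hΦ : Measurable (fun z : Ω × ℝ × Vec d => Φ z.1 z.2.1 z.2.2)) {M : ℝ} (hM : 1 ≤ M)
    {c H : ℝ} (hc : 0 < c) (hc1 : c ≤ 1) (hH : 0 ≤ H)
    (hL : ∀ k : ℕ, ∀ τ, |τ| ≤ H + 1 → LR P D (3 * (1 / 2) ^ k) (kap c H k τ) (fun ω => Φ ω τ))
    (u : ℝ) :
    P (good D Φ M c H u)ᶜ ≤ ENNReal.ofReal (Real.exp (-u)) := by
  have hL1 := one_le_L0 D hM hH
  have hstep : ∀ k : ℕ, P (bad D Φ M c H k (mk D M H u k)) ≤
      ENNReal.ofReal (Real.exp (-u)) * (1 / 2 : ℝ≥0∞) ^ (k + 1) := by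
    intro k
    refine (P_bad hD hDt hΦ hM hc hc1 hH k (hL k) _).trans ?_
    have e1 : ENNReal.ofReal (Real.exp (-u)) * (1 / 2 : ℝ≥0∞) ^ (k + 1) =
        ENNReal.ofReal (Real.exp (-u) * (1 / 2) ^ (k + 1)) := by
      rw [ENNReal.ofReal_mul (Real.exp_pos _).le, ENNReal.ofReal_pow (by norm_num)]
      congr 2
      rw [ENNReal.ofReal_div_of_pos (by norm_num)]
      simp
    rw [e1]
    apply ENNReal.ofReal_le_ofReal
    have hceil : u + (d + 2) * (k + 1) + Real.log (L0 D M H) ≤ (mk D M H u k : ℝ) :=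
      Nat.le_ceil _
    have hpos : 0 < L0 D M H := by linarith
    have h0 : (H + 1) * M * 3 ^ d * ((volume D).toReal / (vb d).toReal) ≤ L0 D M H := by
      unfold L0
      have : 0 ≤ (H + 1) * M * 3 ^ d := by positivity
      gcongr
      linarith
    have h1 : Real.exp (-((mk D M H u k : ℝ) + 1)) * L0 D M H ≤
        Real.exp (-u) * Real.exp (-((d + 2) * (k + 1))) := by
      calc Real.exp (-((mk D M H u k : ℝ) + 1)) * L0 D M H
          = Real.exp (-((mk D M H u k : ℝ) + 1) + Real.log (L0 D M H)) := by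
            rw [Real.exp_add, Real.exp_log hpos]
        _ ≤ Real.exp (-u + (-((d + 2) * (k + 1)))) := by
            apply Real.exp_le_exp.2
            linarith
        _ = _ := by rw [Real.exp_add]
    have h2 : ((2 : ℝ) ^ k) ^ (d + 1) ≤ Real.exp (k * (d + 1)) := by
      rw [← pow_mul]
      calc (2 : ℝ) ^ (k * (d + 1)) ≤ (Real.exp 1) ^ (k * (d + 1)) := by
            apply pow_le_pow_left₀ (by norm_num)
            have := Real.add_one_le_exp 1
            linarith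
        _ = Real.exp (k * (d + 1)) := by
            rw [← Real.exp_nat_mul]
            push_cast
            ring_nf
    have h3 : Real.exp (-((d + 2) * (k + 1)) : ℝ) * Real.exp (k * (d + 1)) ≤ (1 / 2) ^ (k + 1) := by
      rw [← Real.exp_add]
      calc Real.exp (-((d + 2) * (k + 1)) + k * (d + 1) : ℝ)
          ≤ Real.exp (-(k + 1 : ℝ)) := by
            apply Real.exp_le_exp.2
            have : (0 : ℝ) ≤ d := by positivity
            nlinarith
        _ = (Real.exp (-1)) ^ (k + 1) := by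
            rw [← Real.exp_nat_mul]
            push_cast
            ring_nf
        _ ≤ (1 / 2) ^ (k + 1) := by
            apply pow_le_pow_left₀ (Real.exp_pos _).le
            rw [Real.exp_neg, one_div]
            apply inv_anti₀ (by norm_num)
            have := Real.add_one_le_exp 1
            linarith
    calc Real.exp (-((mk D M H u k : ℝ) + 1)) * ((H + 1) * M * 3 ^ d *
          ((volume D).toReal / (vb d).toReal)) * (2 ^ k) ^ (d + 1)
        ≤ Real.exp (-((mk D M H u k : ℝ) + 1)) * L0 D M H * (2 ^ k) ^ (d + 1) := by gcongr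
      _ ≤ (Real.exp (-u) * Real.exp (-((d + 2) * (k + 1)))) * Real.exp (k * (d + 1)) := by
          gcongr
      _ = Real.exp (-u) * (Real.exp (-((d + 2) * (k + 1))) * Real.exp (k * (d + 1))) := by ring
      _ ≤ _ := by gcongr
  unfold good
  rw [compl_iInter]
  simp only [compl_compl]
  calc P (⋃ k, bad D Φ M c H k (mk D M H u k)) ≤ ∑' k, P (bad D Φ M c H k (mk D M H u k)) :=
        measure_iUnion_le _
    _ ≤ ∑' k : ℕ, ENNReal.ofReal (Real.exp (-u)) * (1 / 2 : ℝ≥0∞) ^ (k + 1) :=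
        ENNReal.tsum_le_tsum hstep
    _ = ENNReal.ofReal (Real.exp (-u)) := by
        rw [ENNReal.tsum_mul_left]
        have : ∑' k : ℕ, (1 / 2 : ℝ≥0∞) ^ (k + 1) = 1 := by
          have := ENNReal.tsum_geometric_add_one (1 / 2)
          rw [this]
          simp
          rw [ENNReal.inv_mul_cancel (by norm_num) (by norm_num)]
        rw [this, mul_one]

/-- The constant at the dyadic scales. -/
noncomputable def C0 (D : Set (Vec d)) (M H : ℝ) : ℝ :=
  2 * Real.exp 1 * (d + 5 + Real.log (L0 D M H)) * 12 ^ d * (vb d + volume D).toReal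

theorem C0_nonneg (D : Set (Vec d)) {M H : ℝ} (hM : 1 ≤ M) (hH : 0 ≤ H) : 0 ≤ C0 D M H := by
  have := Real.log_nonneg (one_le_L0 D hM hH)
  unfold C0
  positivity

theorem dyadic {D : Set (Vec d)} (hDt : volume D ≠ ∞) {Φ : Ω → ℝ → Vec d → Vec d} {M : ℝ}
    (hM : 1 ≤ M) (hΦL : ∀ ω t t' v, v ∈ D → ‖Φ ω t v - Φ ω t' v‖ ≤ M * |t - t'|) {c H : ℝ}
    (hc : 0 < c) (hc1 : c ≤ 1) (hH : 0 ≤ H) {u : ℝ} (hu : 1 ≤ u) {ω : Ω}
    (hω : ω ∈ good D Φ M c H u) (k : ℕ) {τ : ℝ} (hτ : |τ| ≤ H) (y : Vec d) :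
    U D Φ ((1 / 2) ^ k) τ y ω ≤
      ENNReal.ofReal (C0 D M H * u * (k + 1) ^ 2 * ((1 / 2) ^ k / kap c H k τ) ^ d) := by
  have hL := Real.log_nonneg (one_le_L0 D hM hH)
  have hκ := kap_pos hc hH k τ
  have hω' : ω ∉ bad D Φ M c H k (mk D M H u k) := by
    unfold good at hω
    rw [mem_iInter] at hω
    exact hω k
  refine (good_le hDt hM hΦL hc hc1 hH hω' hτ y).trans ?_
  unfold SD
  have hp : (0 : ℝ) < (1 / 2) ^ k := by positivity
  have hceil : (mk D M H u k : ℝ) < u + (d + 2) * (k + 1) + Real.log (L0 D M H) + 1 := by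
    apply Nat.ceil_lt_add_one
    have : (0 : ℝ) ≤ (d + 2) * (k + 1) := by positivity
    linarith
  have hvt : vb d + volume D ≠ ∞ := ENNReal.add_ne_top.2 ⟨vb_ne_top d, hDt⟩
  have e1 : ENNReal.ofReal (2 ^ d * (Real.exp 1 * ((mk D M H u k : ℝ) + 1))) *
      (((k : ℝ≥0∞) + 2) * (ENNReal.ofReal ((6 * (1 / 2) ^ k / kap c H k τ) ^ d) *
        (vb d + volume D))) =
      ENNReal.ofReal (2 ^ d * (Real.exp 1 * ((mk D M H u k : ℝ) + 1)) * (((k : ℝ) + 2) *
        ((6 * (1 / 2) ^ k / kap c H k τ) ^ d * (vb d + volume D).toReal))) := by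
    rw [ENNReal.ofReal_mul (p := 2 ^ d * (Real.exp 1 * ((mk D M H u k : ℝ) + 1))) (by positivity),
      ENNReal.ofReal_mul (p := (k : ℝ) + 2) (by positivity),
      ENNReal.ofReal_mul (p := (6 * (1 / 2) ^ k / kap c H k τ) ^ d) (by positivity),
      ENNReal.ofReal_toReal hvt]
    congr 2
    rw [ENNReal.ofReal_add (by positivity) (by norm_num), ENNReal.ofReal_natCast]
    simp
  rw [e1]
  apply ENNReal.ofReal_le_ofReal
  have hk : (0 : ℝ) ≤ k := by positivity
  have hd : (0 : ℝ) ≤ d := by positivity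
  have hm : (mk D M H u k : ℝ) + 1 ≤ u * (k + 1) * (d + 5 + Real.log (L0 D M H)) := by
    set L := Real.log (L0 D M H) with hLdef
    have h1 : (1 : ℝ) ≤ u * (k + 1) := by nlinarith
    have h2 : ((d : ℝ) + 2) * (k + 1) ≤ (d + 2) * (u * (k + 1)) := by
      gcongr
      nlinarith
    have h3 : L ≤ u * (k + 1) * L := by nlinarith
    have h4 : u ≤ u * (k + 1) := by nlinarith
    nlinarith
  have e6 : (6 * (1 / 2 : ℝ) ^ k / kap c H k τ) ^ d = 6 ^ d * ((1 / 2) ^ k / kap c H k τ) ^ d := by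
    rw [mul_div_assoc, mul_pow]
  rw [e6]
  calc 2 ^ d * (Real.exp 1 * ((mk D M H u k : ℝ) + 1)) * (((k : ℝ) + 2) *
        (6 ^ d * ((1 / 2) ^ k / kap c H k τ) ^ d * (vb d + volume D).toReal))
      ≤ 2 ^ d * (Real.exp 1 * (u * (k + 1) * (d + 5 + Real.log (L0 D M H)))) * ((2 * (k + 1)) *
        (6 ^ d * ((1 / 2) ^ k / kap c H k τ) ^ d * (vb d + volume D).toReal)) := by
        gcongr
        linarith
    _ = _ := by
        unfold C0
        have : (12 : ℝ) ^ d = 2 ^ d * 6 ^ d := by rw [← mul_pow]; norm_num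
        rw [this]
        ring

/-- The constant. -/
noncomputable def C1 (D : Set (Vec d)) (M H : ℝ) : ℝ := 4 * 2 ^ d * (H + 1) ^ d * C0 D M H

/-- **The multiplicity at all scales.** -/
theorem overlap {D : Set (Vec d)} (hDt : volume D ≠ ∞) {Φ : Ω → ℝ → Vec d → Vec d} {M : ℝ}
    (hM : 1 ≤ M) (hΦL : ∀ ω t t' v, v ∈ D → ‖Φ ω t v - Φ ω t' v‖ ≤ M * |t - t'|) {c H : ℝ}
    (hc : 0 < c) (hc1 : c ≤ 1) (hH : 0 ≤ H) {u : ℝ} (hu : 1 ≤ u) {ω : Ω}
    (hω : ω ∈ good D Φ M c H u) {τ : ℝ} (hτ : |τ| ≤ H)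
    (y : Vec d) {r : ℝ} (hr : 0 < r) (hr1 : r ≤ 1) :
    U D Φ r τ y ω ≤ ENNReal.ofReal (C1 D M H * u * (1 + Real.log (1 / r)) ^ 2 *
      (r / (c * max |τ| r)) ^ d) := by
  have hC0 := C0_nonneg D hM hH
  obtain ⟨k, hk1, hk2⟩ := exists_nat_pow_near_of_lt_one hr hr1 (by norm_num : (0 : ℝ) < 1 / 2)
    (by norm_num)
  have hp : (0 : ℝ) < (1 / 2) ^ k := by positivity
  have hmono : U D Φ r τ y ω ≤ U D Φ ((1 / 2) ^ k) τ y ω := by
    unfold U Z
    apply lintegral_mono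
    intro v
    simp only
    unfold ab
    by_cases h : v ∈ D ∧ ‖Φ ω τ v - y‖ ≤ r
    · rw [if_pos h, if_pos ⟨h.1, h.2.trans hk2⟩]
    · rw [if_neg h]; exact zero_le
  refine hmono.trans ((dyadic hDt hM hΦL hc hc1 hH hu hω k hτ y).trans (ENNReal.ofReal_le_ofReal ?_))
  have hlog : (k : ℝ) ≤ 2 * Real.log (1 / r) := by
    have h1 : Real.log (2 ^ k) ≤ Real.log (1 / r) := by
      apply Real.log_le_log (by positivity)
      rw [le_div_iff₀ hr]
      calc (2 : ℝ) ^ k * r ≤ 2 ^ k * (1 / 2) ^ k := by gcongr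
        _ = 1 := by rw [← mul_pow]; norm_num
    rw [Real.log_pow] at h1
    have h2 : (1 / 2 : ℝ) ≤ Real.log 2 := by
      have := Real.log_two_gt_d9
      linarith
    have h3 : (0 : ℝ) ≤ k := by positivity
    nlinarith
  have hr2 : (1 / 2 : ℝ) ^ k ≤ 2 * r := by
    rw [pow_succ] at hk1
    linarith
  have hk0 : (0 : ℝ) ≤ k := by positivity
  have hmx : 0 < max |τ| r := lt_max_of_lt_right hr
  have h2 : ((1 / 2) ^ k / kap c H k τ) ^ d ≤ 2 ^ d * (H + 1) ^ d * (r / (c * max |τ| r)) ^ d := by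
    rw [← mul_pow, ← mul_pow]
    have hκ := kap_pos hc hH k τ
    apply pow_le_pow_left₀ (by positivity)
    unfold kap
    have h5 : max |τ| r ≤ max |τ| ((1 / 2) ^ k) := max_le_max le_rfl hk2
    calc (1 / 2) ^ k / (c * max |τ| ((1 / 2) ^ k) / (H + 1))
        = (1 / 2) ^ k * (H + 1) / (c * max |τ| ((1 / 2) ^ k)) := by
          field_simp
      _ ≤ (2 * r) * (H + 1) / (c * max |τ| r) := by gcongr
      _ = _ := by ring
  have h3 : ((k : ℝ) + 1) ^ 2 ≤ 4 * (1 + Real.log (1 / r)) ^ 2 := by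
    have : (k : ℝ) + 1 ≤ 2 * (1 + Real.log (1 / r)) := by linarith
    calc ((k : ℝ) + 1) ^ 2 ≤ (2 * (1 + Real.log (1 / r))) ^ 2 := by gcongr
      _ = _ := by ring
  have hκ0 := kap_pos hc hH k τ
  have hκ1 : 0 ≤ ((1 / 2) ^ k / kap c H k τ) ^ d := by positivity
  calc C0 D M H * u * ((k : ℝ) + 1) ^ 2 * ((1 / 2) ^ k / kap c H k τ) ^ d
      ≤ C0 D M H * u * (4 * (1 + Real.log (1 / r)) ^ 2) *
          (2 ^ d * (H + 1) ^ d * (r / (c * max |τ| r)) ^ d) := by
        gcongr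
    _ = _ := by
        unfold C1
        ring

theorem U_eq {D : Set (Vec d)} (hD : MeasurableSet D) {Φ : Ω → ℝ → Vec d → Vec d}
    (hΦ : Measurable (fun z : Ω × ℝ × Vec d => Φ z.1 z.2.1 z.2.2)) (r τ : ℝ)
    (y : Vec d) (ω : Ω) :
    U D Φ r τ y ω = volume {v | v ∈ D ∧ ‖Φ ω τ v - y‖ ≤ r} := by
  have hg : Measurable (fun v : Vec d => ((ω, τ, v) : Ω × ℝ × Vec d)) :=
    measurable_const.prodMk (measurable_const.prodMk measurable_id)
  have hbm : Measurable (fun v => Φ ω τ v) := by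
    have h0 := hΦ.comp hg
    exact h0
  have hm : MeasurableSet {v | v ∈ D ∧ ‖Φ ω τ v - y‖ ≤ r} :=
    hD.inter (measurableSet_le (hbm.sub_const y).norm measurable_const)
  unfold U Z
  rw [← lintegral_indicator_one hm]
  apply lintegral_congr
  intro v
  unfold ab
  by_cases h : v ∈ D ∧ ‖Φ ω τ v - y‖ ≤ r
  · rw [if_pos h, indicator_of_mem (by exact h)]
    rfl
  · rw [if_neg h, indicator_of_notMem (by exact h)]

end Pool.Agent.W2helper36.RA
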