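import Pool.Agent.W2helper36.RA.Gen

set_option autoImplicit false

/-!
From the moments to the supremum of the multiplicity over all points, with a concentration function
that depends on the height.
-/

open MeasureTheory Set ENNReal Metric

namespace Pool.Agent.W2helper36.RA

open Pool.Agent.H803R2.KakFTO (Vec)
open Pool.Agent.W2helper36.LN (Z mom kk kk_le kk_le_one measurable_kk vb vb_ne_top vb_ne_zero vol_cb)

variable {d : ℕ} {Ω : Type*} [MeasurableSpace Ω]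

theorem U_mono {D : Set (Vec d)} {Φ : Ω → ℝ → Vec d → Vec d} {M : ℝ} (hM : 1 ≤ M)
    (hΦL : ∀ ω t t' v, v ∈ D → ‖Φ ω t v - Φ ω t' v‖ ≤ M * |t - t'|) {r : ℝ} {y y' : Vec d}
    {τ τ' : ℝ} (hr : 0 ≤ r) (hy : ‖y' - y‖ ≤ r) (hτ : |τ' - τ| ≤ r / M) (ω : Ω) :
    U D Φ r τ y ω ≤ U D Φ (3 * r) τ' y' ω := by
  unfold U Z
  apply lintegral_mono
  intro v
  simp only
  unfold ab
  by_cases h : v ∈ D ∧ ‖Φ ω τ v - y‖ ≤ r
  · rw [if_pos h, if_pos]
    refine ⟨h.1, ?_⟩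
    have e : Φ ω τ' v - y' = (Φ ω τ v - y) + (Φ ω τ' v - Φ ω τ v) - (y' - y) := by abel
    have h1 : ‖Φ ω τ' v - Φ ω τ v‖ ≤ r := by
      refine (hΦL ω τ' τ v h.1).trans ?_
      calc M * |τ' - τ| ≤ M * (r / M) := by gcongr
        _ = r := by field_simp
    calc ‖Φ ω τ' v - y'‖ = ‖(Φ ω τ v - y) + (Φ ω τ' v - Φ ω τ v) - (y' - y)‖ := by rw [e]
      _ ≤ ‖(Φ ω τ v - y) + (Φ ω τ' v - Φ ω τ v)‖ + ‖y' - y‖ := norm_sub_le _ _
      _ ≤ ‖Φ ω τ v - y‖ + ‖Φ ω τ' v - Φ ω τ v‖ + ‖y' - y‖ := by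
          gcongr
          exact norm_add_le _ _
      _ ≤ 3 * r := by linarith [h.2]
  · rw [if_neg h]
    exact zero_le

theorem measurable_U {D : Set (Vec d)} (hD : MeasurableSet D) {Φ : Ω → ℝ → Vec d → Vec d}
    (hΦ : Measurable (fun z : Ω × ℝ × Vec d => Φ z.1 z.2.1 z.2.2)) (R : ℝ) :
    Measurable (fun q : (Vec d × ℝ) × Ω => U D Φ R q.1.2 q.1.1 q.2) := by
  have h := measurable_ab3 hD hΦ R
  have h2 : Measurable (fun q : ((Vec d × ℝ) × Ω) × Vec d => ab D Φ R q.1.1.2 q.1.1.1 q.2 q.1.2) := by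
    have hg : Measurable (fun q : ((Vec d × ℝ) × Ω) × Vec d =>
        ((q.1.1, (q.2, q.1.2)) : (Vec d × ℝ) × (Vec d × Ω))) :=
      (measurable_fst.comp measurable_fst).prodMk
        (measurable_snd.prodMk (measurable_snd.comp measurable_fst))
    have h0 := h.comp hg
    exact h0
  exact h2.lintegral_prod_right'

theorem int_U {D : Set (Vec d)} (hD : MeasurableSet D) {Φ : Ω → ℝ → Vec d → Vec d}
    (hΦ : Measurable (fun z : Ω × ℝ × Vec d => Φ z.1 z.2.1 z.2.2))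
    {R : ℝ} (hR : 0 ≤ R) (τ : ℝ) (ω : Ω) :
    ∫⁻ y, U D Φ R τ y ω = volume D * (ENNReal.ofReal (R ^ d) * vb d) := by
  have h := measurable_ab3 hD hΦ R
  have hm : Measurable (fun q : Vec d × Vec d => ab D Φ R τ q.1 q.2 ω) := by
    have hg : Measurable (fun q : Vec d × Vec d =>
        (((q.1, τ), (q.2, ω)) : (Vec d × ℝ) × (Vec d × Ω))) :=
      (measurable_fst.prodMk measurable_const).prodMk (measurable_snd.prodMk measurable_const)
    have h0 := h.comp hg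
    exact h0
  unfold U Z
  rw [lintegral_lintegral_swap hm.aemeasurable]
  have e : ∀ v : Vec d, ∫⁻ y, ab D Φ R τ y v ω =
      D.indicator (fun _ => ENNReal.ofReal (R ^ d) * vb d) v := by
    intro v
    by_cases hv : v ∈ D
    · rw [indicator_of_mem hv, ← vol_cb (Φ ω τ v) hR,
        ← lintegral_indicator_one measurableSet_closedBall]
      apply lintegral_congr
      intro y
      unfold ab
      by_cases h : ‖Φ ω τ v - y‖ ≤ R
      · rw [if_pos ⟨hv, h⟩, indicator_of_mem]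
        · rfl
        · rw [mem_closedBall, dist_eq_norm, norm_sub_rev]; exact h
      · rw [if_neg (fun h' => h h'.2), indicator_of_notMem]
        rw [mem_closedBall, dist_eq_norm, norm_sub_rev]; exact h
    · rw [indicator_of_notMem hv]
      have : ∀ y, ab D Φ R τ y v ω = 0 := by
        intro y
        unfold ab
        rw [if_neg (fun h => hv h.1)]
      simp [this]
  simp only [e]
  rw [lintegral_indicator hD, setLIntegral_const, mul_comm]

/-- The constant of the conditional concentration at the height `τ`. -/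
noncomputable def kap (c H : ℝ) (k : ℕ) (τ : ℝ) : ℝ := c * max |τ| ((1 / 2) ^ k) / (H + 1)

theorem kap_pos {c H : ℝ} (hc : 0 < c) (hH : 0 ≤ H) (k : ℕ) (τ : ℝ) : 0 < kap c H k τ := by
  unfold kap
  have h1 : 0 < max |τ| ((1 / 2 : ℝ) ^ k) := lt_max_of_lt_right (by positivity)
  positivity

theorem kap_le_one {c H : ℝ} (hc : 0 < c) (hc1 : c ≤ 1) (hH : 0 ≤ H) (k : ℕ) {τ : ℝ}
    (hτ : |τ| ≤ H + 1) : kap c H k τ ≤ 1 := by
  unfold kap
  rw [div_le_one (by linarith)]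
  have h1 : max |τ| ((1 / 2 : ℝ) ^ k) ≤ H + 1 := by
    apply max_le hτ
    have : (1 / 2 : ℝ) ^ k ≤ 1 := pow_le_one₀ (by norm_num) (by norm_num)
    linarith
  have h0 : 0 < max |τ| ((1 / 2 : ℝ) ^ k) := lt_max_of_lt_right (by positivity)
  nlinarith

theorem measurable_kap (c H : ℝ) (k : ℕ) : Measurable (kap c H k) := by
  unfold kap
  exact ((measurable_const.mul ((measurable_id.abs).max measurable_const))).div_const _

theorem measurable_SD (D : Set (Vec d)) (c H : ℝ) (k : ℕ) :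
    Measurable (fun τ => SD D (kap c H k τ) k) := by
  unfold SD
  apply Measurable.const_mul
  apply Measurable.mul_const
  apply Measurable.ennreal_ofReal
  apply Measurable.pow_const
  exact measurable_const.div (measurable_kap c H k)

theorem SD_ne_top {D : Set (Vec d)} (hDt : volume D ≠ ∞) (κ : ℝ) (k : ℕ) : SD D κ k ≠ ∞ := by
  unfold SD
  apply ENNReal.mul_ne_top
  · exact ENNReal.add_ne_top.2 ⟨ENNReal.natCast_ne_top k, by simp⟩
  · exact ENNReal.mul_ne_top ENNReal.ofReal_ne_top (ENNReal.add_ne_top.2 ⟨vb_ne_top d, hDt⟩)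

theorem le_SD (D : Set (Vec d)) {κ : ℝ} (hκ : 0 < κ) (hκ1 : κ ≤ 1) (k : ℕ) :
    ENNReal.ofReal (((1 / 2 : ℝ) ^ k) ^ d) * vb d ≤ SD D κ k := by
  have hp : (0 : ℝ) < (1 / 2) ^ k := by positivity
  unfold SD
  calc ENNReal.ofReal (((1 / 2 : ℝ) ^ k) ^ d) * vb d
      ≤ ENNReal.ofReal ((6 * (1 / 2) ^ k / κ) ^ d) * (vb d + volume D) := by
        gcongr
        · rw [le_div_iff₀ hκ]
          nlinarith
        · exact le_self_add
    _ ≤ ((k : ℝ≥0∞) + 2) * (ENNReal.ofReal ((6 * (1 / 2) ^ k / κ) ^ d) * (vb d + volume D)) := by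
        nth_rewrite 1 [← one_mul (ENNReal.ofReal ((6 * (1 / 2) ^ k / κ) ^ d) * (vb d + volume D))]
        gcongr
        calc (1 : ℝ≥0∞) ≤ 2 := by norm_num
          _ ≤ _ := le_add_self

theorem SD_ne_zero (D : Set (Vec d)) {κ : ℝ} (hκ : 0 < κ) (hκ1 : κ ≤ 1) (k : ℕ) : SD D κ k ≠ 0 := by
  have h := le_SD D hκ hκ1 k
  intro h0
  rw [h0] at h
  have h2 : ENNReal.ofReal (((1 / 2 : ℝ) ^ k) ^ d) * vb d = 0 := le_antisymm h zero_le
  rcases mul_eq_zero.1 h2 with h3 | h3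
  · rw [ENNReal.ofReal_eq_zero] at h3
    have : (0 : ℝ) < ((1 / 2) ^ k) ^ d := by positivity
    linarith
  · exact vb_ne_zero d h3

/-- The height matters only up to a factor two. -/
theorem SD_near (D : Set (Vec d)) {c H : ℝ} (hc : 0 < c) (hH : 0 ≤ H) (k : ℕ) {τ τ' : ℝ}
    (h : |τ' - τ| ≤ (1 / 2) ^ k) :
    SD D (kap c H k τ') k ≤ ENNReal.ofReal (2 ^ d) * SD D (kap c H k τ) k := by
  have hp : (0 : ℝ) < (1 / 2) ^ k := by positivity
  have h0 := kap_pos hc hH k τ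
  have h0' := kap_pos hc hH k τ'
  have h1 : kap c H k τ / 2 ≤ kap c H k τ' := by
    have h2 : max |τ| ((1 / 2 : ℝ) ^ k) / 2 ≤ max |τ'| ((1 / 2) ^ k) := by
      have h3 : |τ| ≤ |τ'| + (1 / 2) ^ k := by
        have : |τ| ≤ |τ'| + |τ' - τ| := by
          have := abs_sub_abs_le_abs_sub τ τ'
          rw [abs_sub_comm τ τ'] at this
          linarith
        linarith
      have h4 := le_max_left |τ'| ((1 / 2 : ℝ) ^ k)
      have h5 := le_max_right |τ'| ((1 / 2 : ℝ) ^ k)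
      have h6 : max |τ| ((1 / 2 : ℝ) ^ k) ≤ 2 * max |τ'| ((1 / 2) ^ k) := by
        apply max_le <;> linarith
      linarith
    unfold kap
    calc c * max |τ| ((1 / 2) ^ k) / (H + 1) / 2 = c * (max |τ| ((1 / 2) ^ k) / 2) / (H + 1) := by
          ring
      _ ≤ _ := by gcongr
  unfold SD
  have h7 : (6 * (1 / 2 : ℝ) ^ k / kap c H k τ') ^ d ≤
      2 ^ d * (6 * (1 / 2) ^ k / kap c H k τ) ^ d := by
    rw [← mul_pow]
    apply pow_le_pow_left₀ (by positivity)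
    calc 6 * (1 / 2 : ℝ) ^ k / kap c H k τ' ≤ 6 * (1 / 2) ^ k / (kap c H k τ / 2) := by gcongr
      _ = _ := by field_simp
  calc ((k : ℝ≥0∞) + 2) * (ENNReal.ofReal ((6 * (1 / 2) ^ k / kap c H k τ') ^ d) *
        (vb d + volume D))
      ≤ ((k : ℝ≥0∞) + 2) * (ENNReal.ofReal (2 ^ d * (6 * (1 / 2) ^ k / kap c H k τ) ^ d) *
        (vb d + volume D)) := by gcongr
    _ = _ := by
        rw [ENNReal.ofReal_mul (by positivity)]
        ring

/-- The integral of the powers of the normalised multiplicity function. -/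
noncomputable def FF (D : Set (Vec d)) (Φ : Ω → ℝ → Vec d → Vec d) (c H : ℝ) (k m : ℕ) (ω : Ω) :
    ℝ≥0∞ :=
  ∫⁻ τ in Icc (-(H + 1)) (H + 1), ∫⁻ y,
    ((SD D (kap c H k τ) k)⁻¹ * U D Φ (3 * (1 / 2) ^ k) τ y ω) ^ (m + 1)

theorem measurable_FF {D : Set (Vec d)} (hD : MeasurableSet D) {Φ : Ω → ℝ → Vec d → Vec d}
    (hΦ : Measurable (fun z : Ω × ℝ × Vec d => Φ z.1 z.2.1 z.2.2))
    (c H : ℝ) (k m : ℕ) : Measurable (FF D Φ c H k m) := by
  have h := measurable_U hD hΦ (3 * (1 / 2) ^ k)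
  have hS := (measurable_SD D c H k).inv
  have h1 : Measurable (fun q : (Ω × ℝ) × Vec d =>
      ((SD D (kap c H k q.1.2) k)⁻¹ * U D Φ (3 * (1 / 2) ^ k) q.1.2 q.2 q.1.1) ^ (m + 1)) := by
    apply Measurable.pow_const
    apply Measurable.mul
    · have hg : Measurable (fun q : (Ω × ℝ) × Vec d => q.1.2) := measurable_snd.comp measurable_fst
      have h0 := hS.comp hg
      exact h0
    · have hg : Measurable (fun q : (Ω × ℝ) × Vec d => (((q.2, q.1.2), q.1.1) : (Vec d × ℝ) × Ω)) :=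
        (measurable_snd.prodMk (measurable_snd.comp measurable_fst)).prodMk
          (measurable_fst.comp measurable_fst)
      have h0 := h.comp hg
      exact h0
  have h2 : Measurable (fun q : Ω × ℝ => ∫⁻ y,
      ((SD D (kap c H k q.2) k)⁻¹ * U D Φ (3 * (1 / 2) ^ k) q.2 y q.1) ^ (m + 1)) :=
    h1.lintegral_prod_right'
  exact h2.lintegral_prod_right'

theorem E_tau {P : Measure Ω} [IsProbabilityMeasure P] {D : Set (Vec d)} (hD : MeasurableSet D)
    (hDt : volume D ≠ ∞) {Φ : Ω → ℝ → Vec d → Vec d}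
    (hΦ : Measurable (fun z : Ω × ℝ × Vec d => Φ z.1 z.2.1 z.2.2)) {κ : ℝ} (hκ : 0 < κ)
    (hκ1 : κ ≤ 1) (k : ℕ) (τ : ℝ) (hL : LR P D (3 * (1 / 2) ^ k) κ (fun ω => Φ ω τ)) (m : ℕ) :
    ∫⁻ ω, (∫⁻ y, ((SD D κ k)⁻¹ * U D Φ (3 * (1 / 2) ^ k) τ y ω) ^ (m + 1)) ∂P ≤
      ENNReal.ofReal ((m.factorial : ℝ) * 3 ^ d) * volume D := by
  have hR0 : (0 : ℝ) ≤ 3 * (1 / 2) ^ k := by positivity
  have h := measurable_U hD hΦ (3 * (1 / 2) ^ k)
  have hS0 : SD D κ k ≠ 0 := SD_ne_zero D hκ hκ1 k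
  have hSt : SD D κ k ≠ ∞ := SD_ne_top hDt _ k
  have h3 : Measurable (fun q : Ω × Vec d => U D Φ (3 * (1 / 2) ^ k) τ q.2 q.1) := by
    have hg : Measurable (fun q : Ω × Vec d => (((q.2, τ), q.1) : (Vec d × ℝ) × Ω)) :=
      (measurable_snd.prodMk measurable_const).prodMk measurable_fst
    have h0 := h.comp hg
    exact h0
  have h4 : Measurable (fun q : Vec d × Ω => U D Φ (3 * (1 / 2) ^ k) τ q.1 q.2) := by
    have hg : Measurable (fun q : Vec d × Ω => (((q.1, τ), q.2) : (Vec d × ℝ) × Ω)) :=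
      (measurable_fst.prodMk measurable_const).prodMk measurable_snd
    have h0 := h.comp hg
    exact h0
  have h5 : ∀ y, Measurable (fun ω => U D Φ (3 * (1 / 2) ^ k) τ y ω) := by
    intro y
    have hg : Measurable (fun ω : Ω => (((y, τ), ω) : (Vec d × ℝ) × Ω)) :=
      measurable_const.prodMk measurable_id
    have h0 := h.comp hg
    exact h0
  have h6 : Measurable (fun q : Ω × Vec d =>
      ((SD D κ k)⁻¹ * U D Φ (3 * (1 / 2) ^ k) τ q.2 q.1) ^ (m + 1)) :=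
    (h3.const_mul _).pow_const _
  have h7 : Measurable (fun y => ∫⁻ ω, U D Φ (3 * (1 / 2) ^ k) τ y ω ∂P) :=
    h4.lintegral_prod_right'
  have s1 : ∫⁻ ω, (∫⁻ y, ((SD D κ k)⁻¹ * U D Φ (3 * (1 / 2) ^ k) τ y ω) ^ (m + 1)) ∂P =
      ∫⁻ y, ∫⁻ ω, ((SD D κ k)⁻¹ * U D Φ (3 * (1 / 2) ^ k) τ y ω) ^ (m + 1) ∂P :=
    lintegral_lintegral_swap h6.aemeasurable
  have s2 : ∫⁻ y, ∫⁻ ω, ((SD D κ k)⁻¹ * U D Φ (3 * (1 / 2) ^ k) τ y ω) ^ (m + 1) ∂P ≤
      ∫⁻ y, ((SD D κ k)⁻¹) ^ (m + 1) * (SD D κ k ^ m * (m.factorial : ℝ≥0∞)) *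
        ∫⁻ ω, U D Φ (3 * (1 / 2) ^ k) τ y ω ∂P := by
    apply lintegral_mono
    intro y
    simp only [mul_pow]
    rw [lintegral_const_mul _ ((h5 y).pow_const _), mul_assoc]
    exact mul_le_mul_right (moments hD hΦ hκ hκ1 k τ hL y m) _
  have s3 : ∫⁻ y, ∫⁻ ω, U D Φ (3 * (1 / 2) ^ k) τ y ω ∂P =
      volume D * (ENNReal.ofReal ((3 * (1 / 2) ^ k) ^ d) * vb d) := by
    rw [lintegral_lintegral_swap h4.aemeasurable]
    simp only [int_U hD hΦ hR0]
    rw [lintegral_const, measure_univ, mul_one]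
  have s4 : ((SD D κ k)⁻¹) ^ (m + 1) * (SD D κ k ^ m * (m.factorial : ℝ≥0∞)) *
      (volume D * (ENNReal.ofReal ((3 * (1 / 2) ^ k) ^ d) * vb d)) =
      ((SD D κ k)⁻¹ * SD D κ k) ^ m * ((SD D κ k)⁻¹ * (ENNReal.ofReal (((1 / 2 : ℝ) ^ k) ^ d) * vb d)) *
                (ENNReal.ofReal ((m.factorial : ℝ) * 3 ^ d) * volume D) := by
    have e : ENNReal.ofReal ((3 * (1 / 2 : ℝ) ^ k) ^ d) = ENNReal.ofReal (3 ^ d) *
        ENNReal.ofReal (((1 / 2 : ℝ) ^ k) ^ d) := by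
      rw [← ENNReal.ofReal_mul (by positivity), ← mul_pow]
    rw [e, ENNReal.ofReal_mul (p := (m.factorial : ℝ)) (by positivity),
      ENNReal.ofReal_natCast, mul_pow, pow_succ]
    ring
  rw [s1]
  refine s2.trans ?_
  rw [lintegral_const_mul _ h7, s3, s4]
  calc ((SD D κ k)⁻¹ * SD D κ k) ^ m * ((SD D κ k)⁻¹ * (ENNReal.ofReal (((1 / 2 : ℝ) ^ k) ^ d) * vb d)) *
                (ENNReal.ofReal ((m.factorial : ℝ) * 3 ^ d) * volume D)
      ≤ ((SD D κ k)⁻¹ * SD D κ k) ^ m * ((SD D κ k)⁻¹ * SD D κ k) *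
                (ENNReal.ofReal ((m.factorial : ℝ) * 3 ^ d) * volume D) := by
        gcongr
        exact le_SD D hκ hκ1 k
    _ = _ := by
        rw [ENNReal.inv_mul_cancel hS0 hSt, one_pow, one_mul, one_mul]

theorem measurable_FF2 {D : Set (Vec d)} (hD : MeasurableSet D) {Φ : Ω → ℝ → Vec d → Vec d}
    (hΦ : Measurable (fun z : Ω × ℝ × Vec d => Φ z.1 z.2.1 z.2.2))
    (c H : ℝ) (k m : ℕ) : Measurable (fun q : Ω × ℝ => ∫⁻ y,
      ((SD D (kap c H k q.2) k)⁻¹ * U D Φ (3 * (1 / 2) ^ k) q.2 y q.1) ^ (m + 1)) := by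
  have h := measurable_U hD hΦ (3 * (1 / 2) ^ k)
  have hS := (measurable_SD D c H k).inv
  have h1 : Measurable (fun q : (Ω × ℝ) × Vec d =>
      ((SD D (kap c H k q.1.2) k)⁻¹ * U D Φ (3 * (1 / 2) ^ k) q.1.2 q.2 q.1.1) ^ (m + 1)) := by
    apply Measurable.pow_const
    apply Measurable.mul
    · have hg : Measurable (fun q : (Ω × ℝ) × Vec d => q.1.2) := measurable_snd.comp measurable_fst
      have h0 := hS.comp hg
      exact h0
    · have hg : Measurable (fun q : (Ω × ℝ) × Vec d => (((q.2, q.1.2), q.1.1) : (Vec d × ℝ) × Ω)) :=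
        (measurable_snd.prodMk (measurable_snd.comp measurable_fst)).prodMk
          (measurable_fst.comp measurable_fst)
      have h0 := h.comp hg
      exact h0
  exact h1.lintegral_prod_right'

theorem E_FF {P : Measure Ω} [IsProbabilityMeasure P] {D : Set (Vec d)} (hD : MeasurableSet D)
    (hDt : volume D ≠ ∞) {Φ : Ω → ℝ → Vec d → Vec d}
    (hΦ : Measurable (fun z : Ω × ℝ × Vec d => Φ z.1 z.2.1 z.2.2)) {c H : ℝ} (hc : 0 < c)
    (hc1 : c ≤ 1) (hH : 0 ≤ H) (k : ℕ)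
    (hL : ∀ τ, |τ| ≤ H + 1 → LR P D (3 * (1 / 2) ^ k) (kap c H k τ) (fun ω => Φ ω τ)) (m : ℕ) :
    ∫⁻ ω, FF D Φ c H k m ω ∂P ≤
      ENNReal.ofReal ((m.factorial : ℝ) * (2 * (H + 1)) * 3 ^ d) * volume D := by
  have h2 := measurable_FF2 hD hΦ c H k m
  have s1 : ∫⁻ ω, FF D Φ c H k m ω ∂P = ∫⁻ τ in Icc (-(H + 1)) (H + 1), ∫⁻ ω,
        (∫⁻ y, ((SD D (kap c H k τ) k)⁻¹ * U D Φ (3 * (1 / 2) ^ k) τ y ω) ^ (m + 1)) ∂P := by
    unfold FF
    exact lintegral_lintegral_swap h2.aemeasurable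
  rw [s1]
  calc ∫⁻ τ in Icc (-(H + 1)) (H + 1), ∫⁻ ω,
        (∫⁻ y, ((SD D (kap c H k τ) k)⁻¹ * U D Φ (3 * (1 / 2) ^ k) τ y ω) ^ (m + 1)) ∂P
      ≤ ∫⁻ _τ in Icc (-(H + 1)) (H + 1), ENNReal.ofReal ((m.factorial : ℝ) * 3 ^ d) * volume D := by
        apply setLIntegral_mono' measurableSet_Icc
        intro τ hτ
        have hτ' : |τ| ≤ H + 1 := abs_le.2 (mem_Icc.1 hτ)
        exact E_tau hD hDt hΦ (kap_pos hc hH k τ) (kap_le_one hc hc1 hH k hτ') k τ (hL τ hτ') m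
    _ = _ := by
        rw [setLIntegral_const, Real.volume_Icc]
        have e1 : H + 1 - -(H + 1) = 2 * (H + 1) := by ring
        rw [e1, mul_assoc, mul_comm (volume D), ← mul_assoc, ← ENNReal.ofReal_mul (by positivity)]
        congr 2
        ring

/-- The exceptional event. -/
def bad (D : Set (Vec d)) (Φ : Ω → ℝ → Vec d → Vec d) (M c H : ℝ) (k m : ℕ) : Set Ω :=
  {ω | ENNReal.ofReal ((Real.exp 1 * (m + 1)) ^ (m + 1) * (2 * ((1 / 2) ^ k / M)) *
    ((1 / 2) ^ k) ^ d) * vb d ≤ FF D Φ c H k m ω}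

theorem measurableSet_bad {D : Set (Vec d)} (hD : MeasurableSet D) {Φ : Ω → ℝ → Vec d → Vec d}
    (hΦ : Measurable (fun z : Ω × ℝ × Vec d => Φ z.1 z.2.1 z.2.2)) (M c H : ℝ) (k m : ℕ) :
    MeasurableSet (bad D Φ M c H k m) :=
  measurableSet_le measurable_const (measurable_FF hD hΦ _ _ _ _)

theorem good_le {D : Set (Vec d)} (hDt : volume D ≠ ∞) {Φ : Ω → ℝ → Vec d → Vec d} {M : ℝ}
    (hM : 1 ≤ M) (hΦL : ∀ ω t t' v, v ∈ D → ‖Φ ω t v - Φ ω t' v‖ ≤ M * |t - t'|) {c H : ℝ}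
    (hc : 0 < c) (hc1 : c ≤ 1) (hH : 0 ≤ H) {k m : ℕ} {ω : Ω}
    (h : ω ∉ bad D Φ M c H k m) {τ : ℝ} (hτ : |τ| ≤ H) (y : Vec d) :
    U D Φ ((1 / 2) ^ k) τ y ω ≤
      ENNReal.ofReal (2 ^ d * (Real.exp 1 * (m + 1))) * SD D (kap c H k τ) k := by
  have hp : (0 : ℝ) < (1 / 2) ^ k := by positivity
  have hp1 : (1 / 2 : ℝ) ^ k ≤ 1 := pow_le_one₀ (by norm_num) (by norm_num)
  set r : ℝ := (1 / 2) ^ k with hr
  have hrM : r / M ≤ r := div_le_self hp.le hM
  have hrM0 : 0 < r / M := by positivity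
  by_contra hcon
  rw [not_le] at hcon
  apply h
  unfold bad
  rw [mem_setOf_eq]
  have hsub : Icc (τ - r / M) (τ + r / M) ⊆ Icc (-(H + 1)) (H + 1) := by
    intro t ht
    rw [mem_Icc] at ht ⊢
    obtain ⟨h1, h2⟩ := abs_le.1 hτ
    constructor <;> linarith [ht.1, ht.2]
  unfold FF
  calc ENNReal.ofReal ((Real.exp 1 * (m + 1)) ^ (m + 1) * (2 * (r / M)) * r ^ d) * vb d
      = ∫⁻ _t in Icc (τ - r / M) (τ + r / M), ∫⁻ _z in closedBall y r,
          ENNReal.ofReal (Real.exp 1 * (m + 1)) ^ (m + 1) := by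
        rw [setLIntegral_const, setLIntegral_const, vol_cb y hp.le, Real.volume_Icc]
        have e1 : τ + r / M - (τ - r / M) = 2 * (r / M) := by ring
        rw [e1, ← ENNReal.ofReal_pow (by positivity),
          ENNReal.ofReal_mul (p := (Real.exp 1 * (m + 1)) ^ (m + 1) * (2 * (r / M))) (by positivity),
          ENNReal.ofReal_mul (p := (Real.exp 1 * (m + 1)) ^ (m + 1)) (by positivity)]
        ring
    _ ≤ ∫⁻ t in Icc (τ - r / M) (τ + r / M), ∫⁻ z in closedBall y r,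
          ((SD D (kap c H k t) k)⁻¹ * U D Φ (3 * r) t z ω) ^ (m + 1) := by
        apply setLIntegral_mono' measurableSet_Icc
        intro t ht
        apply setLIntegral_mono' measurableSet_closedBall
        intro z hz
        have ht' : t ∈ Icc (-(H + 1)) (H + 1) := hsub ht
        have hta : |t| ≤ H + 1 := abs_le.2 (mem_Icc.1 ht')
        have hk0 := kap_pos hc hH k t
        have hk1 := kap_le_one hc hc1 hH k hta
        rw [mem_Icc] at ht
        have htτ : |t - τ| ≤ r / M := abs_le.2 ⟨by linarith [ht.1], by linarith [ht.2]⟩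
        have hzy : ‖z - y‖ ≤ r := by simpa [dist_eq_norm] using hz
        have hU := U_mono (D := D) (Φ := Φ) hM hΦL hp.le hzy htτ ω
        have hS := SD_near D hc hH k (τ := τ) (τ' := t) (htτ.trans hrM)
        have hS0 : SD D (kap c H k t) k ≠ 0 := SD_ne_zero D hk0 hk1 k
        have hSt : SD D (kap c H k t) k ≠ ∞ := SD_ne_top hDt _ k
        gcongr
        calc ENNReal.ofReal (Real.exp 1 * (m + 1))
            = (SD D (kap c H k t) k)⁻¹ * (ENNReal.ofReal (Real.exp 1 * (m + 1)) *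
                SD D (kap c H k t) k) := by
              rw [mul_comm (ENNReal.ofReal _), ← mul_assoc, ENNReal.inv_mul_cancel hS0 hSt, one_mul]
          _ ≤ (SD D (kap c H k t) k)⁻¹ * U D Φ (3 * r) t z ω := by
              gcongr
              calc ENNReal.ofReal (Real.exp 1 * (m + 1)) * SD D (kap c H k t) k
                  ≤ ENNReal.ofReal (Real.exp 1 * (m + 1)) *
                    (ENNReal.ofReal (2 ^ d) * SD D (kap c H k τ) k) := by gcongr
                _ = ENNReal.ofReal (2 ^ d * (Real.exp 1 * (m + 1))) * SD D (kap c H k τ) k := by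
                    rw [ENNReal.ofReal_mul (p := (2 : ℝ) ^ d) (by positivity)]
                    ring
                _ ≤ U D Φ r τ y ω := hcon.le
                _ ≤ _ := hU
    _ ≤ ∫⁻ t in Icc (-(H + 1)) (H + 1), ∫⁻ z,
          ((SD D (kap c H k t) k)⁻¹ * U D Φ (3 * r) t z ω) ^ (m + 1) := by
        refine (lintegral_mono fun t => ?_).trans (lintegral_mono_set hsub)
        exact setLIntegral_le_lintegral _ _

theorem P_bad {P : Measure Ω} [IsProbabilityMeasure P] {D : Set (Vec d)} (hD : MeasurableSet D)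
    (hDt : volume D ≠ ∞) {Φ : Ω → ℝ → Vec d → Vec d}
    (hΦ : Measurable (fun z : Ω × ℝ × Vec d => Φ z.1 z.2.1 z.2.2)) {M : ℝ} (hM : 1 ≤ M)
    {c H : ℝ} (hc : 0 < c) (hc1 : c ≤ 1) (hH : 0 ≤ H) (k : ℕ)
    (hL : ∀ τ, |τ| ≤ H + 1 → LR P D (3 * (1 / 2) ^ k) (kap c H k τ) (fun ω => Φ ω τ)) (m : ℕ) :
    P (bad D Φ M c H k m) ≤
      ENNReal.ofReal (Real.exp (-(m + 1)) * ((H + 1) * M * 3 ^ d * ((volume D).toReal / (vb d).toReal))
        * (2 ^ k) ^ (d + 1)) := by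
  have hp : (0 : ℝ) < (1 / 2) ^ k := by positivity
  set r : ℝ := (1 / 2) ^ k with hr
  set X : ℝ≥0∞ := ENNReal.ofReal ((Real.exp 1 * (m + 1)) ^ (m + 1) * (2 * (r / M)) * r ^ d) * vb d
    with hX
  have hvr : 0 < (vb d).toReal := ENNReal.toReal_pos (vb_ne_zero d) (vb_ne_top d)
  have hX0 : X ≠ 0 := by
    rw [hX]
    apply mul_ne_zero _ (vb_ne_zero d)
    rw [ne_eq, ENNReal.ofReal_eq_zero, not_le]; positivity
  have hXt : X ≠ ∞ := ENNReal.mul_ne_top ENNReal.ofReal_ne_top (vb_ne_top d)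
  have h1 : X * P (bad D Φ M c H k m) ≤ ∫⁻ ω, FF D Φ c H k m ω ∂P :=
    mul_meas_ge_le_lintegral (measurable_FF hD hΦ _ _ _ _) X
  have h2 := E_FF hD hDt hΦ hc hc1 hH k hL m
  have h3 : ENNReal.ofReal ((m.factorial : ℝ) * (2 * (H + 1)) * 3 ^ d) * volume D ≤
      X * ENNReal.ofReal (Real.exp (-(m + 1)) * ((H + 1) * M * 3 ^ d *
        ((volume D).toReal / (vb d).toReal)) * (2 ^ k) ^ (d + 1)) := by
    have e0 : volume D = ENNReal.ofReal (volume D).toReal := (ENNReal.ofReal_toReal hDt).symm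
    have e1 : vb d = ENNReal.ofReal (vb d).toReal := (ENNReal.ofReal_toReal (vb_ne_top d)).symm
    have e2 : X * ENNReal.ofReal (Real.exp (-(m + 1)) * ((H + 1) * M * 3 ^ d *
        ((volume D).toReal / (vb d).toReal)) * (2 ^ k) ^ (d + 1)) =
        ENNReal.ofReal (((Real.exp 1 * (m + 1)) ^ (m + 1) * (2 * (r / M)) * r ^ d * (vb d).toReal) *
          (Real.exp (-(m + 1)) * ((H + 1) * M * 3 ^ d *
            ((volume D).toReal / (vb d).toReal)) * (2 ^ k) ^ (d + 1))) := by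
      rw [hX]
      rw [ENNReal.ofReal_mul (p := (Real.exp 1 * (m + 1)) ^ (m + 1) * (2 * (r / M)) * r ^ d *
        (vb d).toReal) (by positivity), ENNReal.ofReal_mul (p := (Real.exp 1 * (m + 1)) ^ (m + 1) *
          (2 * (r / M)) * r ^ d) (by positivity), ENNReal.ofReal_toReal (vb_ne_top d)]
    rw [e2]
    conv_lhs => rw [e0]
    rw [← ENNReal.ofReal_mul (by positivity)]
    apply ENNReal.ofReal_le_ofReal
    have e3 : Real.exp (-((m : ℝ) + 1)) = ((Real.exp 1) ^ (m + 1))⁻¹ := by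
      rw [Real.exp_neg, ← Real.exp_nat_mul]
      congr 2
      push_cast
      ring
    have e4 : r * 2 ^ k = 1 := by
      rw [hr, ← mul_pow]; norm_num
    have e5 : r * r ^ d * (2 ^ k) ^ (d + 1) = 1 := by
      calc r * r ^ d * (2 ^ k) ^ (d + 1) = (r * 2 ^ k) ^ (d + 1) := by ring
        _ = 1 := by rw [e4]; simp
    have e6 : (Real.exp 1) ^ (m + 1) ≠ 0 := by positivity
    have e7 : ((Real.exp 1 * (m + 1)) ^ (m + 1) * (2 * (r / M)) * r ^ d * (vb d).toReal) *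
          (Real.exp (-(m + 1)) * ((H + 1) * M * 3 ^ d *
            ((volume D).toReal / (vb d).toReal)) * (2 ^ k) ^ (d + 1)) =
        ((m : ℝ) + 1) ^ (m + 1) * (2 * (H + 1)) * 3 ^ d * (volume D).toReal := by
      rw [e3, mul_pow]
      calc (Real.exp 1) ^ (m + 1) * ((m : ℝ) + 1) ^ (m + 1) * (2 * (r / M)) * r ^ d * (vb d).toReal *
            (((Real.exp 1) ^ (m + 1))⁻¹ * ((H + 1) * M * 3 ^ d *
              ((volume D).toReal / (vb d).toReal)) * (2 ^ k) ^ (d + 1))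
          = ((Real.exp 1) ^ (m + 1) * ((Real.exp 1) ^ (m + 1))⁻¹) * ((m : ℝ) + 1) ^ (m + 1) *
              (2 * (H + 1)) * 3 ^ d * (M * M⁻¹) * ((vb d).toReal * ((vb d).toReal)⁻¹) *
                (r * r ^ d * (2 ^ k) ^ (d + 1)) * (volume D).toReal := by
            rw [div_eq_mul_inv, div_eq_mul_inv]; ring
        _ = _ := by
            rw [mul_inv_cancel₀ e6, e5, mul_inv_cancel₀ (by linarith : M ≠ 0),
              mul_inv_cancel₀ hvr.ne']
            ring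
    rw [e7]
    have h8 : (m.factorial : ℝ) ≤ ((m : ℝ) + 1) ^ (m + 1) := by
      calc (m.factorial : ℝ) ≤ (m : ℝ) ^ m := by exact_mod_cast Nat.factorial_le_pow m
        _ ≤ ((m : ℝ) + 1) ^ m := by gcongr; linarith
        _ ≤ ((m : ℝ) + 1) ^ (m + 1) := by
            apply pow_le_pow_right₀ _ (Nat.le_succ m)
            have : (0 : ℝ) ≤ m := by positivity
            linarith
    have h9 : 0 ≤ (volume D).toReal := ENNReal.toReal_nonneg
    gcongr
  have h4 := h1.trans (h2.trans h3)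
  exact (ENNReal.mul_le_mul_iff_right hX0 hXt).1 h4

end Pool.Agent.W2helper36.RA
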