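import Pool.Agent.W2helper36.RA.Final

set_option autoImplicit false

/-!
Isometries of the dyadic cubes.
-/

open MeasureTheory Set ENNReal Metric Filter Topology

namespace Pool.Agent.W2helper36.RA

open Pool.Agent.H803R2.KakFTO (Vec)

variable {d : ℕ}

theorem norm_le_sum (x : Vec d) : ‖x‖ ≤ ∑ i : Fin d, |x i| := by
  have e : x = ∑ i : Fin d, EuclideanSpace.single i (x i) := by
    ext i
    simp [Finset.sum_apply]
  calc ‖x‖ = ‖∑ i : Fin d, EuclideanSpace.single i (x i)‖ := by rw [← e]
    _ ≤ ∑ i : Fin d, ‖EuclideanSpace.single i (x i)‖ := norm_sum_le _ _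
    _ = _ := by simp [Real.norm_eq_abs]

theorem norm_le_of {x : Vec d} {c : ℝ} (h : ∀ i, |x i| ≤ c) : ‖x‖ ≤ d * c := by
  refine (norm_le_sum x).trans ?_
  calc ∑ i : Fin d, |x i| ≤ ∑ _i : Fin d, c := Finset.sum_le_sum fun i _ => h i
    _ = _ := by simp

/-- The index of the dyadic cube of generation `j`, of side `2^(1-j)`, that contains `v`. -/
noncomputable def q (j : ℕ) (v : Vec d) : Fin d → ℤ := fun i => ⌊(2 : ℝ) ^ j * ((v i + 1) / 2)⌋

/-- The parent of a cube. -/
def par (k : Fin d → ℤ) : Fin d → ℤ := fun i => k i / 2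

theorem par_q (j : ℕ) (v : Vec d) : par (q (j + 1) v) = q j v := by
  funext i
  unfold par q
  symm
  rw [Int.floor_eq_iff]
  set x : ℝ := (2 : ℝ) ^ j * ((v i + 1) / 2) with hx
  have e : (2 : ℝ) ^ (j + 1) * ((v i + 1) / 2) = 2 * x := by rw [hx, pow_succ]; ring
  rw [e]
  set n : ℤ := ⌊2 * x⌋ with hn
  have h1 : (n : ℝ) ≤ 2 * x := Int.floor_le _
  have h2 : 2 * x < (n : ℝ) + 1 := Int.lt_floor_add_one _
  have h3 : 2 * (n / 2) ≤ n := by omega
  have h4 : n + 1 ≤ 2 * (n / 2) + 2 := by omega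
  have h3' : 2 * ((n / 2 : ℤ) : ℝ) ≤ (n : ℝ) := by exact_mod_cast h3
  have h4' : (n : ℝ) + 1 ≤ 2 * ((n / 2 : ℤ) : ℝ) + 2 := by exact_mod_cast h4
  constructor <;> linarith

theorem measurable_coord (i : Fin d) : Measurable (fun v : Vec d => v i) :=
  (PiLp.continuous_apply 2 (fun _ : Fin d => ℝ) i).measurable

theorem measurable_q (j : ℕ) : Measurable (q j : Vec d → Fin d → ℤ) := by
  rw [measurable_pi_iff]
  intro i
  unfold q
  apply Int.measurable_floor.comp
  exact (((measurable_coord i).add_const _).div_const _).const_mul _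

/-- Compatible permutations of the dyadic cubes. -/
structure TA (d : ℕ) where
  f : ℕ → (Fin d → ℤ) ≃ (Fin d → ℤ)
  f0 : ∀ k, f 0 k = k
  comp : ∀ j k, par (f (j + 1) k) = f j (par k)

/-- The inverse. -/
def TA.inv (A : TA d) : TA d where
  f j := (A.f j).symm
  f0 k := by rw [Equiv.symm_apply_eq, A.f0]
  comp j k := by
    rw [Equiv.eq_symm_apply, ← A.comp, Equiv.apply_symm_apply]

/-- The displacement of the cubes of generation `j`. -/
noncomputable def disp (A : TA d) (j : ℕ) (v : Vec d) : Vec d :=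
  WithLp.toLp 2 (fun i => 2 * (1 / 2 : ℝ) ^ j * (((A.f j (q j v) i : ℤ) : ℝ) - ((q j v i : ℤ) : ℝ)))

/-- The difference of the displacements of the generations `j` and `j + 1`. -/
noncomputable def dd (A : TA d) (j : ℕ) (v : Vec d) : Vec d :=
  WithLp.toLp 2 (fun i => (1 / 2 : ℝ) ^ j * (((A.f (j + 1) (q (j + 1) v) i % 2 : ℤ) : ℝ) -
    ((q (j + 1) v i % 2 : ℤ) : ℝ)))

theorem disp_succ (A : TA d) (j : ℕ) (v : Vec d) : disp A (j + 1) v = disp A j v + dd A j v := by
  ext i
  unfold disp dd
  simp only [PiLp.add_apply]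
  have h1 := congrFun (A.comp j (q (j + 1) v)) i
  have h2 := congrFun (par_q j v) i
  rw [par_q] at h1
  unfold par at h1 h2
  have h3 : A.f (j + 1) (q (j + 1) v) i = 2 * A.f j (q j v) i + A.f (j + 1) (q (j + 1) v) i % 2 := by
    omega
  have h4 : q (j + 1) v i = 2 * q j v i + q (j + 1) v i % 2 := by omega
  have h3' : ((A.f (j + 1) (q (j + 1) v) i : ℤ) : ℝ) = 2 * ((A.f j (q j v) i : ℤ) : ℝ) +
      ((A.f (j + 1) (q (j + 1) v) i % 2 : ℤ) : ℝ) := by exact_mod_cast h3
  have h4' : ((q (j + 1) v i : ℤ) : ℝ) = 2 * ((q j v i : ℤ) : ℝ) + ((q (j + 1) v i % 2 : ℤ) : ℝ) := by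
    exact_mod_cast h4
  rw [h3', h4', pow_succ]
  ring

theorem disp_zero (A : TA d) (v : Vec d) : disp A 0 v = 0 := by
  ext i
  unfold disp
  simp [A.f0]

theorem disp_sum (A : TA d) (j : ℕ) (v : Vec d) : disp A j v = ∑ l ∈ Finset.range j, dd A l v := by
  induction j with
  | zero => simp [disp_zero]
  | succ j ih => rw [Finset.sum_range_succ, disp_succ, ih]

theorem dd_coord (A : TA d) (j : ℕ) (v : Vec d) (i : Fin d) : |dd A j v i| ≤ (1 / 2) ^ j := by
  unfold dd
  simp only
  rw [abs_mul, abs_of_pos (by positivity : (0 : ℝ) < (1 / 2) ^ j)]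
  have h1 : |((A.f (j + 1) (q (j + 1) v) i % 2 : ℤ) : ℝ) - ((q (j + 1) v i % 2 : ℤ) : ℝ)| ≤ 1 := by
    have a1 : 0 ≤ A.f (j + 1) (q (j + 1) v) i % 2 := by omega
    have a2 : A.f (j + 1) (q (j + 1) v) i % 2 ≤ 1 := by omega
    have a3 : 0 ≤ q (j + 1) v i % 2 := by omega
    have a4 : q (j + 1) v i % 2 ≤ 1 := by omega
    have b1 : (0 : ℝ) ≤ ((A.f (j + 1) (q (j + 1) v) i % 2 : ℤ) : ℝ) := by exact_mod_cast a1
    have b2 : ((A.f (j + 1) (q (j + 1) v) i % 2 : ℤ) : ℝ) ≤ 1 := by exact_mod_cast a2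
    have b3 : (0 : ℝ) ≤ ((q (j + 1) v i % 2 : ℤ) : ℝ) := by exact_mod_cast a3
    have b4 : ((q (j + 1) v i % 2 : ℤ) : ℝ) ≤ 1 := by exact_mod_cast a4
    rw [abs_le]
    constructor <;> linarith
  have hp : (0 : ℝ) < (1 / 2) ^ j := by positivity
  nlinarith

theorem norm_dd (A : TA d) (j : ℕ) (v : Vec d) : ‖dd A j v‖ ≤ d * (1 / 2) ^ j :=
  norm_le_of (dd_coord A j v)

theorem summable_bd (d : ℕ) : Summable (fun j : ℕ => (d : ℝ) * (1 / 2) ^ j) :=
  summable_geometric_two.mul_left _

theorem summable_dd (A : TA d) (v : Vec d) : Summable fun j => dd A j v :=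
  Summable.of_norm_bounded (summable_bd d) fun j => norm_dd A j v

/-- The map given by compatible permutations. -/
noncomputable def lift (A : TA d) (v : Vec d) : Vec d := v + ∑' j, dd A j v

theorem lift_sub (A : TA d) (j : ℕ) (v : Vec d) :
    lift A v - (v + disp A j v) = ∑' l, dd A (l + j) v := by
  unfold lift
  rw [disp_sum, ← (summable_dd A v).sum_add_tsum_nat_add j]
  abel

theorem tail_coord (A : TA d) (j : ℕ) (v : Vec d) (i : Fin d) :
    |(∑' l, dd A (l + j) v) i| ≤ 2 * (1 / 2) ^ j := by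
  have hs : Summable fun l => dd A (l + j) v := (summable_nat_add_iff j).2 (summable_dd A v)
  have h1 : HasSum (fun l => dd A (l + j) v i) ((∑' l, dd A (l + j) v) i) := by
    have h2 := hs.hasSum.mapL (EuclideanSpace.proj i : Vec d →L[ℝ] ℝ)
    exact h2
  rw [← h1.tsum_eq, ← Real.norm_eq_abs]
  have h3 : HasSum (fun l : ℕ => (1 / 2 : ℝ) ^ j * (1 / 2) ^ l) ((1 / 2) ^ j * 2) :=
    hasSum_geometric_two.mul_left _
  have h4 : (1 / 2 : ℝ) ^ j * 2 = 2 * (1 / 2) ^ j := by ring
  rw [h4] at h3
  apply tsum_of_norm_bounded h3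
  intro l
  rw [Real.norm_eq_abs]
  refine (dd_coord A (l + j) v i).trans (le_of_eq ?_)
  rw [pow_add]
  ring

theorem lift_near (A : TA d) (j : ℕ) (v : Vec d) :
    ‖lift A v - (v + disp A j v)‖ ≤ d * (2 * (1 / 2) ^ j) := by
  rw [lift_sub]
  exact norm_le_of (tail_coord A j v)

theorem lift_id (A : TA d) (v : Vec d) : ‖lift A v - v‖ ≤ 2 * d := by
  have h := lift_near A 0 v
  rw [disp_zero] at h
  simp only [add_zero, pow_zero, mul_one] at h
  linarith

theorem measurable_disp (A : TA d) (j : ℕ) : Measurable (disp A j) := by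
  have h1 : Measurable (fun k : Fin d → ℤ => (WithLp.toLp 2 (fun i =>
      2 * (1 / 2 : ℝ) ^ j * (((A.f j k i : ℤ) : ℝ) - ((k i : ℤ) : ℝ))) : Vec d)) :=
    measurable_of_countable _
  have h2 := h1.comp (measurable_q (d := d) j)
  exact h2

theorem tendsto_lift (A : TA d) (v : Vec d) :
    Tendsto (fun j => v + disp A j v) atTop (𝓝 (lift A v)) := by
  rw [tendsto_iff_norm_sub_tendsto_zero]
  have h1 : Tendsto (fun j : ℕ => (d : ℝ) * (2 * (1 / 2) ^ j)) atTop (𝓝 0) := by
    have := (tendsto_pow_atTop_nhds_zero_of_lt_one (r := (1 / 2 : ℝ)) (by norm_num) (by norm_num))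
    have h2 := (this.const_mul 2).const_mul (d : ℝ)
    simpa using h2
  apply squeeze_zero (fun _ => norm_nonneg _) _ h1
  intro j
  rw [norm_sub_rev]
  exact lift_near A j v

theorem measurable_lift (A : TA d) : Measurable (lift A) :=
  measurable_of_tendsto_metrizable (fun j => measurable_id.add (measurable_disp A j))
    (tendsto_pi_nhds.2 fun v => tendsto_lift A v)

theorem q_add_disp (A : TA d) (j : ℕ) (v : Vec d) (k : Fin d → ℤ) :
    q j (v + WithLp.toLp 2 (fun i => 2 * (1 / 2 : ℝ) ^ j * (((A.f j k i : ℤ) : ℝ) - ((k i : ℤ) : ℝ))))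
      = fun i => q j v i + (A.f j k i - k i) := by
  funext i
  unfold q
  have e : (2 : ℝ) ^ j * (((v + WithLp.toLp 2 (fun i => 2 * (1 / 2 : ℝ) ^ j *
      (((A.f j k i : ℤ) : ℝ) - ((k i : ℤ) : ℝ))) : Vec d) i + 1) / 2) =
      (2 : ℝ) ^ j * ((v i + 1) / 2) + ((A.f j k i - k i : ℤ) : ℝ) := by
    simp only [PiLp.add_apply]
    have h2 : (2 : ℝ) ^ j * (1 / 2) ^ j = 1 := by rw [← mul_pow]; norm_num
    push_cast
    have : (2 : ℝ) ^ j * ((v i + 2 * (1 / 2 : ℝ) ^ j * (((A.f j k i : ℤ) : ℝ) - ((k i : ℤ) : ℝ)) + 1) / 2)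
        = (2 : ℝ) ^ j * ((v i + 1) / 2) + ((2 : ℝ) ^ j * (1 / 2) ^ j) *
          (((A.f j k i : ℤ) : ℝ) - ((k i : ℤ) : ℝ)) := by ring
    rw [this, h2, one_mul]
  rw [e, Int.floor_add_intCast]

/-- The permutation of the cubes of one generation preserves the measure. -/
theorem mp_disp (A : TA d) (j : ℕ) :
    MeasurePreserving (fun v : Vec d => v + disp A j v) volume volume := by
  have hm : Measurable (fun v : Vec d => v + disp A j v) := measurable_id.add (measurable_disp A j)
  refine ⟨hm, ?_⟩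
  ext S hS
  rw [Measure.map_apply hm hS]
  set t : (Fin d → ℤ) → Vec d := fun k => WithLp.toLp 2 (fun i =>
      2 * (1 / 2 : ℝ) ^ j * (((A.f j k i : ℤ) : ℝ) - ((k i : ℤ) : ℝ))) with ht
  have hq := measurable_q (d := d) j
  have hR : ∀ k : Fin d → ℤ, MeasurableSet (q j ⁻¹' {k} : Set (Vec d)) := fun k =>
    hq (measurableSet_singleton k)
  have split : ∀ T : Set (Vec d), MeasurableSet T → volume T = ∑' k : Fin d → ℤ,
      volume (T ∩ q j ⁻¹' {k}) := by
    intro T hT
    rw [← measure_iUnion]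
    · congr 1
      ext v
      simp
    · intro k l hkl
      rw [Function.onFun, Set.disjoint_left]
      rintro v ⟨_, h1⟩ ⟨_, h2⟩
      exact hkl (h1.symm.trans h2)
    · intro k
      exact hT.inter (hR k)
  rw [split _ (hm hS), split _ hS, ← (A.f j).tsum_eq (fun k => volume (S ∩ q j ⁻¹' {k}))]
  apply tsum_congr
  intro k
  have e : (fun v : Vec d => v + disp A j v) ⁻¹' S ∩ q j ⁻¹' {k} =
      (fun v => v + t k) ⁻¹' (S ∩ q j ⁻¹' {A.f j k}) := by
    ext v
    have hk := q_add_disp A j v k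
    constructor
    · rintro ⟨h1, h2⟩
      have h2' : q j v = k := h2
      have h3 : disp A j v = t k := by
        rw [ht, ← h2']
        rfl
      refine ⟨?_, ?_⟩
      · rw [mem_preimage, h3] at h1
        exact h1
      · rw [mem_preimage, mem_singleton_iff, ht]
        simp only
        rw [hk, h2']
        funext i
        ring
    · rintro ⟨h1, h2⟩
      rw [mem_preimage, mem_singleton_iff, ht] at h2
      simp only at h2
      rw [hk] at h2
      have h2' : q j v = k := by
        funext i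
        have := congrFun h2 i
        linarith
      have h3 : disp A j v = t k := by
        rw [ht, ← h2']
        rfl
      refine ⟨?_, h2'⟩
      rw [mem_preimage, h3]
      exact h1
  rw [e]
  exact (measurePreserving_add_right volume (t k)).measure_preimage (hS.inter (hR _)).nullMeasurableSet

/-- **The maps preserve the measure.** -/
theorem mp_lift (A : TA d) : MeasurePreserving (lift A) (volume : Measure (Vec d)) volume := by
  have hm := measurable_lift A
  refine ⟨hm, ?_⟩
  have hbd : ∀ (j : ℕ) (v : Vec d), ‖v‖ ≤ ‖v + disp A j v‖ + 4 * d := by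
    intro j v
    have h1 := lift_near A j v
    have h2 := lift_id A v
    have hp1 : (1 / 2 : ℝ) ^ j ≤ 1 := pow_le_one₀ (by norm_num) (by norm_num)
    have hd : (0 : ℝ) ≤ d := by positivity
    have h3 : (d : ℝ) * (2 * (1 / 2) ^ j) ≤ 2 * d := by nlinarith
    have e : v = (v + disp A j v) + (lift A v - (v + disp A j v)) - (lift A v - v) := by abel
    calc ‖v‖ = ‖(v + disp A j v) + (lift A v - (v + disp A j v)) - (lift A v - v)‖ := by rw [← e]
      _ ≤ ‖v + disp A j v‖ + ‖lift A v - (v + disp A j v)‖ + ‖lift A v - v‖ := by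
          refine (norm_sub_le _ _).trans ?_
          gcongr
          exact norm_add_le _ _
      _ ≤ _ := by linarith
  have hcpt : IsFiniteMeasureOnCompacts (Measure.map (lift A) (volume : Measure (Vec d))) := by
    constructor
    intro K hK
    rw [Measure.map_apply hm hK.measurableSet]
    obtain ⟨R, hR⟩ := hK.isBounded.exists_norm_le
    refine lt_of_le_of_lt (measure_mono ?_)
      (measure_closedBall_lt_top (x := (0 : Vec d)) (r := R + 2 * d))
    intro v hv
    rw [mem_closedBall, dist_zero_right]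
    have h1 := hR _ hv
    have h2 := lift_id A v
    have e : v = lift A v - (lift A v - v) := by abel
    calc ‖v‖ = ‖lift A v - (lift A v - v)‖ := by rw [← e]
      _ ≤ ‖lift A v‖ + ‖lift A v - v‖ := norm_sub_le _ _
      _ ≤ _ := by linarith
  apply Measure.ext_of_integral_eq_on_compactlySupported
  intro f
  have e0 : ∫ x, f x ∂(Measure.map (lift A) volume) = ∫ v, f (lift A v) :=
    integral_map hm.aemeasurable f.continuous.aestronglyMeasurable
  rw [e0]
  obtain ⟨R, hR⟩ := f.hasCompactSupport.isCompact.isBounded.exists_norm_le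
  obtain ⟨C, hC⟩ := f.continuous.bounded_above_of_compact_support f.hasCompactSupport
  have hvan : ∀ x : Vec d, R < ‖x‖ → f x = 0 := by
    intro x hx
    by_contra hne
    have := hR x (subset_tsupport _ hne)
    linarith
  have hlim : Tendsto (fun j => ∫ v : Vec d, f (v + disp A j v)) atTop (𝓝 (∫ v, f (lift A v))) := by
    apply tendsto_integral_of_dominated_convergence
      (bound := (closedBall (0 : Vec d) (R + 4 * d)).indicator fun _ => C)
    · intro j
      exact (f.continuous.measurable.comp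
        (measurable_id.add (measurable_disp A j))).aestronglyMeasurable
    · rw [integrable_indicator_iff measurableSet_closedBall]
      exact integrableOn_const measure_closedBall_lt_top.ne
    · intro j
      filter_upwards with v
      by_cases hv : ‖v‖ ≤ R + 4 * d
      · rw [indicator_of_mem (by simpa using hv)]
        exact hC _
      · rw [indicator_of_notMem (by simpa using hv)]
        have h1 := hbd j v
        rw [hvan _ (by linarith [not_le.1 hv]), norm_zero]
    · filter_upwards with v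
      exact (f.continuous.tendsto _).comp (tendsto_lift A v)
  have hconst : ∀ j, ∫ v : Vec d, f (v + disp A j v) = ∫ v, f v := by
    intro j
    have h := mp_disp A j
    have e1 : ∫ x, f x ∂(Measure.map (fun v : Vec d => v + disp A j v) volume) =
        ∫ v : Vec d, f (v + disp A j v) :=
      integral_map h.measurable.aemeasurable f.continuous.aestronglyMeasurable
    rw [← e1, h.map_eq]
  simp only [hconst] at hlim
  exact (tendsto_nhds_unique hlim tendsto_const_nhds)

/-- The points with a dyadic coordinate. -/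
def dya (d : ℕ) : Set (Vec d) := {v | ∃ (j : ℕ) (i : Fin d) (n : ℤ), (2 : ℝ) ^ j * ((v i + 1) / 2) = n}

theorem null_dya : volume (dya d) = 0 := by
  have e : dya d = ⋃ (j : ℕ), ⋃ (i : Fin d), ⋃ (n : ℤ),
      {v : Vec d | v i = 2 * (1 / 2) ^ j * n - 1} := by
    ext v
    unfold dya
    simp only [mem_setOf_eq, mem_iUnion]
    constructor
    · rintro ⟨j, i, n, h⟩
      refine ⟨j, i, n, ?_⟩
      have h2 : (2 : ℝ) ^ j * (1 / 2) ^ j = 1 := by rw [← mul_pow]; norm_num
      have h3 : 2 * (1 / 2 : ℝ) ^ j * n = ((2 : ℝ) ^ j * (1 / 2) ^ j) * (v i + 1) := by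
        rw [← h]; ring
      rw [h3, h2]
      ring
    · rintro ⟨j, i, n, h⟩
      refine ⟨j, i, n, ?_⟩
      have h2 : (2 : ℝ) ^ j * (1 / 2) ^ j = 1 := by rw [← mul_pow]; norm_num
      rw [h]
      have h3 : (2 : ℝ) ^ j * ((2 * (1 / 2) ^ j * (n : ℝ) - 1 + 1) / 2) =
        ((2 : ℝ) ^ j * (1 / 2) ^ j) * n := by ring
      rw [h3, h2, one_mul]
  rw [e]
  simp only [measure_iUnion_null_iff]
  intro j i n
  have h1 : {v : Vec d | v i = 2 * (1 / 2) ^ j * n - 1} =
      (WithLp.ofLp : Vec d → Fin d → ℝ) ⁻¹' {x : Fin d → ℝ | x i = 2 * (1 / 2) ^ j * n - 1} := rfl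
  have hmp := PiLp.volume_preserving_ofLp (Fin d)
  have hms : MeasurableSet {x : Fin d → ℝ | x i = 2 * (1 / 2) ^ j * n - 1} :=
    measurable_pi_apply i (measurableSet_singleton _)
  rw [h1, hmp.measure_preimage hms.nullMeasurableSet]
  exact Measure.pi_hyperplane _ i _

theorem q_trunc (A : TA d) (v : Vec d) (n : ℕ) : ∀ j, q j (v + disp A (j + n) v) = A.f j (q j v) := by
  induction n with
  | zero =>
    intro j
    have h := q_add_disp A j v (q j v)
    have e : v + disp A (j + 0) v = v + WithLp.toLp 2 (fun i => 2 * (1 / 2 : ℝ) ^ j *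
      (((A.f j (q j v) i : ℤ) : ℝ) - ((q j v i : ℤ) : ℝ))) := rfl
    rw [e, h]
    funext i
    ring
  | succ n ih =>
    intro j
    have h1 := ih (j + 1)
    have e : j + (n + 1) = j + 1 + n := by ring
    rw [e, ← par_q, h1, A.comp, par_q]

theorem q_lift (A : TA d) {v : Vec d} (h : lift A v ∉ dya d) (j : ℕ) :
    q j (lift A v) = A.f j (q j v) := by
  funext i
  set m : ℤ := A.f j (q j v) i with hm
  have hc : Tendsto (fun n => (2 : ℝ) ^ j * (((v + disp A (j + n) v) i + 1) / 2)) atTop
      (𝓝 ((2 : ℝ) ^ j * ((lift A v i + 1) / 2))) := by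
    have h1 : Tendsto (fun n => v + disp A (j + n) v) atTop (𝓝 (lift A v)) := by
      have := (tendsto_lift A v).comp (tendsto_add_atTop_nat j)
      refine this.congr ?_
      intro n
      simp only [Function.comp]
      rw [add_comm n j]
    have h2 : Continuous (fun w : Vec d => (2 : ℝ) ^ j * ((w i + 1) / 2)) := by
      have : Continuous (fun v : Vec d => v i) := PiLp.continuous_apply 2 (fun _ : Fin d => ℝ) i
      fun_prop
    exact (h2.tendsto _).comp h1
  have hb : ∀ n, (m : ℝ) ≤ (2 : ℝ) ^ j * (((v + disp A (j + n) v) i + 1) / 2) ∧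
      (2 : ℝ) ^ j * (((v + disp A (j + n) v) i + 1) / 2) ≤ (m : ℝ) + 1 := by
    intro n
    have h1 := congrFun (q_trunc A v n j) i
    rw [← hm] at h1
    unfold q at h1
    rw [← h1]
    exact ⟨Int.floor_le _, (Int.lt_floor_add_one _).le⟩
  have hlo : (m : ℝ) ≤ (2 : ℝ) ^ j * ((lift A v i + 1) / 2) := ge_of_tendsto' hc fun n => (hb n).1
  have hhi : (2 : ℝ) ^ j * ((lift A v i + 1) / 2) ≤ (m : ℝ) + 1 := le_of_tendsto' hc fun n => (hb n).2
  have hne : (2 : ℝ) ^ j * ((lift A v i + 1) / 2) ≠ (m : ℝ) + 1 := by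
    intro heq
    apply h
    refine ⟨j, i, m + 1, ?_⟩
    rw [heq]
    push_cast
    rfl
  unfold q
  rw [Int.floor_eq_iff]
  exact ⟨hlo, lt_of_le_of_ne hhi hne⟩

theorem lift_inv (A : TA d) {v : Vec d} (h : lift A v ∉ dya d) : lift A.inv (lift A v) = v := by
  have h1 := tendsto_lift A.inv (lift A v)
  have h2 : ∀ j, lift A v + disp A.inv j (lift A v) = lift A v - (v + disp A j v) + v := by
    intro j
    have e : disp A.inv j (lift A v) = - disp A j v := by
      ext i
      unfold disp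
      simp only [PiLp.neg_apply]
      have h3 := q_lift A h j
      have h4 : A.inv.f j (q j (lift A v)) = q j v := by
        rw [h3]
        exact (A.f j).symm_apply_apply _
      rw [h4, h3]
      ring
    rw [e]
    abel
  simp only [h2] at h1
  have h5 : Tendsto (fun j => lift A v - (v + disp A j v) + v) atTop
      (𝓝 (lift A v - lift A v + v)) := ((tendsto_const_nhds).sub (tendsto_lift A v)).add_const v
  rw [sub_self, zero_add] at h5
  exact tendsto_nhds_unique h1 h5

theorem ae_dya (A : TA d) : ∀ᵐ v : Vec d, lift A v ∉ dya d := by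
  rw [ae_iff]
  simp only [not_not]
  exact (mp_lift A).quasiMeasurePreserving.preimage_null null_dya

/-- **The maps are bijective up to null sets.** -/
theorem ae_inv (A : TA d) : ∀ᵐ v : Vec d, lift A.inv (lift A v) = v := by
  filter_upwards [ae_dya A] with v hv
  exact lift_inv A hv

theorem inv_inv (A : TA d) : A.inv.inv = A := rfl

end Pool.Agent.W2helper36.RA
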